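import Pool.Agent.H29.Sp.Unb

set_option autoImplicit false

/-!
# A path across the annulus

`exists_path_annulus`: if the compact set `F` lies in the open annulus `1 < ‖z‖ < e` and has a
logarithm, then there is a path `γ` in the closed annulus `1 ≤ ‖z‖ ≤ e` which misses `F` and leads
from the circle `‖z‖ = 1` to the circle `‖z‖ = e`.

Proof. Let `V` be the component of `0` in `Fᶜ`; it is open, connected, so path connected
(`IsOpen.isConnected_iff_isPathConnected`), and unbounded by `unbounded_of_hasLog`. So it contains a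
point `w` with `e ≤ ‖w‖`. Let `p : [0,1] → V` be a path from `0` to `w`. Let `b` be the infimum of
the (closed, nonempty) set `{t | e ≤ ‖p t‖}`; then `‖p b‖ = e` and `‖p t‖ ≤ e` for `t ≤ b`. Let `a` be
the supremum of `{t | t ≤ b, ‖p t‖ ≤ 1}`; then `‖p a‖ = 1` and `1 ≤ ‖p t‖` for `a ≤ t ≤ b`. Put
`γ t = p ((1 - t) a + t b)`.
-/

namespace Pool.Agent.H29.Sp

open Complex

theorem exists_path_annulus (F : Set ℂ) (hF : IsCompact F)
    (hF1 : ∀ z ∈ F, 1 < ‖z‖ ∧ ‖z‖ < Real.exp 1) (hl : HasLog F) :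
    ∃ γ : unitInterval → ℂ, Continuous γ ∧ ‖γ 0‖ = 1 ∧ ‖γ 1‖ = Real.exp 1 ∧
      ∀ t, 1 ≤ ‖γ t‖ ∧ ‖γ t‖ ≤ Real.exp 1 ∧ γ t ∉ F := by
  have he1 : (1 : ℝ) < Real.exp 1 := by
    have := Real.add_one_lt_exp (x := 1) one_ne_zero
    linarith
  have h0F : (0 : ℂ) ∉ F := by
    intro h
    have := (hF1 0 h).1
    rw [norm_zero] at this
    linarith
  have hub := unbounded_of_hasLog F hF h0F hl
  have h0V : (0 : ℂ) ∈ connectedComponentIn Fᶜ 0 := mem_connectedComponentIn h0F
  have hVo : IsOpen (connectedComponentIn Fᶜ (0 : ℂ)) := hF.isClosed.isOpen_compl.connectedComponentIn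
  have hVF : connectedComponentIn Fᶜ (0 : ℂ) ⊆ Fᶜ := connectedComponentIn_subset _ _
  have hVc : IsConnected (connectedComponentIn Fᶜ (0 : ℂ)) :=
    isConnected_connectedComponentIn_iff.2 h0F
  have hVp : IsPathConnected (connectedComponentIn Fᶜ (0 : ℂ)) :=
    hVo.isConnected_iff_isPathConnected.1 hVc
  obtain ⟨w, hwV, hw⟩ : ∃ w ∈ connectedComponentIn Fᶜ (0 : ℂ), Real.exp 1 ≤ ‖w‖ := by
    by_contra hcon
    push Not at hcon
    exact hub ((isBounded_iff_forall_norm_le).2 ⟨Real.exp 1, fun z hz => (hcon z hz).le⟩)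
  obtain ⟨p, hp⟩ := hVp.joinedIn 0 h0V w hwV
  -- extended path on the reals
  have hpc : Continuous p := p.continuous
  -- the last parameter `b`
  have hB : IsCompact {t : unitInterval | Real.exp 1 ≤ ‖p t‖} :=
    (isClosed_le continuous_const hpc.norm).isCompact
  have hBne : {t : unitInterval | Real.exp 1 ≤ ‖p t‖}.Nonempty := ⟨1, by simpa using hw⟩
  obtain ⟨b, hb, hbmin⟩ := hB.exists_isLeast hBne
  have hbb : ∀ t, t < b → ‖p t‖ < Real.exp 1 := by
    intro t ht
    by_contra hcon
    exact absurd (hbmin (not_lt.1 hcon : Real.exp 1 ≤ ‖p t‖)) (not_le.2 ht)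
  have hA : IsCompact ({t : unitInterval | ‖p t‖ ≤ 1} ∩ Set.Iic b) :=
    ((isClosed_le hpc.norm continuous_const).inter isClosed_Iic).isCompact
  have hAne : ({t : unitInterval | ‖p t‖ ≤ 1} ∩ Set.Iic b).Nonempty :=
    ⟨0, by simp, unitInterval.nonneg'⟩
  obtain ⟨a, ha, hamax⟩ := hA.exists_isGreatest hAne
  have hab : a ≤ b := ha.2
  have haa : ∀ t, a < t → t ≤ b → 1 < ‖p t‖ := by
    intro t ht htb
    by_contra hcon
    exact absurd (hamax ⟨not_lt.1 hcon, htb⟩) (not_le.2 ht)
  have hane : a ≠ b := by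
    intro h
    have h1 : ‖p a‖ ≤ 1 := ha.1
    have h2 : Real.exp 1 ≤ ‖p b‖ := hb
    rw [h] at h1
    linarith
  have hlt : a < b := lt_of_le_of_ne hab hane
  -- the reparametrised path
  let q : unitInterval → unitInterval := fun t =>
    ⟨(1 - (t : ℝ)) * a + t * b, by
      have ht0 := t.2.1
      have ht1 := t.2.2
      have ha0 := a.2.1
      have hb1 := b.2.2
      have hb0 := b.2.1
      have ha1 := a.2.2
      constructor
      · have := mul_nonneg (sub_nonneg.2 ht1) ha0
        have := mul_nonneg ht0 hb0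
        linarith
      · nlinarith⟩
  have hqc : Continuous q := Continuous.subtype_mk (by fun_prop) _
  have hq0 : q 0 = a := Subtype.ext (by simp [q])
  have hq1 : q 1 = b := Subtype.ext (by simp [q])
  have hqa : ∀ t, a ≤ q t := by
    intro t
    have ht0 := t.2.1
    have : (a : ℝ) ≤ b := hab
    show (a : ℝ) ≤ (1 - (t : ℝ)) * a + t * b
    nlinarith
  have hqb : ∀ t, q t ≤ b := by
    intro t
    have ht1 := t.2.2
    have : (a : ℝ) ≤ b := hab
    show (1 - (t : ℝ)) * a + t * b ≤ (b : ℝ)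
    nlinarith
  -- the values at the end points
  have hna : 1 ≤ ‖p a‖ := by
    -- limit of values bigger than 1
    by_contra hcon
    push Not at hcon
    have hopen : IsOpen {t : unitInterval | ‖p (q t)‖ < 1} :=
      isOpen_lt (hpc.comp hqc).norm continuous_const
    have hmem : (0 : unitInterval) ∈ {t : unitInterval | ‖p (q t)‖ < 1} := by
      show ‖p (q 0)‖ < 1
      rw [hq0]
      exact hcon
    obtain ⟨ε, hε, hball⟩ := Metric.isOpen_iff.1 hopen 0 hmem
    have hm : (0 : ℝ) < min (ε / 2) 1 := lt_min (half_pos hε) one_pos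
    let s : unitInterval := ⟨min (ε / 2) 1, hm.le, min_le_right _ _⟩
    have hs : s ∈ Metric.ball (0 : unitInterval) ε := by
      rw [Metric.mem_ball, Subtype.dist_eq, Real.dist_eq]
      simp only [s, Set.Icc.coe_zero, sub_zero]
      rw [abs_of_pos hm]
      exact lt_of_le_of_lt (min_le_left _ _) (half_lt_self hε)
    have h1 : ‖p (q s)‖ < 1 := hball hs
    have h2 : a < q s := by
      have : (a : ℝ) < b := hlt
      show (a : ℝ) < (1 - min (ε / 2) 1) * a + min (ε / 2) 1 * b
      nlinarith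
    have h3 := haa (q s) h2 (hqb s)
    linarith
  have hnb : ‖p b‖ ≤ Real.exp 1 := by
    by_contra hcon
    push Not at hcon
    have hopen : IsOpen {t : unitInterval | Real.exp 1 < ‖p (q t)‖} :=
      isOpen_lt continuous_const (hpc.comp hqc).norm
    have hmem : (1 : unitInterval) ∈ {t : unitInterval | Real.exp 1 < ‖p (q t)‖} := by
      show Real.exp 1 < ‖p (q 1)‖
      rw [hq1]
      exact hcon
    obtain ⟨ε, hε, hball⟩ := Metric.isOpen_iff.1 hopen 1 hmem
    have hm : (0 : ℝ) < min (ε / 2) 1 := lt_min (half_pos hε) one_pos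
    let s : unitInterval := ⟨1 - min (ε / 2) 1, sub_nonneg.2 (min_le_right _ _), by linarith⟩
    have hs : s ∈ Metric.ball (1 : unitInterval) ε := by
      rw [Metric.mem_ball, Subtype.dist_eq, Real.dist_eq]
      simp only [s, Set.Icc.coe_one]
      have : (1 - min (ε / 2) 1 - 1 : ℝ) = - min (ε / 2) 1 := by ring
      rw [this, abs_neg, abs_of_pos hm]
      exact lt_of_le_of_lt (min_le_left _ _) (half_lt_self hε)
    have h1 : Real.exp 1 < ‖p (q s)‖ := hball hs
    have h2 : q s < b := by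
      have : (a : ℝ) < b := hlt
      show (1 - (1 - min (ε / 2) 1)) * a + (1 - min (ε / 2) 1) * b < (b : ℝ)
      nlinarith
    have h3 := hbb (q s) h2
    linarith
  refine ⟨fun t => p (q t), hpc.comp hqc, ?_, ?_, fun t => ⟨?_, ?_, ?_⟩⟩
  · show ‖p (q 0)‖ = 1
    rw [hq0]
    exact le_antisymm ha.1 hna
  · show ‖p (q 1)‖ = Real.exp 1
    rw [hq1]
    exact le_antisymm hnb hb
  · show 1 ≤ ‖p (q t)‖
    rcases eq_or_lt_of_le (hqa t) with h | h
    · rw [← h]
      exact hna
    · exact (haa _ h (hqb t)).le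
  · show ‖p (q t)‖ ≤ Real.exp 1
    rcases eq_or_lt_of_le (hqb t) with h | h
    · rw [h]
      exact hnb
    · exact (hbb _ h).le
  · exact hVF (hp (q t))

end Pool.Agent.H29.Sp
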