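import Pool.Agent.H29.Sp.Defs

set_option autoImplicit false

/-!
# Two points on a proper subarc of a simple closed curve meet

`fst_eq_range`: let `h` be continuous and injective on the circle and `Z ⊆ range h ×ˢ range h`
compact and connected with `fst '' Z = snd '' Z`, such that `p.1 ≠ p.2` on `Z`. Then
`fst '' Z = range h`.

Proof. Let `Y = fst '' Z = snd '' Z`, compact, and suppose `h c₀ ∉ Y` for some `c₀`. The inverse `k` of
`h` on `range h` is continuous (closed embedding), and `k y ≠ c₀` for `y ∈ Y`. The function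
`a y = arg (- k y / c₀)` (in `(-π, π)`, because `- k y / c₀ ≠ -1`, so it is in the slit plane) is
continuous and injective on `Y`. On `Z` the function `p ↦ a p.1 - a p.2` is continuous. `a` attains
its maximum on the compact nonempty set `Y` at `y₁`; there is `p ∈ Z` with `p.1 = y₁`, where the
function is `≥ 0`, and `q ∈ Z` with `q.2 = y₁`, where it is `≤ 0`. `Z` is connected, so the function
vanishes at some point `p ∈ Z`: `a p.1 = a p.2`, hence `p.1 = p.2`, a contradiction.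
-/

namespace Pool.Agent.H29.Sp

open Complex

private theorem neg_div_mem_slitPlane (b c : Circle) (hbc : b ≠ c) :
    -(b : ℂ) / (c : ℂ) ∈ slitPlane := by
  rw [mem_slitPlane_iff_arg]
  have hc : (c : ℂ) ≠ 0 := Circle.coe_ne_zero c
  have hb : (b : ℂ) ≠ 0 := Circle.coe_ne_zero b
  refine ⟨fun h => ?_, div_ne_zero (neg_ne_zero.2 hb) hc⟩
  have hn : ‖-(b : ℂ) / (c : ℂ)‖ = 1 := by
    rw [norm_div, norm_neg, Circle.norm_coe, Circle.norm_coe, div_one]
  have h1 := norm_mul_exp_arg_mul_I (-(b : ℂ) / (c : ℂ))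
  rw [hn, h, exp_pi_mul_I, ofReal_one, one_mul] at h1
  apply hbc
  apply Subtype.ext
  have h2 : -(c : ℂ) = -(b : ℂ) := by
    field_simp at h1
    exact h1
  exact (neg_injective h2).symm

private theorem arg_inj (b b' c : Circle)
    (h : arg (-(b : ℂ) / (c : ℂ)) = arg (-(b' : ℂ) / (c : ℂ))) : b = b' := by
  have hc : (c : ℂ) ≠ 0 := Circle.coe_ne_zero c
  have h1 := norm_mul_exp_arg_mul_I (-(b : ℂ) / (c : ℂ))
  have h2 := norm_mul_exp_arg_mul_I (-(b' : ℂ) / (c : ℂ))
  have hn : ‖-(b : ℂ) / (c : ℂ)‖ = ‖-(b' : ℂ) / (c : ℂ)‖ := by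
    simp only [norm_div, norm_neg, Circle.norm_coe]
  rw [h, hn, h2] at h1
  apply Subtype.ext
  field_simp at h1
  exact (neg_injective h1).symm

theorem fst_eq_range (h : Circle → ℂ) (hh : Continuous h) (hi : Function.Injective h)
    (Z : Set (ℂ × ℂ)) (hZC : Z ⊆ Set.range h ×ˢ Set.range h) (hc : IsConnected Z)
    (hk : IsCompact Z) (hfs : Prod.fst '' Z = Prod.snd '' Z) (hne : ∀ p ∈ Z, p.1 ≠ p.2) :
    Prod.fst '' Z = Set.range h := by
  have hemb : Topology.IsClosedEmbedding h := hh.isClosedEmbedding hi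
  have hembP : Topology.IsClosedEmbedding (Prod.map h h) := hemb.prodMap hemb
  set Z' : Set (Circle × Circle) := Prod.map h h ⁻¹' Z with hZ'
  have himg : Prod.map h h '' Z' = Z := by
    rw [hZ', Set.image_preimage_eq_iff]
    intro p hp
    obtain ⟨a, ha⟩ := (hZC hp).1
    obtain ⟨b, hb⟩ := (hZC hp).2
    exact ⟨(a, b), Prod.ext ha hb⟩
  have hZ'c : IsPreconnected Z' := by
    rw [← hembP.isInducing.isPreconnected_image, himg]
    exact hc.isPreconnected
  have hZ'k : IsCompact Z' := by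
    rw [hembP.isInducing.isCompact_iff, himg]
    exact hk
  have hfst : h '' (Prod.fst '' Z') = Prod.fst '' Z := by
    rw [← himg, ← Set.image_comp, ← Set.image_comp]
    rfl
  have hsnd : h '' (Prod.snd '' Z') = Prod.snd '' Z := by
    rw [← himg, ← Set.image_comp, ← Set.image_comp]
    rfl
  have hfs' : Prod.fst '' Z' = Prod.snd '' Z' := by
    apply hi.image_injective
    rw [hfst, hsnd, hfs]
  refine Set.Subset.antisymm ?_ ?_
  · rintro _ ⟨p, hp, rfl⟩
    exact (hZC hp).1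
  by_contra hcon
  obtain ⟨_, ⟨c₀, rfl⟩, hc₀⟩ := Set.not_subset.1 hcon
  have hc1 : ∀ y ∈ Prod.fst '' Z', y ≠ c₀ := by
    rintro y hy rfl
    exact hc₀ (hfst ▸ ⟨y, hy, rfl⟩)
  have ha : ContinuousOn (fun y : Circle => arg (-(y : ℂ) / (c₀ : ℂ))) (Prod.fst '' Z') := by
    intro y hy
    have h1 : ContinuousAt (fun y : Circle => -(y : ℂ) / (c₀ : ℂ)) y := by fun_prop
    exact (ContinuousAt.comp (g := arg) (f := fun y : Circle => -(y : ℂ) / (c₀ : ℂ)) (x := y)
      (continuousAt_arg (neg_div_mem_slitPlane y c₀ (hc1 y hy))) h1).continuousWithinAt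
  have hne' : (Prod.fst '' Z').Nonempty := by
    obtain ⟨p, hp⟩ := hc.nonempty
    rw [← himg] at hp
    obtain ⟨q, hq, _⟩ := hp
    exact ⟨q.1, q, hq, rfl⟩
  obtain ⟨y₁, hy₁, hmax⟩ := (hZ'k.image continuous_fst).exists_isMaxOn hne' ha
  have hφ : ContinuousOn (fun p : Circle × Circle => arg (-(p.1 : ℂ) / (c₀ : ℂ)) -
      arg (-(p.2 : ℂ) / (c₀ : ℂ))) Z' := by
    refine ContinuousOn.sub (ha.comp continuous_fst.continuousOn fun p hp => ⟨p, hp, rfl⟩)
      (ha.comp continuous_snd.continuousOn fun p hp => ?_)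
    rw [hfs']
    exact ⟨p, hp, rfl⟩
  obtain ⟨p, hp, hpy⟩ := hy₁
  obtain ⟨q, hq, hqy⟩ : y₁ ∈ Prod.snd '' Z' := hfs' ▸ ⟨p, hp, hpy⟩
  have hmem : (0 : ℝ) ∈ Set.Icc
      ((fun p : Circle × Circle => arg (-(p.1 : ℂ) / (c₀ : ℂ)) - arg (-(p.2 : ℂ) / (c₀ : ℂ))) q)
      ((fun p : Circle × Circle => arg (-(p.1 : ℂ) / (c₀ : ℂ)) - arg (-(p.2 : ℂ) / (c₀ : ℂ))) p) := by
    constructor
    · have := hmax (show q.1 ∈ Prod.fst '' Z' from ⟨q, hq, rfl⟩)
      simp only [Set.mem_ofPred_eq] at this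
      simp only [hqy]
      linarith
    · have := hmax (show p.2 ∈ Prod.fst '' Z' from hfs' ▸ ⟨p, hp, rfl⟩)
      simp only [Set.mem_ofPred_eq] at this
      simp only [hpy]
      linarith
  obtain ⟨z, hz, hz0⟩ := hZ'c.intermediate_value hq hp hφ hmem
  simp only at hz0
  have heq : z.1 = z.2 := arg_inj _ _ c₀ (sub_eq_zero.1 hz0)
  refine hne (Prod.map h h z) hz ?_
  show h z.1 = h z.2
  rw [heq]

end Pool.Agent.H29.Sp
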