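import Pool.Agent.H29.Sp.Lift

set_option autoImplicit false

/-!
# No logarithm on a circle about the origin

Proof. Suppose `l` is continuous on the sphere of radius `R` and `exp (l z) = z` there. On `[0,1]`
put `H t = l (R * exp (2 π i t))` and `H' t = l R + 2 π i t`. Both are continuous, agree at `t = 0`
and have the same exponential `R * exp (2 π i t)`. By `lift_unique` they are equal; at `t = 1` this
gives `l R = l R + 2 π i`, a contradiction.
-/

namespace Pool.Agent.H29.Sp

open Complex

theorem not_hasLog_sphere (R : ℝ) (hR : 0 < R) : ¬ HasLog (Metric.sphere (0 : ℂ) R) := by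
  rintro ⟨l, hl, he⟩
  have hmem : ∀ t : ℝ, (R : ℂ) * exp (2 * Real.pi * I * t) ∈ Metric.sphere (0 : ℂ) R := by
    intro t
    have : (2 * Real.pi * I * t : ℂ) = ((2 * Real.pi * t : ℝ) : ℂ) * I := by push_cast; ring
    rw [mem_sphere_zero_iff_norm, this, norm_mul, Complex.norm_exp_ofReal_mul_I, mul_one]
    simp [abs_of_pos hR]
  have hH : Continuous fun t : unitInterval => l ((R : ℂ) * exp (2 * Real.pi * I * (t : ℝ))) := by
    refine hl.comp_continuous (by fun_prop) (fun t => hmem t)
  have hH' : Continuous fun t : unitInterval => l R + 2 * Real.pi * I * (t : ℝ) := by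
    fun_prop
  have hR0 : (R : ℂ) ∈ Metric.sphere (0 : ℂ) R := by
    have := hmem 0
    simpa using this
  have := lift_unique _ _ hH hH' (by simp) (fun t => by
    rw [he _ (hmem t), exp_add, he _ hR0])
  have h1 := congrFun this 1
  simp only [Set.Icc.coe_one, ofReal_one, mul_one] at h1
  rw [exp_two_pi_mul_I, mul_one] at h1
  have h2 : (2 * Real.pi * I : ℂ) = 0 := by
    have := h1
    linear_combination -this
  exact Complex.two_pi_I_ne_zero h2

end Pool.Agent.H29.Sp
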