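import Pool.Agent.H29.Sp.Defs

set_option autoImplicit false

/-!
# Logarithms on components, on unions, and minimal sets without logarithm

* `HasLog.mono`: a subset of a set with a logarithm has one.
* `HasLog.union`: if `A`, `B` are disjoint closed sets with logarithms, so is `A ∪ B` (piecewise).
* `exists_nhds_log`: if `K` is compact, `0 ∉ K` and `HasLog K`, there is an open `O ⊇ K` with
  `HasLog O`. Proof: extend the logarithm to a continuous `G : ℂ → ℂ` (Tietze); the set
  `O = {z | ‖z * exp (- G z) - 1‖ < 1}` is open and contains `K`; on it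
  `G z + log (z * exp (- G z))` is a continuous logarithm of `z` (the argument of `log` lies in the
  ball of radius `1` about `1`, so in the slit plane).
* `hasLog_of_components`: `F` compact, `0 ∉ F`, every component of `F` has a logarithm, then `F` has
  one. Proof: for `z ∈ F` the component `C_z = connectedComponentIn F z` is the intersection of the
  clopen subsets of `F` containing `z` (`connectedComponent_eq_iInter_isClopen` in the compact
  Hausdorff subtype `F`); by compactness some clopen `D_z` of `F` lies in the open set `O` of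
  `exists_nhds_log` for `C_z`. So `D_z` is a clopen subset of `F` containing `z` with a logarithm.
  Finitely many `D_z` cover `F`; induction on their number with `HasLog.union` (replace each set by
  its difference with the previous ones: still clopen in `F`, hence compact).
* `exists_minimal`: `K` compact, `0 ∉ K`, `¬ HasLog K`: there is a compact `K₀ ⊆ K` with
  `¬ HasLog K₀` such that every closed `K₁ ⊆ K₀`, `K₁ ≠ K₀`, has a logarithm. Proof: Zorn
  (`zorn_superset_nonempty` on the set of compact subsets of `K` without logarithm): for a nonempty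
  chain the intersection `I` is compact and has no logarithm: otherwise there is an open `O ⊇ I` with
  a logarithm, and by compactness (`IsCompact.elim_directed_family_closed_of_isCompact` or
  `exists_subset_nhds_of_isCompact`) some member of the chain is contained in `O`.
-/

namespace Pool.Agent.H29.Sp

open Complex

theorem HasLog.mono {A B : Set ℂ} (h : HasLog B) (hAB : A ⊆ B) : HasLog A := by
  obtain ⟨l, hl, he⟩ := h
  exact ⟨l, hl.mono hAB, fun z hz => he z (hAB hz)⟩

theorem HasLog.union {A B : Set ℂ} (hA : IsClosed A) (hB : IsClosed B) (hd : Disjoint A B)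
    (ha : HasLog A) (hb : HasLog B) : HasLog (A ∪ B) := by
  classical
  obtain ⟨l, hl, he⟩ := ha
  obtain ⟨l', hl', he'⟩ := hb
  have hBA : ∀ z ∈ B, z ∉ A := fun z hz hz' => Set.disjoint_left.1 hd hz' hz
  refine ⟨A.piecewise l l', ContinuousOn.union_of_isClosed ?_ ?_ hA hB, ?_⟩
  · exact hl.congr fun z hz => Set.piecewise_eq_of_mem _ _ _ hz
  · exact hl'.congr fun z hz => Set.piecewise_eq_of_notMem _ _ _ (hBA z hz)
  · rintro z (hz | hz)
    · rw [Set.piecewise_eq_of_mem _ _ _ hz]
      exact he z hz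
    · rw [Set.piecewise_eq_of_notMem _ _ _ (hBA z hz)]
      exact he' z hz

theorem exists_nhds_log (K : Set ℂ) (hK : IsCompact K) (h0 : (0 : ℂ) ∉ K) (hl : HasLog K) :
    ∃ O : Set ℂ, IsOpen O ∧ K ⊆ O ∧ HasLog O := by
  obtain ⟨l, hl, he⟩ := hl
  obtain ⟨G, hG⟩ := ContinuousMap.exists_restrict_eq hK.isClosed
    (⟨K.domRestrict l, continuousOn_iff_continuous_domRestrict.1 hl⟩ : C(K, ℂ))
  have hGK : ∀ z ∈ K, G z = l z := by
    intro z hz
    exact DFunLike.congr_fun hG ⟨z, hz⟩
  refine ⟨{z | z * exp (- G z) ∈ Metric.ball (1 : ℂ) 1}, ?_, ?_, fun z => G z + log (z * exp (- G z)),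
    ?_, ?_⟩
  · exact Metric.isOpen_ball.preimage (by fun_prop)
  · intro z hz
    have : z * exp (- G z) = 1 := by
      rw [hGK z hz, exp_neg, he z hz]
      exact mul_inv_cancel₀ (fun h => h0 (h ▸ hz))
    rw [Set.mem_ofPred_eq, this]
    exact Metric.mem_ball_self one_pos
  · refine ContinuousOn.add (by fun_prop) (ContinuousOn.clog (by fun_prop) ?_)
    intro z hz
    exact ball_one_subset_slitPlane hz
  · intro z hz
    have h1 : z * exp (- G z) ≠ 0 := slitPlane_ne_zero (ball_one_subset_slitPlane hz)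
    rw [exp_add, exp_log h1, exp_neg]
    field_simp

theorem hasLog_of_components (F : Set ℂ) (hF : IsCompact F) (h0 : (0 : ℂ) ∉ F)
    (h : ∀ z ∈ F, HasLog (connectedComponentIn F z)) : HasLog F := by
  have : CompactSpace F := isCompact_iff_compactSpace.1 hF
  have key : ∀ x : F, ∃ D : Set F, IsClopen D ∧ x ∈ D ∧ HasLog (Subtype.val '' D) := by
    intro x
    have hC : IsCompact (connectedComponentIn F (x : ℂ)) := by
      rw [connectedComponentIn_eq_image x.2]
      exact isClosed_connectedComponent.isCompact.image continuous_subtype_val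
    have hC0 : (0 : ℂ) ∉ connectedComponentIn F (x : ℂ) := fun hh =>
      h0 (connectedComponentIn_subset _ _ hh)
    obtain ⟨O, hO, hCO, hOl⟩ := exists_nhds_log _ hC hC0 (h x x.2)
    have : Nonempty {s : Set F // IsClopen s ∧ x ∈ s} := ⟨⟨Set.univ, isClopen_univ, trivial⟩⟩
    obtain ⟨D, hD⟩ := exists_subset_nhds_of_compactSpace
      (V := fun s : {s : Set F // IsClopen s ∧ x ∈ s} => (s : Set F))
      (U := Subtype.val ⁻¹' O) (by
        intro a b
        refine ⟨⟨a ∩ b, a.2.1.inter b.2.1, a.2.2, b.2.2⟩, Set.inter_subset_left,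
          Set.inter_subset_right⟩) (fun s => s.2.1.isClosed) (by
        intro y hy
        rw [← connectedComponent_eq_iInter_isClopen] at hy
        refine (hO.preimage continuous_subtype_val).mem_nhds (hCO ?_)
        rw [connectedComponentIn_eq_image x.2]
        exact ⟨y, hy, rfl⟩)
    refine ⟨D, D.2.1, D.2.2, hOl.mono ?_⟩
    rintro _ ⟨y, hy, rfl⟩
    exact hD hy
  have hind : ∃ D : Set F, IsClopen D ∧ Set.univ ⊆ D ∧ HasLog (Subtype.val '' D) := by
    refine IsCompact.induction_on (s := (Set.univ : Set F))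
      (p := fun S => ∃ D : Set F, IsClopen D ∧ S ⊆ D ∧ HasLog (Subtype.val '' D))
      isCompact_univ ?_ ?_ ?_ ?_
    · refine ⟨∅, isClopen_empty, le_refl _, fun _ => 0, continuousOn_const, ?_⟩
      rintro _ ⟨y, hy, _⟩
      exact hy.elim
    · rintro s t hst ⟨D, hD, htD, hDl⟩
      exact ⟨D, hD, hst.trans htD, hDl⟩
    · rintro s t ⟨D, hD, hsD, hDl⟩ ⟨E, hE, htE, hEl⟩
      refine ⟨D ∪ E \ D, hD.union (hE.diff hD), ?_, ?_⟩
      · rw [Set.union_sdiff_self]
        exact Set.union_subset_union hsD htE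
      · rw [Set.image_union]
        refine HasLog.union ?_ ?_ ?_ hDl (hEl.mono (Set.image_mono Set.sdiff_subset))
        · exact (hD.isClosed.isCompact.image continuous_subtype_val).isClosed
        · exact ((hE.diff hD).isClosed.isCompact.image continuous_subtype_val).isClosed
        · refine (Set.disjoint_image_iff Subtype.val_injective).2 ?_
          exact Set.disjoint_sdiff_right
    · intro x _
      obtain ⟨D, hD, hxD, hDl⟩ := key x
      exact ⟨D, mem_nhdsWithin_of_mem_nhds (hD.isOpen.mem_nhds hxD), D, hD, le_refl _, hDl⟩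
  obtain ⟨D, _, hD, hDl⟩ := hind
  refine hDl.mono ?_
  intro z hz
  exact ⟨⟨z, hz⟩, hD trivial, rfl⟩

theorem exists_minimal (K : Set ℂ) (hK : IsCompact K) (h0 : (0 : ℂ) ∉ K) (hl : ¬ HasLog K) :
    ∃ K₀ : Set ℂ, K₀ ⊆ K ∧ IsCompact K₀ ∧ ¬ HasLog K₀ ∧
      ∀ K₁ : Set ℂ, K₁ ⊆ K₀ → IsClosed K₁ → K₁ ≠ K₀ → HasLog K₁ := by
  obtain ⟨m, hmK, hm⟩ := zorn_superset_nonempty
    {A : Set ℂ | A ⊆ K ∧ IsCompact A ∧ ¬ HasLog A} (by
      intro c hc hchain hcne
      refine ⟨⋂₀ c, ⟨?_, ?_, ?_⟩, fun s hs => Set.sInter_subset_of_mem hs⟩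
      · obtain ⟨s, hs⟩ := hcne
        exact (Set.sInter_subset_of_mem hs).trans (hc hs).1
      · obtain ⟨s₀, hs₀⟩ := hcne
        exact (hc hs₀).2.1.of_isClosed_subset
          (isClosed_sInter fun s hs => (hc hs).2.1.isClosed) (Set.sInter_subset_of_mem hs₀)
      · intro hlog
        obtain ⟨s₀, hs₀⟩ := hcne
        have hcomp : IsCompact (⋂₀ c) := (hc hs₀).2.1.of_isClosed_subset
          (isClosed_sInter fun s hs => (hc hs).2.1.isClosed) (Set.sInter_subset_of_mem hs₀)
        have h00 : (0 : ℂ) ∉ ⋂₀ c := fun hh => h0 ((hc hs₀).1 (hh s₀ hs₀))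
        obtain ⟨O, hO, hcO, hOl⟩ := exists_nhds_log _ hcomp h00 hlog
        have : Nonempty c := ⟨⟨s₀, hs₀⟩⟩
        obtain ⟨s, hs⟩ := exists_subset_nhds_of_isCompact
          (V := fun s : c => (s : Set ℂ)) (U := O) (by
            intro a b
            rcases hchain.total a.2 b.2 with hab | hab
            · exact ⟨a, le_refl _, hab⟩
            · exact ⟨b, hab, le_refl _⟩) (fun s => (hc s.2).2.1) (by
            intro y hy
            refine hO.mem_nhds (hcO ?_)
            rw [Set.sInter_eq_iInter]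
            exact hy)
        exact (hc s.2).2.2 (hOl.mono hs)) K ⟨le_refl _, hK, hl⟩
  refine ⟨m, hmK, hm.prop.2.1, hm.prop.2.2, ?_⟩
  intro K₁ hK₁ hcl hne
  by_contra hcon
  have hmem : K₁ ∈ {A : Set ℂ | A ⊆ K ∧ IsCompact A ∧ ¬ HasLog A} :=
    ⟨hK₁.trans hmK, hm.prop.2.1.of_isClosed_subset hcl hK₁, hcon⟩
  exact hne (le_antisymm hK₁ (hm.le_of_le hmem hK₁))

end Pool.Agent.H29.Sp
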