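import Pool.Agent.H29.Sp.Lift

set_option autoImplicit false

/-!
# The cylinder lemma

`cyl_log`: let `Y` be compact Hausdorff, `u : Y → ℂ` continuous without zeros, and
`h : [0,1] × Y → ℝ` continuous with `h (0, y) < 0 < h (1, y)`. If `(t, y) ↦ u y` has a continuous
logarithm `l` on the zero set of `h`, then `u` has a continuous logarithm on `Y`.

Proof. Extend `l` from the closed set `{h = 0}` to a continuous `G : [0,1] × Y → ℂ` (Tietze,
`ContinuousMap.exists_restrict_eq`; the cylinder is compact Hausdorff, so normal). Put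
`F p = exp (G p)` if `h p ≤ 0` and `F p = u p.2` if `0 < h p`. `F` is continuous (`Continuous.if_le`:
for `h p = 0` the two values agree) and has no zeros. Let `H` be the lift of `exists_lift` for `F`
(`A = Y`): `H (0, y) = 0`, `exp (H (t, y)) * F (0, y) = F (t, y)`. Since `h (0, y) < 0`,
`F (0, y) = exp (G (0, y))`; since `0 < h (1, y)`, `F (1, y) = u y`. So `m y = H (1, y) + G (0, y)`
is a continuous logarithm of `u`.
-/

namespace Pool.Agent.H29.Sp

open Complex

theorem cyl_log {Y : Type*} [TopologicalSpace Y] [CompactSpace Y] [T2Space Y] (u : Y → ℂ)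
    (hu : Continuous u) (hu0 : ∀ y, u y ≠ 0) (h : unitInterval × Y → ℝ) (hh : Continuous h)
    (h0 : ∀ y, h (0, y) < 0) (h1 : ∀ y, 0 < h (1, y)) (l : unitInterval × Y → ℂ)
    (hl : ContinuousOn l {p | h p = 0}) (he : ∀ p, h p = 0 → exp (l p) = u p.2) :
    ∃ m : Y → ℂ, Continuous m ∧ ∀ y, exp (m y) = u y := by
  classical
  have hcl : IsClosed {p : unitInterval × Y | h p = 0} := isClosed_eq hh continuous_const
  obtain ⟨G, hG⟩ := ContinuousMap.exists_restrict_eq hcl
    (⟨_, continuousOn_iff_continuous_domRestrict.1 hl⟩ : C({p : unitInterval × Y | h p = 0}, ℂ))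
  have hGK : ∀ p, h p = 0 → G p = l p := by
    intro p hp
    exact DFunLike.congr_fun hG ⟨p, hp⟩
  have hFc : Continuous fun p : unitInterval × Y => if h p ≤ 0 then exp (G p) else u p.2 := by
    refine Continuous.if_le (by fun_prop) (by fun_prop) hh continuous_const ?_
    intro p hp
    rw [hGK p hp, he p hp]
  have hF0 : ∀ p : unitInterval × Y, (if h p ≤ 0 then exp (G p) else u p.2) ≠ 0 := by
    intro p
    split_ifs
    · exact exp_ne_zero _
    · exact hu0 _
  obtain ⟨H, hHc, _, hH⟩ := exists_lift _ hFc hF0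
  refine ⟨fun y => H (1, y) + G (0, y), by fun_prop, fun y => ?_⟩
  have h2 := hH 1 y
  simp only [if_pos (h0 y).le, if_neg (not_le.2 (h1 y))] at h2
  rw [exp_add, h2]

end Pool.Agent.H29.Sp
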