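import Mathlib

set_option autoImplicit false

/-!
# Spans of nested simple closed curves: definitions

Everything is done in the complex plane; the transfer to `EuclideanSpace ℝ (Fin 2)` is in
`Transfer.lean`.
-/

namespace Pool.Agent.H29.Sp

open Complex

/-- The numbers `r` such that two points can run over the same subcontinuum of `X` at distance
at least `r`. -/
def spanSet {E : Type*} [PseudoMetricSpace E] (X : Set E) : Set ℝ :=
  {r : ℝ | ∃ Z : Set (E × E), Z ⊆ X ×ˢ X ∧ IsConnected Z ∧ IsCompact Z ∧
    Prod.fst '' Z = Prod.snd '' Z ∧ ∀ p ∈ Z, r ≤ dist p.1 p.2}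

/-- The span of `X`. -/
noncomputable def span {E : Type*} [PseudoMetricSpace E] (X : Set E) : ℝ := sSup (spanSet X)

/-- The first coordinate can be written as `g (exp (i θ))` with a continuous angle `θ` on `Z`. -/
def HasAngle {E : Type*} [PseudoMetricSpace E] (g : Circle → E) (Z : Set (E × E)) : Prop :=
  ∃ θ : E × E → ℝ, ContinuousOn θ Z ∧ ∀ p ∈ Z, p.1 = g (Circle.exp (θ p))

/-- The levels of the essential continua of pairs of points of the closed curve `g`. -/
def essSet {E : Type*} [PseudoMetricSpace E] (g : Circle → E) : Set ℝ :=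
  {r : ℝ | ∃ Z : Set (E × E), Z ⊆ Set.range g ×ˢ Set.range g ∧ IsConnected Z ∧ IsCompact Z ∧
    ¬ HasAngle g Z ∧ ∀ p ∈ Z, r ≤ dist p.1 p.2}

/-- The essential span of the closed curve `g`. -/
noncomputable def ess {E : Type*} [PseudoMetricSpace E] (g : Circle → E) : ℝ := sSup (essSet g)

/-- There is no essential continuum of pairs of points of `g` at level `r`. -/
def Iness {E : Type*} [PseudoMetricSpace E] (g : Circle → E) (r : ℝ) : Prop :=
  ∀ Z : Set (E × E), Z ⊆ Set.range g ×ˢ Set.range g → IsConnected Z → IsCompact Z →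
    (∀ p ∈ Z, r ≤ dist p.1 p.2) → HasAngle g Z

/-- The distance of the two points of the pair plus their distances to `J`. -/
noncomputable def gap {E : Type*} [PseudoMetricSpace E] (J : Set E) (p : E × E) : ℝ :=
  dist p.1 p.2 + Metric.infDist p.1 J + Metric.infDist p.2 J

/-- `K` carries a continuous logarithm of `z`. -/
def HasLog (K : Set ℂ) : Prop := ∃ l : ℂ → ℂ, ContinuousOn l K ∧ ∀ z ∈ K, exp (l z) = z

/-- The union of the bounded complementary domains of `J`. -/
def inner {E : Type*} [PseudoMetricSpace E] (J : Set E) : Set E :=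
  {x | x ∉ J ∧ Bornology.IsBounded (connectedComponentIn Jᶜ x)}

/-- First point of the pair coded by the point `z` of the annulus `1 ≤ ‖z‖ ≤ e`. -/
noncomputable def pA (g : Circle → ℂ) (z : ℂ) : ℂ := g (Circle.exp (arg z))

/-- Second point of the pair coded by `z`: the argument is moved forward by `2 π log ‖z‖`. -/
noncomputable def pB (g : Circle → ℂ) (z : ℂ) : ℂ :=
  g (Circle.exp (arg z + 2 * Real.pi * Real.log ‖z‖))

/-- The far pairs at level `r`, as a subset of the annulus `1 ≤ ‖z‖ ≤ e`. -/
def farSet (g : Circle → ℂ) (r : ℝ) : Set ℂ :=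
  {z | 1 ≤ ‖z‖ ∧ ‖z‖ ≤ Real.exp 1 ∧ r ≤ dist (pA g z) (pB g z)}

end Pool.Agent.H29.Sp
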