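import Pool.Agent.H29.Sp.Lift

set_option autoImplicit false

/-!
# A compact set without a logarithm separates `0` from infinity

`bounded_of_not_hasLog`. Proof (contrapositive): let the component `V` of `0` in `Kᶜ` be unbounded.
It is open and connected, hence path connected; choose `M > ‖z‖` for all `z ∈ K`, a point `w ∈ V`
with `M < ‖w‖`, and a path `p` in `V` with `p 0 = w`, `p 1 = 0` (it misses `K`). Apply `exists_lift`
with `A = K` (subtype) to `G (t, z) = z - p t`: there is a continuous `H` on `[0,1] × K` with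
`exp (H (t, z)) * (z - w) = z - p t`. For `z ∈ K` we have `‖z‖ < ‖w‖`, so `(z - w) / (- w) = 1 - z / w`
is in the ball of radius `1` about `1` and `L z = log ((z - w) / (- w)) + log (- w)` is a continuous
logarithm of `z - w` on `K`. Then `H (1, z) + L z` is a continuous logarithm of `z` on `K`
(extend by `0` outside `K`: `ContinuousOn` on `K` is continuity on the subtype,
`continuousOn_iff_continuous_restrict`).

`exists_sep_fn`: let `K` be compact in the open annulus `1 < ‖z‖ < e` without a logarithm. There is
a continuous `h : [0,1] × Circle → ℝ` with `h (0, a) < 0 < h (1, a)` and `h (t, a) = 0` exactly if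
`exp t * a ∈ K`.
Proof. `V`, the component of `0` in `Kᶜ`, is open and bounded, and its frontier is contained in `K`.
`K` is nonempty (the empty set has a logarithm). Put `k z = - infDist z K` for `z ∈ V` and
`k z = infDist z K` otherwise: continuous on `ℂ` (on the frontier of `V` both values are `0`), and
`k z = 0` exactly for `z ∈ K`. Put `h (t, a) = k (exp t * a)`. `h (0, a) < 0`: the closed unit disc is
connected, contains `0` and misses `K`, so it is contained in `V`. `h (1, a) > 0`: the ray
`{s * (e * a) | 1 ≤ s}` is connected, unbounded and misses `K`; if `e * a` were in `V` it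
would be contained in `V`, which is bounded.
-/

namespace Pool.Agent.H29.Sp

open Complex

theorem bounded_of_not_hasLog (K : Set ℂ) (hK : IsCompact K) (h0 : (0 : ℂ) ∉ K)
    (hl : ¬ HasLog K) : Bornology.IsBounded (connectedComponentIn Kᶜ 0) := by
  classical
  by_contra hV
  apply hl
  have hVo : IsOpen (connectedComponentIn Kᶜ 0) := hK.isClosed.isOpen_compl.connectedComponentIn
  have h0V : (0 : ℂ) ∈ connectedComponentIn Kᶜ 0 := mem_connectedComponentIn h0
  have hVc : IsConnected (connectedComponentIn Kᶜ 0) :=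
    ⟨⟨0, h0V⟩, isPreconnected_connectedComponentIn⟩
  have hVp := hVo.isConnected_iff_isPathConnected.mp hVc
  obtain ⟨M, hM⟩ := hK.isBounded.exists_norm_le
  have hw : ∃ w ∈ connectedComponentIn Kᶜ 0, max M 0 < ‖w‖ := by
    by_contra hcon
    push Not at hcon
    exact hV (isBounded_iff_forall_norm_le.mpr ⟨max M 0, hcon⟩)
  obtain ⟨w, hwV, hwM⟩ := hw
  have hw0 : w ≠ 0 := by
    intro h
    rw [h, norm_zero] at hwM
    exact absurd hwM (not_lt.mpr (le_max_right _ _))
  obtain ⟨p, hp⟩ := hVp.joinedIn w hwV 0 h0V
  have hpK : ∀ t, p t ∉ K := fun t => connectedComponentIn_subset _ _ (hp t)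
  obtain ⟨H, hHc, hH0, hHe⟩ := exists_lift (A := K)
    (fun q : unitInterval × K => (q.2 : ℂ) - p q.1) (by fun_prop) (by
      intro q hq
      exact hpK q.1 (by rw [← sub_eq_zero.mp hq]; exact q.2.2))
  have hslit : ∀ z ∈ K, (z - w) / (-w) ∈ slitPlane := by
    intro z hz
    have e : (z - w) / (-w) = 1 + (-(z / w)) := by
      field_simp
      ring
    rw [e]
    apply mem_slitPlane_of_norm_lt_one
    rw [norm_neg, norm_div, div_lt_one (norm_pos_iff.mpr hw0)]
    exact lt_of_le_of_lt (hM z hz) (lt_of_le_of_lt (le_max_left _ _) hwM)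
  refine ⟨fun z => if h : z ∈ K then H (1, ⟨z, h⟩) + (log ((z - w) / (-w)) + log (-w)) else 0,
    ?_, ?_⟩
  · rw [continuousOn_iff_continuous_domRestrict]
    have : K.domRestrict (fun z => if h : z ∈ K then
        H (1, ⟨z, h⟩) + (log ((z - w) / (-w)) + log (-w)) else 0)
        = fun z : K => H (1, z) + (log (((z : ℂ) - w) / (-w)) + log (-w)) := by
      funext z
      have hz : (z : ℂ) ∈ K := z.2
      show (if h : (z : ℂ) ∈ K then
        H (1, ⟨z, h⟩) + (log (((z : ℂ) - w) / (-w)) + log (-w)) else 0) = _
      rw [dif_pos hz]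
    rw [this]
    apply Continuous.add
    · exact hHc.comp (by fun_prop)
    · apply Continuous.add _ continuous_const
      apply Continuous.clog
      · fun_prop
      · intro z
        exact hslit z z.2
  · intro z hz
    show exp (if h : z ∈ K then H (1, ⟨z, h⟩) + (log ((z - w) / (-w)) + log (-w)) else 0) = z
    rw [dif_pos hz]
    have h1 := hHe 1 ⟨z, hz⟩
    simp only [Path.source, Path.target, sub_zero] at h1
    have h2 : (z - w) / (-w) ≠ 0 := slitPlane_ne_zero (hslit z hz)
    have h3 : -w ≠ 0 := neg_ne_zero.mpr hw0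
    rw [exp_add, exp_add, exp_log h2, exp_log h3, div_mul_cancel₀ _ h3]
    exact h1

theorem exists_sep_fn (K : Set ℂ) (hK : IsCompact K) (hK1 : ∀ z ∈ K, 1 < ‖z‖ ∧ ‖z‖ < Real.exp 1)
    (hl : ¬ HasLog K) :
    ∃ h : unitInterval × Circle → ℝ, Continuous h ∧ (∀ a, h (0, a) < 0) ∧ (∀ a, 0 < h (1, a)) ∧
      ∀ t a, h (t, a) = 0 ↔ (Real.exp (t : ℝ) : ℂ) * (a : ℂ) ∈ K := by
  classical
  have h0 : (0 : ℂ) ∉ K := by
    intro h
    have := (hK1 0 h).1
    rw [norm_zero] at this
    linarith
  have hKn : K.Nonempty := by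
    rw [Set.nonempty_iff_ne_empty]
    intro h
    apply hl
    rw [h]
    exact ⟨fun _ => 0, continuousOn_empty _, by simp⟩
  have hKc := hK.isClosed
  have hVb := bounded_of_not_hasLog K hK h0 hl
  set V := connectedComponentIn Kᶜ (0 : ℂ) with hV
  have hVo : IsOpen V := hKc.isOpen_compl.connectedComponentIn
  have h0V : (0 : ℂ) ∈ V := mem_connectedComponentIn h0
  have hfr : frontier V ⊆ K := by
    intro z hz
    by_contra hzK
    have hW : IsOpen (connectedComponentIn Kᶜ z) := hKc.isOpen_compl.connectedComponentIn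
    have hzW : z ∈ connectedComponentIn Kᶜ z := mem_connectedComponentIn hzK
    obtain ⟨y, hyW, hyV⟩ := mem_closure_iff.mp (frontier_subset_closure hz) _ hW hzW
    have e1 : V = connectedComponentIn Kᶜ y := connectedComponentIn_eq hyV
    have e2 : connectedComponentIn Kᶜ z = connectedComponentIn Kᶜ y := connectedComponentIn_eq hyW
    have hzV : z ∈ V := by
      rw [e1, ← e2]
      exact hzW
    rw [hVo.frontier_eq] at hz
    exact hz.2 hzV
  set k : ℂ → ℝ := fun z => if z ∈ V then - Metric.infDist z K else Metric.infDist z K with hk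
  have hkc : Continuous k := by
    apply Continuous.if
    · intro a ha
      have haK : a ∈ K := hfr ha
      rw [Metric.infDist_zero_of_mem haK, neg_zero]
    · exact (Metric.continuous_infDist_pt K).neg
    · exact Metric.continuous_infDist_pt K
  have hkz : ∀ z, k z = 0 ↔ z ∈ K := by
    intro z
    rw [hKc.mem_iff_infDist_zero hKn]
    simp only [hk]
    split_ifs
    · rw [neg_eq_zero]
    · rfl
  refine ⟨fun p => k ((Real.exp (p.1 : ℝ) : ℂ) * (p.2 : ℂ)), ?_, ?_, ?_, ?_⟩
  · apply hkc.comp
    apply Continuous.mul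
    · exact continuous_ofReal.comp (Real.continuous_exp.comp (by fun_prop))
    · exact continuous_subtype_val.comp continuous_snd
  · intro a
    have ha : (a : ℂ) ∉ K := by
      intro h
      have := (hK1 _ h).1
      rw [Circle.norm_coe] at this
      linarith
    have haV : (a : ℂ) ∈ V := by
      have hsub : Metric.closedBall (0 : ℂ) 1 ⊆ V := by
        apply IsPreconnected.subset_connectedComponentIn
        · exact (convex_closedBall _ _).isPreconnected
        · simp
        · intro z hz hzK
          have h1 := (hK1 z hzK).1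
          rw [mem_closedBall_zero_iff] at hz
          linarith
      apply hsub
      rw [mem_closedBall_zero_iff, Circle.norm_coe]
    show k ((Real.exp ((0 : unitInterval) : ℝ) : ℂ) * (a : ℂ)) < 0
    rw [Set.Icc.coe_zero, Real.exp_zero, ofReal_one, one_mul]
    simp only [hk]
    rw [if_pos haV]
    have := (hKc.notMem_iff_infDist_pos hKn).mp ha
    linarith
  · intro a
    have he : (1 : ℝ) < Real.exp 1 := by
      exact Real.one_lt_exp_iff.mpr one_pos
    have hn : ∀ s : ℝ, 0 ≤ s → ‖(s : ℂ) * ((Real.exp 1 : ℂ) * (a : ℂ))‖ = s * Real.exp 1 := by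
      intro s hs
      rw [norm_mul, norm_mul, Circle.norm_coe, mul_one, Complex.norm_real, Complex.norm_real,
        Real.norm_of_nonneg hs, Real.norm_of_nonneg (Real.exp_pos 1).le]
    have hray : ∀ s : ℝ, 1 ≤ s → (s : ℂ) * ((Real.exp 1 : ℂ) * (a : ℂ)) ∉ K := by
      intro s hs hsK
      have h1 := (hK1 _ hsK).2
      rw [hn s (by linarith)] at h1
      nlinarith
    have hnV : (Real.exp 1 : ℂ) * (a : ℂ) ∉ V := by
      intro haV
      have hsub : (fun s : ℝ => (s : ℂ) * ((Real.exp 1 : ℂ) * (a : ℂ))) '' Set.Ici 1 ⊆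
          connectedComponentIn Kᶜ ((Real.exp 1 : ℂ) * (a : ℂ)) := by
        apply IsPreconnected.subset_connectedComponentIn
        · apply isPreconnected_Ici.image
          fun_prop
        · exact ⟨1, Set.mem_Ici.mpr le_rfl, by simp⟩
        · rintro _ ⟨s, hs, rfl⟩
          exact hray s hs
      rw [← connectedComponentIn_eq haV] at hsub
      obtain ⟨M, hM⟩ := hVb.exists_norm_le
      have h2 := hM _ (hsub ⟨max 1 (M + 1), Set.mem_Ici.mpr (le_max_left _ _), rfl⟩)
      simp only at h2
      rw [hn _ (by positivity)] at h2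
      have h3 : 1 ≤ max 1 (M + 1) := le_max_left _ _
      have h4 : M + 1 ≤ max 1 (M + 1) := le_max_right _ _
      nlinarith
    have haK : (Real.exp 1 : ℂ) * (a : ℂ) ∉ K := by
      have := hray 1 le_rfl
      rwa [ofReal_one, one_mul] at this
    show 0 < k ((Real.exp ((1 : unitInterval) : ℝ) : ℂ) * (a : ℂ))
    rw [Set.Icc.coe_one]
    simp only [hk]
    rw [if_neg hnV]
    exact (hKc.notMem_iff_infDist_pos hKn).mp haK
  · intro t a
    exact hkz _

end Pool.Agent.H29.Sp
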