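import Pool.Agent.H29.Sp.Comp
import Pool.Agent.H29.Sp.Circ
import Pool.Agent.H29.Sp.Sep
import Pool.Agent.H29.Sp.Cyl

set_option autoImplicit false

/-!
# Pairs which are never on the same chord are inessential

`cyl_ess`: let `φ : [0,1] × Circle → ℝ` be continuous with `φ (0, a) < 0 < φ (1, a)`, and let
`K ⊆ Circle × Circle` be compact such that for `(a, b) ∈ K` there is no `t` with
`φ (t, a) = 0 = φ (t, b)`. Then the first coordinate has a continuous logarithm on `K`.

Proof. Let `Φ` be the set of the points `exp t * a` (`t ∈ [0,1]`, `a` in the circle) with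
`φ (t, a) = 0`: compact (image of a compact set), in the open annulus `1 < ‖z‖ < e` (`φ (0, a)` and
`φ (1, a)` are not `0`).
(1) `¬ HasLog Φ`: if `l` is a logarithm on `Φ`, then `(t, a) ↦ l (exp t * a) - t` is a continuous
logarithm of `a` on the zero set of `φ`; by `cyl_log` (`Y = Circle`, `u a = a`) there is a continuous
`m : Circle → ℂ` with `exp (m a) = a`, which contradicts `not_hasLog_sphere 1` (compose with
`z ↦ z` from the unit sphere to `Circle`).
(2) Let `Φ₀ ⊆ Φ` be minimal as in `exists_minimal`, and `h` its function from `exists_sep_fn`.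
(3) Suppose the first coordinate has NO continuous logarithm on `K`. Let
`Y₂ = {(t, (a, b)) | (a, b) ∈ K, h (t, a) = 0}` and
`M = {(t', (t, (a, b))) | (a, b) ∈ K, h (t, a) = 0, h (t', b) = 0}`, both compact. By `cyl_log` with
`Y = K` (subtype), `u (a, b) = a` and the function `(t, (a, b)) ↦ h (t, a)`, there is no continuous
logarithm of `a` on `Y₂`; by `cyl_log` again with `Y = Y₂` (subtype) and the function
`(t', (t, (a, b))) ↦ h (t', b)` there is none on `M`.
(4) On `M` we have `t ≠ t'`: `exp t * a` and `exp t' * b` are in `Φ₀ ⊆ Φ`, so `φ (t, a) = 0` and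
`φ (t', b) = 0` (`exp t * a` determines `t` and `a`), and `t = t'` is excluded by the hypothesis. So
`M` is the disjoint union of the compact sets `M₁ = M ∩ {t' < t}` and `M₂ = M ∩ {t < t'}` (each is
closed: `M ∩ {t' ≤ t}`, `M ∩ {t ≤ t'}`).
(5) The image `Φ₁` of `M₁` under `(t', (t, (a, b))) ↦ exp t * a` is compact, contained in `Φ₀`, and
different from `Φ₀`: a point of `Φ₀` with the smallest norm (`Φ₀` is compact and nonempty, the empty
set has a logarithm) is not in `Φ₁`, because `exp t' * b ∈ Φ₀` has norm `exp t' < exp t`. So `Φ₁` has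
a logarithm `l₁`, and `l₁ (exp t * a) - t` is a continuous logarithm of `a` on `M₁`. In the same way
`M₂` has one (a point of `Φ₀` with the largest norm is missing). Together they give a continuous
logarithm of `a` on `M = M₁ ∪ M₂` (disjoint closed sets), a contradiction to (3).
-/

namespace Pool.Agent.H29.Sp

open Complex

private theorem coe_cont : Continuous fun a : Circle => (a : ℂ) := continuous_subtype_val

private noncomputable def ee (p : unitInterval × Circle) : ℂ :=
  (Real.exp (p.1 : ℝ) : ℂ) * (p.2 : ℂ)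

private theorem ee_cont : Continuous ee := by
  unfold ee
  apply Continuous.mul
  · exact continuous_ofReal.comp (Real.continuous_exp.comp (by fun_prop))
  · exact coe_cont.comp continuous_snd

private theorem norm_ee (p : unitInterval × Circle) : ‖ee p‖ = Real.exp (p.1 : ℝ) := by
  unfold ee
  rw [norm_mul, Circle.norm_coe, mul_one, Complex.norm_real, Real.norm_of_nonneg (Real.exp_pos _).le]

private theorem ee_inj : Function.Injective ee := by
  intro p q hpq
  have h1 : Real.exp (p.1 : ℝ) = Real.exp (q.1 : ℝ) := by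
    rw [← norm_ee, ← norm_ee, hpq]
  have h2 : p.1 = q.1 := Subtype.ext (Real.exp_injective h1)
  have h3 : (Real.exp (p.1 : ℝ) : ℂ) ≠ 0 := by
    exact_mod_cast (Real.exp_pos _).ne'
  have h4 : p.2 = q.2 := by
    apply Circle.ext
    apply mul_left_cancel₀ h3
    have : ee p = ee q := hpq
    unfold ee at this
    rw [this, h2]
  exact Prod.ext h2 h4

private theorem exp_sub_ee (w : ℂ) (p : unitInterval × Circle) (h : exp w = ee p) :
    exp (w - ((p.1 : ℝ) : ℂ)) = (p.2 : ℂ) := by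
  have h3 : (Real.exp (p.1 : ℝ) : ℂ) ≠ 0 := by
    exact_mod_cast (Real.exp_pos _).ne'
  rw [exp_sub, h, ← ofReal_exp]
  unfold ee
  rw [mul_comm, mul_div_assoc, div_self h3, mul_one]

private theorem no_log_circle (m : Circle → ℂ) (hm : Continuous m) : ¬ ∀ a, exp (m a) = (a : ℂ) := by
  intro he
  apply not_hasLog_sphere 1 one_pos
  have key : ∀ z ∈ Metric.sphere (0 : ℂ) 1, ((Circle.exp (arg z) : Circle) : ℂ) = z := by
    intro z hz
    rw [mem_sphere_zero_iff_norm] at hz
    rw [Circle.coe_exp]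
    have := norm_mul_exp_arg_mul_I z
    rwa [hz, ofReal_one, one_mul] at this
  refine ⟨fun z => m (Circle.exp (arg z)), ?_, ?_⟩
  · rw [continuousOn_iff_continuous_domRestrict]
    have : Continuous fun z : Metric.sphere (0 : ℂ) 1 => Circle.exp (arg (z : ℂ)) := by
      refine continuous_induced_rng.mpr ?_
      show Continuous fun z : Metric.sphere (0 : ℂ) 1 => ((Circle.exp (arg (z : ℂ)) : Circle) : ℂ)
      have h1 : (fun z : Metric.sphere (0 : ℂ) 1 => ((Circle.exp (arg (z : ℂ)) : Circle) : ℂ))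
          = fun z : Metric.sphere (0 : ℂ) 1 => (z : ℂ) := by
        funext z
        exact key z z.2
      rw [h1]
      exact continuous_subtype_val
    exact hm.comp this
  · intro z hz
    show exp (m (Circle.exp (arg z))) = z
    rw [he, key z hz]

/-- the two halves of the fibre product -/
private theorem half {Q : Type*} [TopologicalSpace Q] [CompactSpace Q] (p p' : Q → unitInterval × Circle)
    (hp : Continuous p) (Φ₀ : Set ℂ) (hΦ : IsCompact Φ₀)
    (hmin : ∀ K₁ : Set ℂ, K₁ ⊆ Φ₀ → IsClosed K₁ → K₁ ≠ Φ₀ → HasLog K₁) (M : Set Q)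
    (hM : IsClosed M) (h1 : ∀ q ∈ M, ee (p q) ∈ Φ₀) (h2 : ∀ q ∈ M, ee (p' q) ∈ Φ₀)
    (hlt : (∀ q ∈ M, (p' q).1 < (p q).1) ∨ (∀ q ∈ M, (p q).1 < (p' q).1)) :
    ∃ l : Q → ℂ, ContinuousOn l M ∧ ∀ q ∈ M, exp (l q) = ((p q).2 : ℂ) := by
  rcases M.eq_empty_or_nonempty with hMe | hMn
  · rw [hMe]
    exact ⟨fun _ => 0, continuousOn_empty _, by simp⟩
  have hsub : (fun q => ee (p q)) '' M ⊆ Φ₀ := by
    rintro _ ⟨q, hq, rfl⟩
    exact h1 q hq
  have hcomp : IsCompact ((fun q => ee (p q)) '' M) := by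
    apply hM.isCompact.image
    exact ee_cont.comp hp
  have hneq : (fun q => ee (p q)) '' M ≠ Φ₀ := by
    intro heq
    have hne : Φ₀.Nonempty := by
      rw [← heq]
      exact hMn.image _
    rcases hlt with hlt | hlt
    · obtain ⟨z, hz, hzmin⟩ := hΦ.exists_isMinOn hne continuous_norm.continuousOn
      rw [← heq] at hz
      obtain ⟨q, hq, rfl⟩ := hz
      have h3 := hzmin (h2 q hq)
      simp only [Set.mem_ofPred_eq, norm_ee] at h3
      have h4 := Real.exp_lt_exp.mpr (hlt q hq : ((p' q).1 : ℝ) < (p q).1)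
      linarith
    · obtain ⟨z, hz, hzmax⟩ := hΦ.exists_isMaxOn hne continuous_norm.continuousOn
      rw [← heq] at hz
      obtain ⟨q, hq, rfl⟩ := hz
      have h3 := hzmax (h2 q hq)
      simp only [Set.mem_ofPred_eq, norm_ee] at h3
      have h4 := Real.exp_lt_exp.mpr (hlt q hq : ((p q).1 : ℝ) < (p' q).1)
      linarith
  obtain ⟨l, hl, hle⟩ := hmin _ hsub hcomp.isClosed hneq
  refine ⟨fun q => l (ee (p q)) - (((p q).1 : ℝ) : ℂ), ?_, ?_⟩
  · apply ContinuousOn.sub
    · apply hl.comp (ee_cont.comp hp).continuousOn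
      intro q hq
      exact ⟨q, hq, rfl⟩
    · apply Continuous.continuousOn
      exact continuous_ofReal.comp (continuous_subtype_val.comp (continuous_fst.comp hp))
  · intro q hq
    exact exp_sub_ee _ _ (hle _ ⟨q, hq, rfl⟩)

theorem cyl_ess (φ : unitInterval × Circle → ℝ) (hφ : Continuous φ) (h0 : ∀ a, φ (0, a) < 0)
    (h1 : ∀ a, 0 < φ (1, a)) (K : Set (Circle × Circle)) (hK : IsCompact K)
    (hne : ∀ p ∈ K, ∀ t, ¬ (φ (t, p.1) = 0 ∧ φ (t, p.2) = 0)) :
    ∃ m : Circle × Circle → ℂ, ContinuousOn m K ∧ ∀ p ∈ K, exp (m p) = (p.1 : ℂ) := by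
  classical
  set Φ : Set ℂ := ee '' {p | φ p = 0} with hΦdef
  have hΦc : IsCompact Φ := by
    apply IsCompact.image _ ee_cont
    exact (isClosed_eq hφ continuous_const).isCompact
  have hΦz : ∀ p, ee p ∈ Φ → φ p = 0 := by
    rintro p ⟨q, hq, hqp⟩
    rw [← ee_inj hqp]
    exact hq
  have hΦ1 : ∀ z ∈ Φ, 1 < ‖z‖ ∧ ‖z‖ < Real.exp 1 := by
    rintro _ ⟨⟨t, a⟩, hta, rfl⟩
    have hta' : φ (t, a) = 0 := hta
    rw [norm_ee]
    have ht0 : t ≠ 0 := by
      rintro rfl
      exact (h0 a).ne hta'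
    have ht1 : t ≠ 1 := by
      rintro rfl
      exact (h1 a).ne' hta'
    have ht0' : (0 : ℝ) < t := unitInterval.pos_iff_ne_zero.mpr ht0
    have ht1' : (t : ℝ) < 1 := unitInterval.lt_one_iff_ne_one.mpr ht1
    exact ⟨Real.one_lt_exp_iff.mpr ht0', Real.exp_lt_exp.mpr ht1'⟩
  have hΦ0 : (0 : ℂ) ∉ Φ := by
    intro h
    have := (hΦ1 0 h).1
    rw [norm_zero] at this
    linarith
  have hΦl : ¬ HasLog Φ := by
    rintro ⟨l, hl, hle⟩
    obtain ⟨m, hm, hme⟩ := cyl_log (Y := Circle) (fun a => (a : ℂ)) coe_cont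
      (fun a => a.coe_ne_zero) φ hφ h0 h1 (fun p => l (ee p) - ((p.1 : ℝ) : ℂ)) (by
        apply ContinuousOn.sub
        · apply hl.comp ee_cont.continuousOn
          intro p hp
          exact ⟨p, hp, rfl⟩
        · apply Continuous.continuousOn
          exact continuous_ofReal.comp (by fun_prop)) (by
        intro p hp
        exact exp_sub_ee _ _ (hle _ ⟨p, hp, rfl⟩))
    exact no_log_circle m hm hme
  obtain ⟨Φ₀, hsub, hc₀, hl₀, hmin⟩ := exists_minimal Φ hΦc hΦ0 hΦl
  obtain ⟨h, hh, hh0, hh1, hhz⟩ := exists_sep_fn Φ₀ hc₀ (fun z hz => hΦ1 z (hsub hz)) hl₀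
  have : CompactSpace K := isCompact_iff_compactSpace.mp hK
  set Y₂ : Set (unitInterval × K) := {p | h (p.1, p.2.1.1) = 0} with hY₂
  have hY₂c : IsClosed Y₂ := isClosed_eq (hh.comp (by fun_prop)) continuous_const
  have : CompactSpace Y₂ := isCompact_iff_compactSpace.mp hY₂c.isCompact
  -- the fibre product
  set p : unitInterval × Y₂ → unitInterval × Circle := fun q => (q.2.1.1, q.2.1.2.1.1) with hp
  set p' : unitInterval × Y₂ → unitInterval × Circle := fun q => (q.1, q.2.1.2.1.2) with hp'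
  have hpc : Continuous p := by fun_prop
  have hp'c : Continuous p' := by fun_prop
  set M : Set (unitInterval × Y₂) := {q | h (p' q) = 0} with hM
  have hMc : IsClosed M := isClosed_eq (hh.comp hp'c) continuous_const
  have hpΦ : ∀ q : unitInterval × Y₂, ee (p q) ∈ Φ₀ := fun q => (hhz _ _).mp q.2.2
  have hp'Φ : ∀ q ∈ M, ee (p' q) ∈ Φ₀ := fun q hq => (hhz _ _).mp hq
  have hneM : ∀ q ∈ M, (p q).1 ≠ (p' q).1 := by
    intro q hq heq
    have e1 : φ (p q) = 0 := hΦz _ (hsub (hpΦ q))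
    have e2 : φ (p' q) = 0 := hΦz _ (hsub (hp'Φ q hq))
    apply hne q.2.1.2.1 q.2.1.2.2 (p q).1
    refine ⟨e1, ?_⟩
    rw [heq]
    exact e2
  have hC1 : IsClosed (M ∩ {q | (p' q).1 ≤ (p q).1}) :=
    hMc.inter (isClosed_le (continuous_fst.comp hp'c) (continuous_fst.comp hpc))
  have hC2 : IsClosed (M ∩ {q | (p q).1 ≤ (p' q).1}) :=
    hMc.inter (isClosed_le (continuous_fst.comp hpc) (continuous_fst.comp hp'c))
  obtain ⟨l₁, hl₁, hl₁e⟩ := half p p' hpc Φ₀ hc₀ hmin (M ∩ {q | (p' q).1 ≤ (p q).1}) hC1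
    (fun q _ => hpΦ q) (fun q hq => hp'Φ q hq.1)
    (Or.inl fun q hq => lt_of_le_of_ne hq.2 (hneM q hq.1).symm)
  obtain ⟨l₂, hl₂, hl₂e⟩ := half p p' hpc Φ₀ hc₀ hmin (M ∩ {q | (p q).1 ≤ (p' q).1}) hC2
    (fun q _ => hpΦ q) (fun q hq => hp'Φ q hq.1)
    (Or.inr fun q hq => lt_of_le_of_ne hq.2 (hneM q hq.1))
  have hMu : M = (M ∩ {q | (p' q).1 ≤ (p q).1}) ∪ (M ∩ {q | (p q).1 ≤ (p' q).1}) := by
    rw [← Set.inter_union_distrib_left]
    apply Set.ext
    intro q
    constructor
    · intro hq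
      refine ⟨hq, ?_⟩
      rcases le_total (p' q).1 (p q).1 with hle | hle
      · exact Or.inl hle
      · exact Or.inr hle
    · intro hq
      exact hq.1
  obtain ⟨m₂, hm₂, hm₂e⟩ := cyl_log (Y := Y₂) (fun y => (y.1.2.1.1 : ℂ))
    (coe_cont.comp (by fun_prop : Continuous fun y : Y₂ => y.1.2.1.1))
    (fun y => Circle.coe_ne_zero _) (fun q => h (p' q)) (hh.comp hp'c)
    (fun y => hh0 _) (fun y => hh1 _)
    (fun q => if (p' q).1 ≤ (p q).1 then l₁ q else l₂ q) (by
      show ContinuousOn _ M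
      rw [hMu]
      apply ContinuousOn.union_of_isClosed _ _ hC1 hC2
      · apply hl₁.congr
        intro q hq
        exact if_pos hq.2
      · apply hl₂.congr
        intro q hq
        exact if_neg (not_le.mpr (lt_of_le_of_ne hq.2 (hneM q hq.1)))) (by
      intro q hq
      show exp (if (p' q).1 ≤ (p q).1 then l₁ q else l₂ q) = ((p q).2 : ℂ)
      split_ifs with hle
      · exact hl₁e q ⟨hq, hle⟩
      · exact hl₂e q ⟨hq, (not_le.mp hle).le⟩)
  obtain ⟨m, hm, hme⟩ := cyl_log (Y := K) (fun y => (y.1.1 : ℂ))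
    (coe_cont.comp (by fun_prop : Continuous fun y : K => y.1.1))
    (fun y => Circle.coe_ne_zero _) (fun q => h (q.1, q.2.1.1)) (hh.comp (by fun_prop))
    (fun y => hh0 _) (fun y => hh1 _)
    (fun q => if hq : h (q.1, q.2.1.1) = 0 then m₂ ⟨q, hq⟩ else 0) (by
      show ContinuousOn _ Y₂
      rw [continuousOn_iff_continuous_domRestrict]
      have : Y₂.domRestrict (fun q => if hq : h (q.1, q.2.1.1) = 0 then m₂ ⟨q, hq⟩ else 0)
          = m₂ := by
        funext y
        exact dif_pos y.2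
      rw [this]
      exact hm₂) (by
      intro q hq
      show exp (if hq : h (q.1, q.2.1.1) = 0 then m₂ ⟨q, hq⟩ else 0) = (q.2.1.1 : ℂ)
      rw [dif_pos hq]
      exact hm₂e ⟨q, hq⟩)
  refine ⟨fun p => if hp : p ∈ K then m ⟨p, hp⟩ else 0, ?_, ?_⟩
  · rw [continuousOn_iff_continuous_domRestrict]
    have : K.domRestrict (fun p => if hp : p ∈ K then m ⟨p, hp⟩ else 0) = m := by
      funext y
      show (if hp : (y : Circle × Circle) ∈ K then m ⟨y, hp⟩ else 0) = m y
      rw [dif_pos y.2]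
    rw [this]
    exact hm
  · intro p hp
    show exp (if hp : p ∈ K then m ⟨p, hp⟩ else 0) = (p.1 : ℂ)
    rw [dif_pos hp]
    exact hme ⟨p, hp⟩

end Pool.Agent.H29.Sp
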