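import Pool.Agent.H29.Sp.Comp

set_option autoImplicit false

/-!
# The far set of a curve without essential far continua

* `continuousOn_pA`, `continuousOn_pB`: `pA g` and `pB g` are continuous on `{z | z ≠ 0}`.
  Proof: `Circle.exp (arg z)` is the point `z / ‖z‖` of the circle, a continuous function of
  `z ≠ 0` (`Circle.exp (arg z + b) = Circle.exp (arg z) * Circle.exp b`, `Circle.exp_add`).
* `isCompact_farSet`: closed and bounded.
* `farSet_open_annulus`: if `0 < r`, then `1 < ‖z‖ < e` on the far set: for `‖z‖ = 1` the logarithm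
  is `0` and `pA = pB`, for `‖z‖ = e` it is `1` and again `pA = pB`, so the distance is `0`.
* `hasLog_of_iness`: let `Iness g r`, and let `K ⊆ farSet g r` be compact and preconnected. Then
  `HasLog K`. Proof. If `K = ∅` any function works. Let `Z` be the image of `K` under
  `z ↦ (pA g z, pB g z)`: connected, compact (`0 ∉ K`), in `range g ×ˢ range g`, and
  `r ≤ dist p.1 p.2` on it. So there is `θ`, continuous on `Z`, with `p.1 = g (Circle.exp (θ p))`. For
  `z ∈ K` we get `g (Circle.exp (arg z)) = g (Circle.exp (θ (pA g z, pB g z)))`, so, `g` being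
  injective, `Circle.exp (arg z) = Circle.exp (θ (pA g z, pB g z))`, and
  `l z = Real.log ‖z‖ + I * θ (pA g z, pB g z)` is a continuous logarithm of `z` on `K`.
-/

namespace Pool.Agent.H29.Sp

open Complex

private theorem ca_cont : ContinuousOn (fun z : ℂ => Circle.exp (arg z)) {z : ℂ | z ≠ 0} := by
  rw [continuousOn_iff_continuous_domRestrict]
  refine continuous_induced_rng.mpr ?_
  show Continuous fun z : {z : ℂ | z ≠ 0} => ((Circle.exp (arg (z : ℂ)) : Circle) : ℂ)
  have : (fun z : {z : ℂ | z ≠ 0} => ((Circle.exp (arg (z : ℂ)) : Circle) : ℂ))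
      = fun z : {z : ℂ | z ≠ 0} => (z : ℂ) / (‖(z : ℂ)‖ : ℂ) := by
    funext z
    have h1 : (‖(z : ℂ)‖ : ℂ) ≠ 0 := by
      exact_mod_cast norm_ne_zero_iff.mpr z.2
    rw [Circle.coe_exp, eq_div_iff h1, mul_comm]
    exact norm_mul_exp_arg_mul_I (z : ℂ)
  rw [this]
  apply Continuous.div
  · exact continuous_subtype_val
  · exact continuous_ofReal.comp (continuous_norm.comp continuous_subtype_val)
  · intro z
    exact_mod_cast norm_ne_zero_iff.mpr z.2

theorem continuousOn_pA (g : Circle → ℂ) (hg : Continuous g) :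
    ContinuousOn (pA g) {z : ℂ | z ≠ 0} := by
  exact hg.comp_continuousOn ca_cont

theorem continuousOn_pB (g : Circle → ℂ) (hg : Continuous g) :
    ContinuousOn (pB g) {z : ℂ | z ≠ 0} := by
  have e : pB g = fun z => g (Circle.exp (arg z) * Circle.exp (2 * Real.pi * Real.log ‖z‖)) := by
    funext z
    unfold pB
    rw [Circle.exp_add]
  rw [e]
  apply hg.comp_continuousOn
  apply ca_cont.mul
  apply (map_continuous Circle.exp).comp_continuousOn
  apply continuousOn_const.mul
  apply ContinuousOn.log continuous_norm.continuousOn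
  intro z hz
  exact norm_ne_zero_iff.mpr hz

theorem isCompact_farSet (g : Circle → ℂ) (hg : Continuous g) (r : ℝ) :
    IsCompact (farSet g r) := by
  have hann : IsCompact {z : ℂ | 1 ≤ ‖z‖ ∧ ‖z‖ ≤ Real.exp 1} := by
    have h1 : {z : ℂ | 1 ≤ ‖z‖ ∧ ‖z‖ ≤ Real.exp 1}
        = {z : ℂ | 1 ≤ ‖z‖} ∩ Metric.closedBall 0 (Real.exp 1) := by
      apply Set.ext
      intro z
      simp
    rw [h1]
    exact (isCompact_closedBall _ _).inter_left (isClosed_le continuous_const continuous_norm)
  have hne : ∀ z ∈ {z : ℂ | 1 ≤ ‖z‖ ∧ ‖z‖ ≤ Real.exp 1}, z ≠ 0 := by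
    intro z hz h
    have := hz.1
    rw [h, norm_zero] at this
    linarith
  have hcont : ContinuousOn (fun z => dist (pA g z) (pB g z))
      {z : ℂ | 1 ≤ ‖z‖ ∧ ‖z‖ ≤ Real.exp 1} := by
    exact continuous_dist.comp_continuousOn
      (((continuousOn_pA g hg).mono hne).prodMk ((continuousOn_pB g hg).mono hne))
  have h2 : farSet g r = {z : ℂ | 1 ≤ ‖z‖ ∧ ‖z‖ ≤ Real.exp 1} ∩
      (fun z => dist (pA g z) (pB g z)) ⁻¹' (Set.Ici r) := by
    apply Set.ext
    intro z
    constructor
    · rintro ⟨h1, h2, h3⟩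
      exact ⟨⟨h1, h2⟩, h3⟩
    · rintro ⟨⟨h1, h2⟩, h3⟩
      exact ⟨h1, h2, h3⟩
  rw [h2]
  exact hann.of_isClosed_subset (hcont.preimage_isClosed_of_isClosed hann.isClosed isClosed_Ici)
    Set.inter_subset_left

theorem farSet_open_annulus (g : Circle → ℂ) {r : ℝ} (hr : 0 < r) :
    ∀ z ∈ farSet g r, 1 < ‖z‖ ∧ ‖z‖ < Real.exp 1 := by
  rintro z ⟨h1, h2, h3⟩
  constructor
  · apply lt_of_le_of_ne h1
    intro h
    have e : pB g z = pA g z := by
      unfold pB pA
      rw [← h, Real.log_one, mul_zero, add_zero]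
    rw [e, dist_self] at h3
    linarith
  · apply lt_of_le_of_ne h2
    intro h
    have e : pB g z = pA g z := by
      unfold pB pA
      rw [h, Real.log_exp, mul_one, Circle.exp_add, Circle.exp_two_pi, mul_one]
    rw [e, dist_self] at h3
    linarith

theorem hasLog_of_iness (g : Circle → ℂ) (hg : Continuous g) (hi : Function.Injective g) {r : ℝ}
    (hr : Iness g r) (K : Set ℂ) (hK : K ⊆ farSet g r) (hc : IsCompact K)
    (hp : IsPreconnected K) : HasLog K := by
  rcases K.eq_empty_or_nonempty with hKe | hKn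
  · rw [hKe]
    exact ⟨fun _ => 0, continuousOn_empty _, by simp⟩
  have hne : ∀ z ∈ K, z ≠ 0 := by
    intro z hz h
    have := (hK hz).1
    rw [h, norm_zero] at this
    linarith
  have hcont : ContinuousOn (fun z => (pA g z, pB g z)) K :=
    ((continuousOn_pA g hg).mono hne).prodMk ((continuousOn_pB g hg).mono hne)
  obtain ⟨θ, hθ, hθe⟩ := hr ((fun z => (pA g z, pB g z)) '' K) (by
    rintro _ ⟨z, _, rfl⟩
    exact ⟨⟨_, rfl⟩, ⟨_, rfl⟩⟩) ⟨hKn.image _, hp.image _ hcont⟩ (hc.image_of_continuousOn hcont) (by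
    rintro _ ⟨z, hz, rfl⟩
    exact (hK hz).2.2)
  refine ⟨fun z => (Real.log ‖z‖ : ℂ) + I * (θ (pA g z, pB g z) : ℂ), ?_, ?_⟩
  · apply ContinuousOn.add
    · apply continuous_ofReal.comp_continuousOn
      apply ContinuousOn.log continuous_norm.continuousOn
      intro z hz
      exact norm_ne_zero_iff.mpr (hne z hz)
    · apply continuousOn_const.mul
      apply continuous_ofReal.comp_continuousOn
      exact hθ.comp hcont (fun z hz => ⟨z, hz, rfl⟩)
  · intro z hz
    show exp ((Real.log ‖z‖ : ℂ) + I * (θ (pA g z, pB g z) : ℂ)) = z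
    have h1 : g (Circle.exp (arg z)) = g (Circle.exp (θ (pA g z, pB g z))) :=
      hθe _ ⟨z, hz, rfl⟩
    have h2 := congrArg (fun w : Circle => (w : ℂ)) (hi h1)
    simp only [Circle.coe_exp] at h2
    have hpos : 0 < ‖z‖ := norm_pos_iff.mpr (hne z hz)
    rw [exp_add, mul_comm I, ← h2, ← ofReal_exp, Real.exp_log hpos]
    exact norm_mul_exp_arg_mul_I z

end Pool.Agent.H29.Sp
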