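import Pool.Agent.H29.Sp.Defs

set_option autoImplicit false

/-!
# Isometric transfer

All statements are transported by an isometry `e : E ≃ᵢ F`; the map on pairs is
`Prod.map e e` (a homeomorphism).
* `spanSet_image`: image of `Z` under `Prod.map e e`, and back with `e.symm`; so the spans agree.
* `inner_image`: `(e '' J)ᶜ = e '' Jᶜ`, a homeomorphism carries `connectedComponentIn` to
  `connectedComponentIn` (`Homeomorph.image_connectedComponentIn`), and an isometry carries bounded
  sets to bounded sets and back.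
* `essSet_comp`: `Z ↦ Prod.map e e '' Z`, and back with `e.symm`; for the angle compose `θ` with
  `Prod.map e e` or its inverse (`p.1 = g (Circle.exp (θ p))` becomes
  `e p.1 = e (g (Circle.exp (θ p)))`).
* `gap_image`: an isometry preserves `dist`, and `infDist (e x) (e '' J) = infDist x J`
  (`Metric.infDist_image`).
-/

namespace Pool.Agent.H29.Sp

private theorem symm_im_im {E F : Type*} [PseudoMetricSpace E] [PseudoMetricSpace F]
    (e : E ≃ᵢ F) (S : Set E) : e.symm '' (e '' S) = S := by
  rw [← Set.image_comp]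
  have : (e.symm ∘ e : E → E) = id := by
    funext a
    simp
  rw [this, Set.image_id]

private theorem spanSet_image_aux {E F : Type*} [PseudoMetricSpace E] [PseudoMetricSpace F]
    (e : E ≃ᵢ F) (X : Set E) : spanSet X ⊆ spanSet (e '' X) := by
  rintro r ⟨Z, hZX, hc, hk, hfs, hd⟩
  have hcont : Continuous (Prod.map e e) := e.continuous.prodMap e.continuous
  refine ⟨Prod.map e e '' Z, ?_, hc.image _ hcont.continuousOn, hk.image hcont, ?_, ?_⟩
  · rintro _ ⟨p, hp, rfl⟩
    exact ⟨⟨p.1, (hZX hp).1, rfl⟩, ⟨p.2, (hZX hp).2, rfl⟩⟩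
  · rw [← Set.image_comp, ← Set.image_comp]
    have h1 : (Prod.fst ∘ Prod.map e e : E × E → F) = e ∘ Prod.fst := rfl
    have h2 : (Prod.snd ∘ Prod.map e e : E × E → F) = e ∘ Prod.snd := rfl
    rw [h1, h2, Set.image_comp, Set.image_comp, hfs]
  · rintro _ ⟨p, hp, rfl⟩
    simp only [Prod.map_fst, Prod.map_snd, e.dist_eq]
    exact hd p hp

theorem spanSet_image {E F : Type*} [PseudoMetricSpace E] [PseudoMetricSpace F] (e : E ≃ᵢ F)
    (X : Set E) : spanSet (e '' X) = spanSet X := by
  refine Set.Subset.antisymm ?_ (spanSet_image_aux e X)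
  have h := spanSet_image_aux e.symm (e '' X)
  rwa [symm_im_im e] at h

theorem span_image {E F : Type*} [PseudoMetricSpace E] [PseudoMetricSpace F] (e : E ≃ᵢ F)
    (X : Set E) : span (e '' X) = span X := by
  rw [span, span, spanSet_image]

theorem inner_image {E F : Type*} [PseudoMetricSpace E] [PseudoMetricSpace F] (e : E ≃ᵢ F)
    (J : Set E) : inner (e '' J) = e '' inner J := by
  have hcompl : (e '' J)ᶜ = e.toHomeomorph '' Jᶜ := by
    rw [Set.image_compl_eq e.toHomeomorph.bijective]
    rfl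
  ext y
  obtain ⟨x, rfl⟩ := e.surjective y
  have hmem : ∀ S : Set E, e x ∈ e '' S ↔ x ∈ S := fun S => e.injective.mem_set_image
  rw [hmem]
  have key : x ∉ J → (Bornology.IsBounded (connectedComponentIn (e '' J)ᶜ (e x)) ↔
      Bornology.IsBounded (connectedComponentIn Jᶜ x)) := by
    intro hx
    have h1 := e.toHomeomorph.image_connectedComponentIn (s := Jᶜ) (x := x) hx
    rw [hcompl]
    have h2 : connectedComponentIn (e.toHomeomorph '' Jᶜ) (e x) =
        e '' connectedComponentIn Jᶜ x := h1.symm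
    rw [h2]
    constructor
    · intro h
      have h3 := e.symm.isometry.lipschitz.isBounded_image h
      rwa [symm_im_im e] at h3
    · intro h
      exact e.isometry.lipschitz.isBounded_image h
  constructor
  · rintro ⟨h1, h2⟩
    have hx : x ∉ J := fun h => h1 ((hmem J).2 h)
    exact ⟨hx, (key hx).1 h2⟩
  · rintro ⟨h1, h2⟩
    exact ⟨fun h => h1 ((hmem J).1 h), (key h1).2 h2⟩

private theorem essSet_comp_aux {E F : Type*} [PseudoMetricSpace E] [PseudoMetricSpace F]
    (e : E ≃ᵢ F) (g : Circle → E) : essSet g ⊆ essSet (e ∘ g) := by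
  rintro r ⟨Z, hZX, hc, hk, hess, hd⟩
  have hcont : Continuous (Prod.map e e) := e.continuous.prodMap e.continuous
  refine ⟨Prod.map e e '' Z, ?_, hc.image _ hcont.continuousOn, hk.image hcont, ?_, ?_⟩
  · rintro _ ⟨p, hp, rfl⟩
    rw [Set.range_comp]
    exact ⟨⟨p.1, (hZX hp).1, rfl⟩, ⟨p.2, (hZX hp).2, rfl⟩⟩
  · rintro ⟨θ, hθ, he⟩
    refine hess ⟨fun p => θ (Prod.map e e p), ?_, ?_⟩
    · exact hθ.comp hcont.continuousOn (fun p hp => ⟨p, hp, rfl⟩)
    · intro p hp
      exact e.injective (he _ ⟨p, hp, rfl⟩)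
  · rintro _ ⟨p, hp, rfl⟩
    simp only [Prod.map_fst, Prod.map_snd, e.dist_eq]
    exact hd p hp

theorem essSet_comp {E F : Type*} [PseudoMetricSpace E] [PseudoMetricSpace F] (e : E ≃ᵢ F)
    (g : Circle → E) : essSet (e ∘ g) = essSet g := by
  refine Set.Subset.antisymm ?_ (essSet_comp_aux e g)
  have h := essSet_comp_aux e.symm (e ∘ g)
  have h2 : e.symm ∘ (e ∘ g) = g := by
    funext a
    simp
  rwa [h2] at h

theorem ess_comp {E F : Type*} [PseudoMetricSpace E] [PseudoMetricSpace F] (e : E ≃ᵢ F)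
    (g : Circle → E) : ess (e ∘ g) = ess g := by
  rw [ess, ess, essSet_comp]

theorem gap_image {E F : Type*} [PseudoMetricSpace E] [PseudoMetricSpace F] (e : E ≃ᵢ F)
    (J : Set E) (x y : E) : gap (e '' J) (e x, e y) = gap J (x, y) := by
  simp only [gap, e.dist_eq, Metric.infDist_image e.isometry]

end Pool.Agent.H29.Sp
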