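import Pool.Agent.H29.Sp.Sup
import Pool.Agent.H29.Sp.Transfer

set_option autoImplicit false

/-!
# The statements in `EuclideanSpace ℝ (Fin 2)`

Proof. Let `e : EuclideanSpace ℝ (Fin 2) ≃ᵢ ℂ` be the inverse of
`Complex.orthonormalBasisOneI.repr.toIsometryEquiv`. Put `g = e ∘ j` and `k = e ∘ h`: continuous and
injective, `range g = e '' range j`, `range k = e '' range h` (`Set.range_comp`), so by `Transfer`
`inner (range g) = e '' inner (range j)`, `ess g = ess j`, `ess k = ess h`,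
`span (range k) = span (range h)`, `gap (range g) (e x, e y) = gap (range j) (x, y)`,
`infDist (e x) (range g) = infDist x (range j)`. Sets of pairs are transported by `Prod.map e e`
(images of preconnected sets under continuous maps are preconnected).
* `fin_A` from `sup_A`, `fin_I` from `involution`, `fin_E` from `sup_E`, `fin_B` from `sup_B`,
  `fin_B'` from `sup_B'`, `fin_le` from `ess_le_span`.
-/

namespace Pool.Agent.H29.Sp

/-- The plane. -/
abbrev Pl := EuclideanSpace ℝ (Fin 2)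

private noncomputable def eC : Pl ≃ᵢ ℂ :=
  Complex.orthonormalBasisOneI.repr.toIsometryEquiv.symm

private theorem cont_comp {j : Circle → Pl} (hj : Continuous j) : Continuous (eC ∘ j) :=
  eC.continuous.comp hj

private theorem inj_comp {j : Circle → Pl} (hj : Function.Injective j) :
    Function.Injective (eC ∘ j) := eC.injective.comp hj

private theorem inner_comp (j : Circle → Pl) :
    inner (Set.range (eC ∘ j)) = eC '' inner (Set.range j) := by
  rw [Set.range_comp, inner_image]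

private theorem ess_comp' (j : Circle → Pl) : ess (eC ∘ j) = ess j := ess_comp eC j

private theorem span_comp (j : Circle → Pl) :
    span (Set.range (eC ∘ j)) = span (Set.range j) := by
  rw [Set.range_comp, span_image]

private theorem gap_comp (j : Circle → Pl) (x y : Pl) :
    gap (Set.range (eC ∘ j)) (eC x, eC y) = gap (Set.range j) (x, y) := by
  rw [Set.range_comp, gap_image]

private theorem infDist_comp (j : Circle → Pl) (x : Pl) :
    Metric.infDist (eC x) (Set.range (eC ∘ j)) = Metric.infDist x (Set.range j) := by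
  rw [Set.range_comp, Metric.infDist_image eC.isometry]

private theorem sub_comp {j h : Circle → Pl} (hin : Set.range h ⊆ inner (Set.range j)) :
    Set.range (eC ∘ h) ⊆ inner (Set.range (eC ∘ j)) := by
  rw [inner_comp, Set.range_comp]
  exact Set.image_mono hin

private theorem infDist_le {j h : Circle → Pl} {D : ℝ}
    (hD : ∀ x ∈ Set.range h, D ≤ Metric.infDist x (Set.range j)) :
    ∀ x ∈ Set.range (eC ∘ h), D ≤ Metric.infDist x (Set.range (eC ∘ j)) := by
  rintro _ ⟨a, rfl⟩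
  show D ≤ Metric.infDist (eC (h a)) (Set.range (eC ∘ j))
  rw [infDist_comp]
  exact hD _ ⟨a, rfl⟩

theorem fin_le (j : Circle → Pl) (hj : Continuous j) (hji : Function.Injective j) :
    ess j ≤ span (Set.range j) := by
  rw [← ess_comp', ← span_comp]
  exact ess_le_span _ (cont_comp hj) (inj_comp hji)

theorem fin_A (j : Circle → Pl) (hj : Continuous j) (hji : Function.Injective j)
    (Z : Set (Pl × Pl)) (hZ : IsPreconnected Z)
    (hX : Z ⊆ inner (Set.range j) ×ˢ inner (Set.range j)) (r : ℝ)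
    (hfar : ∀ p ∈ Z, r ≤ gap (Set.range j) p) (x y : Pl) (hxy : (x, y) ∈ Z) (hyx : (y, x) ∈ Z) :
    r ≤ ess j := by
  rw [← ess_comp']
  refine sup_A _ (cont_comp hj) (inj_comp hji) (Prod.map eC eC '' Z)
    (hZ.image _ (eC.continuous.prodMap eC.continuous).continuousOn) ?_ r ?_ (eC x) (eC y)
    ⟨_, hxy, rfl⟩ ⟨_, hyx, rfl⟩
  · rintro _ ⟨p, hp, rfl⟩
    rw [inner_comp]
    exact ⟨⟨p.1, (hX hp).1, rfl⟩, ⟨p.2, (hX hp).2, rfl⟩⟩
  · rintro _ ⟨p, hp, rfl⟩
    show r ≤ gap (Set.range (eC ∘ j)) (eC p.1, eC p.2)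
    rw [gap_comp]
    exact hfar p hp

theorem fin_I (j : Circle → Pl) (hj : Continuous j) (hji : Function.Injective j)
    (h : Circle → Pl) (hh : Continuous h) (hin : Set.range h ⊆ inner (Set.range j))
    (σ : Circle → Circle) (hσ : Continuous σ) (hσσ : ∀ a, σ (σ a) = a) :
    ∃ a, gap (Set.range j) (h a, h (σ a)) ≤ ess j := by
  obtain ⟨a, ha⟩ := involution _ (cont_comp hj) (inj_comp hji) _ (cont_comp hh) (sub_comp hin)
    σ hσ hσσ
  refine ⟨a, ?_⟩
  rw [ess_comp'] at ha
  have h1 := gap_comp j (h a) (h (σ a))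
  rw [← h1]
  exact ha

theorem fin_E (j : Circle → Pl) (hj : Continuous j) (hji : Function.Injective j)
    (h : Circle → Pl) (hh : Continuous h) (hhi : Function.Injective h)
    (hin : Set.range h ⊆ inner (Set.range j)) (D : ℝ)
    (hD : ∀ x ∈ Set.range h, D ≤ Metric.infDist x (Set.range j)) :
    ess h + 2 * D ≤ ess j := by
  have := sup_E _ (cont_comp hj) (inj_comp hji) _ (cont_comp hh) (inj_comp hhi) (sub_comp hin) D
    (infDist_le hD)
  rwa [ess_comp', ess_comp'] at this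

theorem fin_B (j : Circle → Pl) (hj : Continuous j) (hji : Function.Injective j)
    (h : Circle → Pl) (hh : Continuous h) (hhi : Function.Injective h)
    (hin : Set.range h ⊆ inner (Set.range j)) (D : ℝ)
    (hD : ∀ x ∈ Set.range h, D ≤ Metric.infDist x (Set.range j))
    (hT : ∀ r : ℝ, ess j < r → ∃ c ∈ Set.range h, ∀ y ∈ Set.range h, ∀ y' ∈ Set.range h,
      r ≤ dist c y + 2 * D → r ≤ dist c y' + 2 * D →
      ∃ T : Set (Pl × Pl), IsPreconnected T ∧
        T ⊆ inner (Set.range j) ×ˢ inner (Set.range j) ∧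
        (∀ p ∈ T, r ≤ gap (Set.range j) p) ∧ (c, y) ∈ T ∧ (c, y') ∈ T) :
    span (Set.range h) + 2 * D ≤ ess j := by
  have := sup_B _ (cont_comp hj) (inj_comp hji) _ (cont_comp hh) (inj_comp hhi) (sub_comp hin) D
    (infDist_le hD) (by
      intro r hr
      rw [ess_comp'] at hr
      obtain ⟨c, ⟨a, rfl⟩, hc⟩ := hT r hr
      refine ⟨eC (h a), ⟨a, rfl⟩, ?_⟩
      rintro _ ⟨b, rfl⟩ _ ⟨b', rfl⟩ hy hy'
      have hy1 : r ≤ dist (h a) (h b) + 2 * D := by
        rw [← eC.dist_eq]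
        exact hy
      have hy1' : r ≤ dist (h a) (h b') + 2 * D := by
        rw [← eC.dist_eq]
        exact hy'
      obtain ⟨T, hT1, hT2, hT3, hT4, hT5⟩ := hc _ ⟨b, rfl⟩ _ ⟨b', rfl⟩ hy1 hy1'
      refine ⟨Prod.map eC eC '' T,
        hT1.image _ (eC.continuous.prodMap eC.continuous).continuousOn, ?_, ?_,
        ⟨_, hT4, rfl⟩, ⟨_, hT5, rfl⟩⟩
      · rintro _ ⟨p, hp, rfl⟩
        rw [inner_comp]
        exact ⟨⟨p.1, (hT2 hp).1, rfl⟩, ⟨p.2, (hT2 hp).2, rfl⟩⟩
      · rintro _ ⟨p, hp, rfl⟩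
        show r ≤ gap (Set.range (eC ∘ j)) (eC p.1, eC p.2)
        rw [gap_comp]
        exact hT3 p hp)
  rwa [ess_comp', span_comp] at this

/-- The condition on `C` alone implies the condition of `fin_B`. -/
theorem fin_C (j : Circle → Pl) (hj : Continuous j) (hji : Function.Injective j)
    (h : Circle → Pl) (hh : Continuous h) (hhi : Function.Injective h)
    (hin : Set.range h ⊆ inner (Set.range j)) (D : ℝ)
    (hD : ∀ x ∈ Set.range h, D ≤ Metric.infDist x (Set.range j))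
    (hS : ∀ s : ℝ, ess h < s → ∃ c ∈ Set.range h,
      IsPreconnected {z | z ∈ Set.range h ∧ s ≤ dist c z}) :
    span (Set.range h) + 2 * D ≤ ess j := by
  refine fin_B j hj hji h hh hhi hin D hD ?_
  intro r hr
  have hE := fin_E j hj hji h hh hhi hin D hD
  obtain ⟨c, hc, hcS⟩ := hS (r - 2 * D) (by linarith)
  refine ⟨c, hc, fun y hy y' hy' h1 h2 =>
    ⟨{c} ×ˢ {z | z ∈ Set.range h ∧ r - 2 * D ≤ dist c z}, isPreconnected_singleton.prod hcS, ?_, ?_,
    ⟨rfl, hy, by linarith⟩, ⟨rfl, hy', by linarith⟩⟩⟩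
  · rintro ⟨p1, p2⟩ ⟨hp1, hp2⟩
    rw [Set.mem_singleton_iff] at hp1
    subst hp1
    exact ⟨hin hc, hin hp2.1⟩
  · rintro ⟨p1, p2⟩ ⟨hp1, hp2⟩
    rw [Set.mem_singleton_iff] at hp1
    subst hp1
    have h3 := hD p1 hc
    have h4 := hD p2 hp2.1
    have h5 : r - 2 * D ≤ dist p1 p2 := hp2.2
    simp only [gap]
    linarith

theorem fin_B' (j : Circle → Pl) (hj : Continuous j) (hji : Function.Injective j)
    (h : Circle → Pl) (hh : Continuous h) (hhi : Function.Injective h)
    (hin : Set.range h ⊆ inner (Set.range j)) (D : ℝ)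
    (hD : ∀ x ∈ Set.range h, D ≤ Metric.infDist x (Set.range j))
    (hS : ∀ r : ℝ, ess j < r → ∃ c ∈ Set.range h, ∃ S : Set Pl, IsPreconnected S ∧
      S ⊆ inner (Set.range j) ∧ (∀ z ∈ S, r ≤ gap (Set.range j) (c, z)) ∧
      ∀ z ∈ Set.range h, r ≤ dist c z + 2 * D → z ∈ S) :
    span (Set.range h) + 2 * D ≤ ess j := by
  refine fin_B j hj hji h hh hhi hin D hD ?_
  intro r hr
  obtain ⟨c, hc, S, hS1, hS2, hS3, hS4⟩ := hS r hr
  refine ⟨c, hc, fun y hy y' hy' h1 h2 => ⟨{c} ×ˢ S, isPreconnected_singleton.prod hS1, ?_, ?_,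
    ⟨rfl, hS4 y hy h1⟩, ⟨rfl, hS4 y' hy' h2⟩⟩⟩
  · rintro ⟨p1, p2⟩ ⟨hp1, hp2⟩
    rw [Set.mem_singleton_iff] at hp1
    subst hp1
    exact ⟨hin hc, hS2 hp2⟩
  · rintro ⟨p1, p2⟩ ⟨hp1, hp2⟩
    rw [Set.mem_singleton_iff] at hp1
    subst hp1
    exact hS3 p2 hp2

end Pool.Agent.H29.Sp
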