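import Pool.Agent.H29.Sp.Defs

set_option autoImplicit false

/-!
# Lifting through the exponential

* `exists_log_complex`: a continuous nowhere vanishing function on `ℂ` has a continuous logarithm.
  Proof: `Complex.isCoveringMapOn_exp.existsUnique_continuousMap_lifts` with `A = ℂ` (simply
  connected, locally path connected) and the set `{0}ᶜ`; the starting value is `log (F 0)`.
* `exists_lift`: homotopy lifting: for a continuous nowhere vanishing `G` on `[0,1] x A`
  (`A` any topological space) there is a continuous `H` on `[0,1] x A` with `H (0, a) = 0` and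
  `exp (H (t, a)) * G (0, a) = G (t, a)`.
  Proof: `Complex.isCoveringMap_exp.liftHomotopy` applied to `G (t, a) / G (0, a)` (a continuous
  map to `{z // z ≠ 0}`) and the constant `0`.
* `lift_unique`: two continuous functions on `[0,1]` with the same exponential and the same
  value at `0` are equal. Proof: the difference is continuous with values in `2 π i ℤ`; or
  `IsCoveringMap.eq_of_comp_eq` for `Complex.isCoveringMap_exp` (`[0,1]` is preconnected).
-/

namespace Pool.Agent.H29.Sp

open Complex

theorem exists_log_complex (F : ℂ → ℂ) (hF : Continuous F) (h0 : ∀ z, F z ≠ 0) :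
    ∃ L : ℂ → ℂ, Continuous L ∧ ∀ z, exp (L z) = F z := by
  obtain ⟨L, ⟨_, hL⟩, _⟩ := Complex.isCoveringMapOn_exp.existsUnique_continuousMap_lifts
    (⟨F, hF⟩ : C(ℂ, ℂ)) (a₀ := (0 : ℂ)) (e₀ := log (F 0))
    (by simpa using exp_log (h0 0)) (fun a => by simpa using h0 a)
  refine ⟨L, L.continuous, fun z => ?_⟩
  have := congrFun hL z
  simpa using this

theorem exists_lift {A : Type*} [TopologicalSpace A] (G : unitInterval × A → ℂ)
    (hG : Continuous G) (h0 : ∀ p, G p ≠ 0) :
    ∃ H : unitInterval × A → ℂ, Continuous H ∧ (∀ a, H (0, a) = 0) ∧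
      ∀ t a, exp (H (t, a)) * G (0, a) = G (t, a) := by
  have hq : Continuous fun p : unitInterval × A => G p / G (0, p.2) := by
    refine hG.div (hG.comp (by fun_prop)) (fun p => h0 _)
  let Q : C(unitInterval × A, {z : ℂ // z ≠ 0}) :=
    ⟨fun p => ⟨G p / G (0, p.2), div_ne_zero (h0 _) (h0 _)⟩, hq.subtype_mk _⟩
  let f : C(A, ℂ) := ⟨fun _ => 0, continuous_const⟩
  have H0 : ∀ a, Q (0, a) = (fun z : ℂ ↦ (⟨_, z.exp_ne_zero⟩ : {z : ℂ // z ≠ 0})) (f a) := by
    intro a
    apply Subtype.ext
    simp [Q, f, div_self (h0 _)]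
  let H := Complex.isCoveringMap_exp.liftHomotopy Q f H0
  refine ⟨H, H.continuous, fun a => ?_, fun t a => ?_⟩
  · exact Complex.isCoveringMap_exp.liftHomotopy_zero Q f H0 a
  · have h1 := congrFun (Complex.isCoveringMap_exp.liftHomotopy_lifts Q f H0) (t, a)
    have h2 : exp (H (t, a)) = G (t, a) / G (0, a) := congrArg Subtype.val h1
    rw [h2, div_mul_cancel₀ _ (h0 _)]

theorem lift_unique (H H' : unitInterval → ℂ) (hH : Continuous H) (hH' : Continuous H')
    (h0 : H 0 = H' 0) (he : ∀ t, exp (H t) = exp (H' t)) : H = H' := by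
  refine Complex.isCoveringMap_exp.eq_of_comp_eq hH hH' ?_ 0 h0
  funext t
  exact Subtype.ext (he t)

end Pool.Agent.H29.Sp
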