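import Pool.Agent.H29.Sp.Unb

set_option autoImplicit false

/-!
# The curve winds around the points of its bounded complementary domains

`lift_ne_zero`: let `g` be continuous and injective on the circle, `x` a point of
`inner (range g)`, `c` a point of the circle, and `H : [0,1] → ℂ` continuous with `H 0 = 0` and
`exp (H s) * (g c - x) = g (c * Circle.exp (2 π s)) - x`. Then `H 1 ≠ 0`.

Proof. Suppose `H 1 = 0`. Let `K = range g`, compact, and `φ : [0,1] → K`,
`φ s = g (c * Circle.exp (2 π s))`: continuous and surjective, and a closed map (compact to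
Hausdorff), so a quotient map. If `φ s = φ s'` then, `g` being injective,
`Circle.exp (2 π s) = Circle.exp (2 π s')`, so `s = s'` or `{s, s'} = {0, 1}`; in both cases
`H s = H s'`. So there is a function `l` on `K` with `l (φ s) = H s + log (g c - x)`, and it is
continuous on `K` because `φ` is a quotient map. It satisfies `exp (l z) = z - x` on `K`. By
`unbounded_of_hasLog'` the component of `x` in the complement of `K` is unbounded, a contradiction.
-/

namespace Pool.Agent.H29.Sp

open Complex

theorem lift_ne_zero (g : Circle → ℂ) (hg : Continuous g) (hi : Function.Injective g) (x : ℂ)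
    (hx : x ∈ inner (Set.range g)) (c : Circle) (H : unitInterval → ℂ) (hH : Continuous H)
    (h0 : H 0 = 0)
    (he : ∀ s : unitInterval,
      exp (H s) * (g c - x) = g (c * Circle.exp (2 * Real.pi * (s : ℝ))) - x) :
    H 1 ≠ 0 := by
  classical
  intro hH1
  have hgx : ∀ a, g a - x ≠ 0 := by
    intro a ha
    exact hx.1 ⟨a, sub_eq_zero.mp ha⟩
  set φ : unitInterval → Set.range g :=
    fun s => ⟨g (c * Circle.exp (2 * Real.pi * (s : ℝ))), _, rfl⟩ with hφ
  have hφc : Continuous φ := by
    apply Continuous.subtype_mk
    exact hg.comp (continuous_const.mul (Circle.exp.continuous.comp (by fun_prop)))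
  have hφs : Function.Surjective φ := by
    rintro ⟨_, a, rfl⟩
    have hpi := Real.pi_pos
    have h1 := Complex.neg_pi_lt_arg ((c⁻¹ * a : Circle) : ℂ)
    have h2 := Complex.arg_le_pi ((c⁻¹ * a : Circle) : ℂ)
    have h3 : Circle.exp (arg ((c⁻¹ * a : Circle) : ℂ)) = c⁻¹ * a := Circle.exp_arg _
    by_cases hpos : 0 ≤ arg ((c⁻¹ * a : Circle) : ℂ)
    · refine ⟨⟨arg ((c⁻¹ * a : Circle) : ℂ) / (2 * Real.pi), by positivity, ?_⟩, ?_⟩
      · rw [div_le_one (by positivity)]
        linarith
      · apply Subtype.ext
        show g (c * Circle.exp (2 * Real.pi * (arg ((c⁻¹ * a : Circle) : ℂ) / (2 * Real.pi))))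
          = g a
        have e : 2 * Real.pi * (arg ((c⁻¹ * a : Circle) : ℂ) / (2 * Real.pi))
            = arg ((c⁻¹ * a : Circle) : ℂ) := by field_simp
        rw [e, h3]
        congr 1
        simp
    · push Not at hpos
      refine ⟨⟨arg ((c⁻¹ * a : Circle) : ℂ) / (2 * Real.pi) + 1, ?_, ?_⟩, ?_⟩
      · have : -1 ≤ arg ((c⁻¹ * a : Circle) : ℂ) / (2 * Real.pi) := by
          rw [le_div_iff₀ (by positivity)]
          linarith
        linarith
      · have : arg ((c⁻¹ * a : Circle) : ℂ) / (2 * Real.pi) ≤ 0 :=
          div_nonpos_of_nonpos_of_nonneg hpos.le (by positivity)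
        linarith
      · apply Subtype.ext
        show g (c * Circle.exp (2 * Real.pi *
          (arg ((c⁻¹ * a : Circle) : ℂ) / (2 * Real.pi) + 1))) = g a
        have e : 2 * Real.pi * (arg ((c⁻¹ * a : Circle) : ℂ) / (2 * Real.pi) + 1)
            = arg ((c⁻¹ * a : Circle) : ℂ) + 2 * Real.pi := by field_simp
        rw [e, Circle.exp_add, h3, Circle.exp_two_pi, mul_one]
        congr 1
        simp
  have hq : Topology.IsQuotientMap φ := (hφc.isClosedMap).isQuotientMap hφc hφs
  have hwell : ∀ s s', φ s = φ s' → H s = H s' := by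
    intro s s' hss
    have h1 : g (c * Circle.exp (2 * Real.pi * (s : ℝ)))
        = g (c * Circle.exp (2 * Real.pi * (s' : ℝ))) := congrArg Subtype.val hss
    have h2 := mul_left_cancel (hi h1)
    rw [Circle.exp_eq_exp] at h2
    obtain ⟨m, hm⟩ := h2
    have hpi := Real.pi_pos
    have h3 : (s : ℝ) = s' + m := by
      have : (2 * Real.pi) * (s : ℝ) = (2 * Real.pi) * (s' + m) := by rw [hm]; ring
      exact mul_left_cancel₀ (by positivity) this
    have s0 := s.2.1
    have s1 := s.2.2
    have t0 := s'.2.1
    have t1 := s'.2.2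
    have hm1 : (m : ℝ) ≤ 1 := by linarith
    have hm2 : (-1 : ℝ) ≤ m := by linarith
    have hm3 : m ≤ 1 := by exact_mod_cast hm1
    have hm4 : -1 ≤ m := by exact_mod_cast hm2
    have hcases : m = -1 ∨ m = 0 ∨ m = 1 := by omega
    rcases hcases with rfl | rfl | rfl
    · have e1 : s = 0 := by
        apply Subtype.ext
        push_cast at h3
        show (s : ℝ) = 0
        linarith
      have e2 : s' = 1 := by
        apply Subtype.ext
        push_cast at h3
        show (s' : ℝ) = 1
        linarith
      rw [e1, e2, h0, hH1]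
    · have : s = s' := by
        apply Subtype.ext
        push_cast at h3
        linarith
      rw [this]
    · have e1 : s = 1 := by
        apply Subtype.ext
        push_cast at h3
        show (s : ℝ) = 1
        linarith
      have e2 : s' = 0 := by
        apply Subtype.ext
        push_cast at h3
        show (s' : ℝ) = 0
        linarith
      rw [e1, e2, h0, hH1]
  set l : ℂ → ℂ := fun z => if h : z ∈ Set.range g then
    H (Function.surjInv hφs ⟨z, h⟩) + log (g c - x) else 0 with hl
  have hlφ : ∀ s, l (φ s : ℂ) = H s + log (g c - x) := by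
    intro s
    have h1 : ((φ s : Set.range g) : ℂ) ∈ Set.range g := (φ s).2
    simp only [hl]
    rw [dif_pos h1]
    congr 1
    apply hwell
    rw [Function.surjInv_eq hφs]
  have hlc : ContinuousOn l (Set.range g) := by
    rw [continuousOn_iff_continuous_domRestrict, hq.continuous_iff]
    have : (Set.range g).domRestrict l ∘ φ = fun s => H s + log (g c - x) := by
      funext s
      exact hlφ s
    rw [this]
    exact hH.add continuous_const
  refine unbounded_of_hasLog' (Set.range g) (isCompact_range hg) x hx.1 l hlc ?_ hx.2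
  intro z hz
  obtain ⟨s, hs⟩ := hφs ⟨z, hz⟩
  have h1 : ((φ s : Set.range g) : ℂ) = z := congrArg Subtype.val hs
  rw [← h1, hlφ, exp_add, exp_log (hgx c)]
  exact he s

end Pool.Agent.H29.Sp
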