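import Pool.Agent.H29.Sp.Lift
import Pool.Agent.H29.Sp.Wind

set_option autoImplicit false

/-!
# The signed distance to the moving chord

Let `c`, `v` be a family of pairs of points of the circle as in `exists_wall` (the distance bound is
not used here): `P t = g (c t)`, `Q t = g (c t * Circle.exp (2 π v t))`, and let
`X = inner (range g)`. There is a continuous `f : [0,1] × X → ℝ`, negative at `t = 0`, positive at
`t = 1`, with `f (t, x) = 0` only if `x` lies on the segment `[P t, Q t]`.

Proof. Let `A = [0,1] × X` (parameters `t`, `x`) and apply `exists_lift` to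
`G (s, (t, x)) = g (c t * Circle.exp (2 π s v t)) - x`, `s ∈ [0,1]`, which does not vanish because
`x ∉ range g`. Let `H (s, (t, x))` be the lift, `H (0, _) = 0`,
`exp (H (s, (t, x))) * (P t - x) = g (c t * Circle.exp (2 π s v t)) - x`. In particular
`exp (H (1, (t, x))) * (P t - x) = Q t - x`.
If `x ∉ segment ℝ (P t) (Q t)`, then `(P t - x) / (Q t - x)` is in the slit plane: if it were a
nonpositive real `- a`, then `P t - x = - a (Q t - x)`, `x = (P t + a Q t) / (1 + a)` would be on the
segment. Put `W (t, x) = H (1, (t, x)) + log ((P t - x) / (Q t - x))`; then `exp (W (t, x)) = 1`, so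
`W (t, x) ∈ 2 π i ℤ`. On the open set `Ω = {(t, x) | x ∉ segment}` the function `W` is
continuous, so it is locally constant: near a point `(t, x)` of `Ω` we have `‖W - W (t, x)‖ < 1` and
two different elements of `2 π i ℤ` have distance at least `2 π`.
Put `D (t, x) = dist (P t) x + dist x (Q t) - dist (P t) (Q t)` (`0` exactly on the segment) and
`f (t, x) = - D (t, x)` if `W (t, x) = 0`, `f (t, x) = D (t, x)` otherwise.
Continuity: `|f|` is `D`, which is continuous; at points outside `Ω` it
vanishes, so `f` is continuous there; at points of `Ω` the sign is locally constant.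
`t = 0`: `v 0 = 0`, so `G (s, (0, x))` is constant in `s` and `H (s, (0, x)) = 0` (`lift_unique`),
`Q 0 = P 0`, `log 1 = 0`, `W = 0`; and `x` is not on the degenerate segment `{P 0}` since
`P 0 ∈ range g`. So `f (0, x) < 0`.
`t = 1`: `v 1 = 1`, `H (s, (1, x))` is a lift as in `lift_ne_zero`, so `H (1, (1, x)) ≠ 0`,
`Q 1 = P 1` (`Circle.exp (2 π) = 1`), `log 1 = 0`, `W ≠ 0`, and `x` is not on the segment. So
`f (1, x) > 0`.
-/

namespace Pool.Agent.H29.Sp

open Complex

theorem exists_f (g : Circle → ℂ) (hg : Continuous g) (hi : Function.Injective g)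
    (c : unitInterval → Circle) (v : unitInterval → ℝ) (hc : Continuous c) (hv : Continuous v)
    (hv0 : v 0 = 0) (hv1 : v 1 = 1) :
    ∃ f : unitInterval × (inner (Set.range g) : Set ℂ) → ℝ, Continuous f ∧
      (∀ x, f (0, x) < 0) ∧ (∀ x, 0 < f (1, x)) ∧
      ∀ t x, f (t, x) = 0 →
        (x : ℂ) ∈ segment ℝ (g (c t)) (g (c t * Circle.exp (2 * Real.pi * v t))) := by
  classical
  -- the lift
  have hgx : ∀ (a : Circle) (x : (inner (Set.range g) : Set ℂ)), g a - x ≠ 0 := by
    intro a x ha
    exact x.2.1 ⟨a, sub_eq_zero.mp ha⟩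
  set G : unitInterval × (unitInterval × (inner (Set.range g) : Set ℂ)) → ℂ := fun q =>
    g (c q.2.1 * Circle.exp (2 * Real.pi * ((q.1 : ℝ) * v q.2.1))) - (q.2.2 : ℂ) with hG
  have hGc : Continuous G := by
    apply Continuous.sub
    · apply hg.comp
      apply Continuous.mul (hc.comp (by fun_prop))
      apply Circle.exp.continuous.comp
      apply continuous_const.mul
      exact (continuous_subtype_val.comp continuous_fst).mul (hv.comp (by fun_prop))
    · fun_prop
  obtain ⟨H, hHc, hH0, hHe⟩ := exists_lift G hGc (fun q => hgx _ _)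
  have hG0 : ∀ t x, G (0, (t, x)) = g (c t) - x := by
    intro t x
    simp [hG]
  have hG1 : ∀ t x, G (1, (t, x)) = g (c t * Circle.exp (2 * Real.pi * v t)) - x := by
    intro t x
    simp [hG]
  -- the multivalued part
  set P : unitInterval → ℂ := fun t => g (c t) with hP
  set Q : unitInterval → ℂ := fun t => g (c t * Circle.exp (2 * Real.pi * v t)) with hQ
  have hPc : Continuous P := hg.comp hc
  have hQc : Continuous Q := by
    apply hg.comp
    exact hc.mul (Circle.exp.continuous.comp (continuous_const.mul hv))
  set q : unitInterval × (inner (Set.range g) : Set ℂ) → ℂ := fun p =>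
    (P p.1 - p.2) / (Q p.1 - p.2) with hq
  have hqc : Continuous q := by
    apply Continuous.div
    · exact (hPc.comp continuous_fst).sub (by fun_prop)
    · exact (hQc.comp continuous_fst).sub (by fun_prop)
    · intro p
      exact hgx _ _
  set W : unitInterval × (inner (Set.range g) : Set ℂ) → ℂ := fun p =>
    H (1, p) + log (q p) with hW
  have hWe : ∀ p, exp (W p) = 1 := by
    intro p
    have h1 := hHe 1 p
    have h2 : P p.1 - p.2 ≠ 0 := hgx _ _
    have h3 : Q p.1 - p.2 ≠ 0 := hgx _ _
    have e0 : G (0, p) = P p.1 - p.2 := hG0 p.1 p.2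
    have e1 : G (1, p) = Q p.1 - p.2 := hG1 p.1 p.2
    rw [e0, e1] at h1
    show exp (H (1, p) + log (q p)) = 1
    rw [exp_add, exp_log (div_ne_zero h2 h3)]
    show exp (H (1, p)) * ((P p.1 - p.2) / (Q p.1 - p.2)) = 1
    rw [← mul_div_assoc, h1, div_self h3]
  -- the distance function
  set D : unitInterval × (inner (Set.range g) : Set ℂ) → ℝ := fun p =>
    dist (P p.1) (p.2 : ℂ) + dist (p.2 : ℂ) (Q p.1) - dist (P p.1) (Q p.1) with hD
  have hDc : Continuous D := by
    apply Continuous.sub
    · apply Continuous.add
      · exact (hPc.comp continuous_fst).dist (by fun_prop)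
      · exact Continuous.dist (by fun_prop) (hQc.comp continuous_fst)
    · exact (hPc.comp continuous_fst).dist (hQc.comp continuous_fst)
  have hD0 : ∀ p, 0 ≤ D p := by
    intro p
    have := dist_triangle (P p.1) (p.2 : ℂ) (Q p.1)
    simp only [hD]
    linarith
  have hDz : ∀ p, D p = 0 ↔ (p.2 : ℂ) ∈ segment ℝ (P p.1) (Q p.1) := by
    intro p
    rw [mem_segment_iff_wbtw, ← dist_add_dist_eq_iff]
    simp only [hD]
    constructor
    · intro h
      linarith
    · intro h
      linarith
  have hslit : ∀ p, D p ≠ 0 → q p ∈ slitPlane := by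
    intro p hp
    by_contra hcon
    apply hp
    rw [hDz]
    rw [mem_slitPlane_iff] at hcon
    push Not at hcon
    obtain ⟨hre, him⟩ := hcon
    have h3 : Q p.1 - p.2 ≠ 0 := hgx _ _
    have hqr : q p = ((q p).re : ℂ) := by
      apply Complex.ext
      · simp
      · simp [him]
    have h4 : P p.1 - p.2 = ((q p).re : ℂ) * (Q p.1 - p.2) := by
      rw [← hqr]
      show P p.1 - p.2 = (P p.1 - p.2) / (Q p.1 - p.2) * (Q p.1 - p.2)
      rw [div_mul_cancel₀ _ h3]
    have ha : 0 < 1 - (q p).re := by linarith
    refine ⟨1 / (1 - (q p).re), -(q p).re / (1 - (q p).re), by positivity,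
      div_nonneg (by linarith) ha.le, ?_, ?_⟩
    · rw [← add_div, div_eq_one_iff_eq ha.ne']
      ring
    · have ha' : (1 : ℂ) - ((q p).re : ℂ) ≠ 0 := by
        have : ((1 - (q p).re : ℝ) : ℂ) ≠ 0 := by exact_mod_cast ha.ne'
        simpa using this
      rw [real_smul, real_smul]
      push_cast
      field_simp
      linear_combination h4
  -- the function
  set f : unitInterval × (inner (Set.range g) : Set ℂ) → ℝ := fun p =>
    if W p = 0 then - D p else D p with hf
  have hfabs : ∀ p, |f p| = D p := by
    intro p
    simp only [hf]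
    split_ifs
    · rw [abs_neg, abs_of_nonneg (hD0 p)]
    · rw [abs_of_nonneg (hD0 p)]
  have hfc : Continuous f := by
    rw [continuous_iff_continuousAt]
    intro p0
    by_cases hp0 : D p0 = 0
    · have hf0 : f p0 = 0 := by
        rw [← abs_eq_zero, hfabs, hp0]
      show Filter.Tendsto f (nhds p0) (nhds (f p0))
      rw [hf0]
      have h1 : Filter.Tendsto D (nhds p0) (nhds 0) := by
        have := hDc.tendsto p0
        rwa [hp0] at this
      apply squeeze_zero_norm _ h1
      intro p
      rw [Real.norm_eq_abs, hfabs]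
    · have hWc : ContinuousAt W p0 := by
        apply ContinuousAt.add
        · exact (hHc.comp (by fun_prop : Continuous fun p :
            unitInterval × (inner (Set.range g) : Set ℂ) => ((1 : unitInterval), p))).continuousAt
        · exact (continuousAt_clog (hslit p0 hp0)).comp hqc.continuousAt
      have hev : ∀ᶠ p in nhds p0, W p = W p0 := by
        have h1 : ∀ᶠ p in nhds p0, dist (W p) (W p0) < 1 :=
          hWc.tendsto.eventually (Metric.ball_mem_nhds _ one_pos)
        filter_upwards [h1] with p hp
        obtain ⟨n, hn⟩ := exp_eq_one_iff.mp (hWe p)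
        obtain ⟨n0, hn0⟩ := exp_eq_one_iff.mp (hWe p0)
        have h2 : W p - W p0 = ((n - n0 : ℤ) : ℂ) * (2 * Real.pi * I) := by
          rw [hn, hn0]
          push_cast
          ring
        rw [dist_eq_norm, h2, norm_mul] at hp
        have h3 : ‖(2 * Real.pi * I : ℂ)‖ = 2 * Real.pi := by
          rw [norm_mul, norm_mul, norm_I, mul_one]
          rw [Complex.norm_real, Real.norm_of_nonneg Real.pi_pos.le]
          simp
        rw [h3, Complex.norm_intCast] at hp
        have h4 : (n - n0 : ℤ) = 0 := by
          by_contra hne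
          have h5 : (1 : ℝ) ≤ |((n - n0 : ℤ) : ℝ)| := by
            have : 1 ≤ |n - n0| := Int.one_le_abs hne
            exact_mod_cast this
          have h6 := Real.pi_gt_three
          nlinarith
        have h5 : W p - W p0 = 0 := by
          rw [h2, h4]
          simp
        exact sub_eq_zero.mp h5
      by_cases hW0 : W p0 = 0
      · have : f =ᶠ[nhds p0] fun p => - D p := by
          filter_upwards [hev] with p hp
          simp only [hf]
          rw [if_pos (by rw [hp, hW0])]
        exact (hDc.neg.continuousAt).congr this.symm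
      · have : f =ᶠ[nhds p0] D := by
          filter_upwards [hev] with p hp
          simp only [hf]
          rw [if_neg (by rw [hp]; exact hW0)]
        exact (hDc.continuousAt).congr this.symm
  refine ⟨f, hfc, ?_, ?_, ?_⟩
  · intro x
    have hQP : Q 0 = P 0 := by
      simp [hQ, hP, hv0]
    have hq1 : q (0, x) = 1 := by
      show (P 0 - x) / (Q 0 - x) = 1
      rw [hQP]
      exact div_self (hgx _ _)
    have hHz : (fun s => H (s, ((0 : unitInterval), x))) = fun _ => 0 := by
      apply lift_unique
      · exact hHc.comp (by fun_prop)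
      · exact continuous_const
      · exact hH0 _
      · intro s
        have h1 := hHe s (0, x)
        rw [hG0] at h1
        have h2 : G (s, ((0 : unitInterval), x)) = g (c 0) - x := by
          simp [hG, hv0]
        rw [h2] at h1
        have h3 := hgx (c 0) x
        rw [exp_zero]
        exact mul_right_cancel₀ h3 (by rw [h1, one_mul])
    have hW0 : W (0, x) = 0 := by
      have : H (1, ((0 : unitInterval), x)) = 0 := congrFun hHz 1
      show H (1, ((0 : unitInterval), x)) + log (q (0, x)) = 0
      rw [this, hq1, log_one, add_zero]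
    have hDp : 0 < D (0, x) := by
      show 0 < dist (P 0) (x : ℂ) + dist (x : ℂ) (Q 0) - dist (P 0) (Q 0)
      rw [hQP, dist_self, sub_zero]
      have : 0 < dist (P 0) (x : ℂ) := dist_pos.mpr (sub_ne_zero.mp (hgx _ _))
      have h2 : 0 ≤ dist (x : ℂ) (P 0) := dist_nonneg
      linarith
    show (if W (0, x) = 0 then - D (0, x) else D (0, x)) < 0
    rw [if_pos hW0]
    linarith
  · intro x
    have hQP : Q 1 = P 1 := by
      simp [hQ, hP, hv1]
    have hq1 : q (1, x) = 1 := by
      show (P 1 - x) / (Q 1 - x) = 1
      rw [hQP]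
      exact div_self (hgx _ _)
    have hHn : H (1, ((1 : unitInterval), x)) ≠ 0 := by
      apply lift_ne_zero g hg hi x x.2 (c 1) (fun s => H (s, ((1 : unitInterval), x)))
        (hHc.comp (by fun_prop)) (hH0 _)
      intro s
      have h1 := hHe s (1, x)
      rw [hG0] at h1
      rw [h1]
      simp [hG, hv1]
    have hW1 : W (1, x) ≠ 0 := by
      show H (1, ((1 : unitInterval), x)) + log (q (1, x)) ≠ 0
      rw [hq1, log_one, add_zero]
      exact hHn
    have hDp : 0 < D (1, x) := by
      show 0 < dist (P 1) (x : ℂ) + dist (x : ℂ) (Q 1) - dist (P 1) (Q 1)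
      rw [hQP, dist_self, sub_zero]
      have : 0 < dist (P 1) (x : ℂ) := dist_pos.mpr (sub_ne_zero.mp (hgx _ _))
      have h2 : 0 ≤ dist (x : ℂ) (P 1) := dist_nonneg
      linarith
    show 0 < (if W (1, x) = 0 then - D (1, x) else D (1, x))
    rw [if_neg hW1]
    exact hDp
  · intro t x hfx
    have h1 : D (t, x) = 0 := by
      rw [← hfabs, hfx, abs_zero]
    exact (hDz (t, x)).mp h1

end Pool.Agent.H29.Sp
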