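import Pool.Agent.H29.Sp.Lift

set_option autoImplicit false

/-!
# The turning argument

`no_swap`: let `X` be a topological space and `f : [0,1] × X → ℝ` continuous with `f (0, x) < 0` and
`0 < f (1, x)`. Let `Z ⊆ X × X` be preconnected such that for `(x, y) ∈ Z` the functions `f (t, x)`
and `f (t, y)` have no common zero `t`. Then `Z` does not contain both `(x, y)` and `(y, x)`.

Proof. On `[0,1] × Z` (subtype) put `G (t, (x, y)) = f (t, x) + i f (t, y)`, continuous and without
zeros. Let `H` be the lift of `exists_lift`, `H (0, z) = 0`, `exp (H (t, z)) * G (0, z) = G (t, z)`,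
and `Θ z = Im H (1, z)`, continuous on `Z`.
(1) `cos (Θ z) < 0` for all `z`: `exp (H (1, z)) = G (1, z) / G (0, z)`, `G (1, z) = a + i b` with
`a, b > 0` and `G (0, z) = - p - i q` with `p, q > 0`, so the real part of the quotient is
`- (a p + b q) / (p ^ 2 + q ^ 2) < 0`; and the real part of `exp w` is `exp (re w) * cos (im w)`.
(2) If `z = (x, y)` and `z' = (y, x)` are both in `Z`, then `Θ z' = - Θ z`:
`G (t, z') = f (t, y) + i f (t, x) = I * conj (G (t, z))`, so
`exp (H (t, z')) = G (t, z') / G (0, z') = conj (G (t, z) / G (0, z)) = exp (conj (H (t, z)))`, and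
both `H (·, z')` and `conj (H (·, z))` are continuous and vanish at `t = 0`; `lift_unique` gives
`H (1, z') = conj (H (1, z))`.
(3) `Θ` is a continuous real function on the preconnected set `Z` with the values `Θ z` and
`- Θ z`, so it takes the value `0` (between them), against (1) because `cos 0 = 1`.
-/

namespace Pool.Agent.H29.Sp

open Complex

theorem no_swap {X : Type*} [TopologicalSpace X] (f : unitInterval × X → ℝ) (hf : Continuous f)
    (h0 : ∀ x, f (0, x) < 0) (h1 : ∀ x, 0 < f (1, x)) (Z : Set (X × X)) (hZ : IsPreconnected Z)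
    (hne : ∀ p ∈ Z, ∀ t, ¬ (f (t, p.1) = 0 ∧ f (t, p.2) = 0)) (x y : X) (hxy : (x, y) ∈ Z)
    (hyx : (y, x) ∈ Z) : False := by
  set G : unitInterval × Z → ℂ := fun p =>
    (f (p.1, p.2.1.1) : ℂ) + I * (f (p.1, p.2.1.2) : ℂ) with hGdef
  have hGc : Continuous G := by
    apply Continuous.add
    · exact continuous_ofReal.comp (hf.comp (by fun_prop))
    · exact continuous_const.mul (continuous_ofReal.comp (hf.comp (by fun_prop)))
  have hre : ∀ p, (G p).re = f (p.1, p.2.1.1) := by
    intro p
    simp [hGdef]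
  have him : ∀ p, (G p).im = f (p.1, p.2.1.2) := by
    intro p
    simp [hGdef]
  have hG0 : ∀ p, G p ≠ 0 := by
    intro p hp
    have h1 := hre p
    have h2 := him p
    rw [hp] at h1 h2
    exact hne p.2.1 p.2.2 p.1 ⟨by simpa using h1.symm, by simpa using h2.symm⟩
  obtain ⟨H, hHc, hH0, hHe⟩ := exists_lift G hGc hG0
  set Θ : Z → ℝ := fun z => (H (1, z)).im with hΘ
  have hΘc : Continuous Θ := continuous_im.comp (hHc.comp (by fun_prop))
  have hcos : ∀ z, Real.cos (Θ z) < 0 := by
    intro z
    have e := hHe 1 z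
    have r1 := congrArg re e
    have i1 := congrArg im e
    rw [mul_re, hre, him, hre] at r1
    rw [mul_im, hre, him, him] at i1
    have a0 := h0 z.1.1
    have b0 := h0 z.1.2
    have a1 := h1 z.1.1
    have b1 := h1 z.1.2
    simp only at r1 i1
    have hs : 0 < f (0, z.1.1) ^ 2 + f (0, z.1.2) ^ 2 := by nlinarith
    have hk : (exp (H (1, z))).re * (f (0, z.1.1) ^ 2 + f (0, z.1.2) ^ 2)
        = f (1, z.1.1) * f (0, z.1.1) + f (1, z.1.2) * f (0, z.1.2) := by
      rw [← r1, ← i1]
      ring
    have hneg : (exp (H (1, z))).re < 0 := by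
      by_contra hcon
      push Not at hcon
      have h3 : 0 ≤ (exp (H (1, z))).re * (f (0, z.1.1) ^ 2 + f (0, z.1.2) ^ 2) :=
        mul_nonneg hcon hs.le
      rw [hk] at h3
      nlinarith [mul_pos a1 (neg_pos.mpr a0), mul_pos b1 (neg_pos.mpr b0)]
    rw [exp_re] at hneg
    by_contra hcon
    push Not at hcon
    exact absurd hneg (not_lt.mpr (mul_nonneg (Real.exp_pos _).le hcon))
  set z : Z := ⟨(x, y), hxy⟩ with hz
  set z' : Z := ⟨(y, x), hyx⟩ with hz'
  have hGG : ∀ t, G (t, z') = I * (starRingEnd ℂ) (G (t, z)) := by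
    intro t
    simp only [hGdef, hz, hz', map_add, map_mul, conj_ofReal, conj_I]
    ring_nf
    rw [I_sq]
    ring
  have hsym : (fun t => H (t, z')) = fun t => (starRingEnd ℂ) (H (t, z)) := by
    apply lift_unique
    · exact hHc.comp (by fun_prop)
    · exact continuous_conj.comp (hHc.comp (by fun_prop))
    · show H (0, z') = (starRingEnd ℂ) (H (0, z))
      rw [hH0, hH0, map_zero]
    · intro t
      show exp (H (t, z')) = exp ((starRingEnd ℂ) (H (t, z)))
      have e1 := hHe t z'
      have e2 := congrArg (fun w => I * (starRingEnd ℂ) w) (hHe t z)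
      simp only [map_mul] at e2
      rw [hGG t, hGG 0] at e1
      rw [exp_conj]
      have hne0 : I * (starRingEnd ℂ) (G (0, z)) ≠ 0 := by
        rw [← hGG]
        exact hG0 _
      apply mul_right_cancel₀ hne0
      rw [e1, ← e2]
      ring
  have hΘz : Θ z' = - Θ z := by
    have : H (1, z') = (starRingEnd ℂ) (H (1, z)) := congrFun hsym 1
    show (H (1, z')).im = - (H (1, z)).im
    rw [this, conj_im]
  have : PreconnectedSpace Z := Subtype.preconnectedSpace hZ
  have hmem : (0 : ℝ) ∈ Set.range Θ := by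
    rcases le_total (Θ z) 0 with h | h
    · exact mem_range_of_exists_le_of_exists_ge hΘc ⟨z, h⟩ ⟨z', by rw [hΘz]; linarith⟩
    · exact mem_range_of_exists_le_of_exists_ge hΘc ⟨z', by rw [hΘz]; linarith⟩ ⟨z, h⟩
  obtain ⟨w, hw⟩ := hmem
  have := hcos w
  rw [hw, Real.cos_zero] at this
  linarith

end Pool.Agent.H29.Sp
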