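import Pool.Agent.H29.Sp.Wall
import Pool.Agent.H29.Sp.Sign
import Pool.Agent.H29.Sp.Swap

set_option autoImplicit false

/-!
# Theorem A in the complex plane

`gap_le_of_segment`: two points `x`, `y` of a segment `[P, Q]` with `P, Q ∈ J` satisfy
`gap J (x, y) ≤ dist P Q`. Proof: `x = P + a (Q - P)`, `y = P + b (Q - P)`, and by symmetry `a ≤ b`. Then
`dist x y = (b - a) dist P Q`, `infDist x J ≤ dist x P = a dist P Q`,
`infDist y J ≤ dist y Q = (1 - b) dist P Q`.

`exists_sweep`: there is a continuous function `f : [0,1] × inner (range g) → ℝ`, negative at `t = 0`,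
positive at `t = 1`, such that `gap (range g) (x, y) < r` for two points `x, y` with a common zero
`t`. Proof: `exists_wall` and `exists_f`; if `f (t, x) = f (t, y) = 0`, both points are on the segment
`[P t, Q t]`, so `gap (range g) (x, y) ≤ dist (P t) (Q t) < r`.

`thmA`: a preconnected set `Z ⊆ inner (range g) ×ˢ inner (range g)` with `r ≤ gap (range g)` on `Z`
does not contain both `(x, y)` and `(y, x)`. Proof: pull `Z` back to the subtype (the preimage of a
preconnected set under the inducing embedding of the product of subtypes, `Z` lies in its range) and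
apply `no_swap`.
-/

namespace Pool.Agent.H29.Sp

open Complex

theorem gap_le_of_segment (J : Set ℂ) (P Q x y : ℂ) (hP : P ∈ J) (hQ : Q ∈ J)
    (hx : x ∈ segment ℝ P Q) (hy : y ∈ segment ℝ P Q) : gap J (x, y) ≤ dist P Q := by
  rw [segment_eq_image'] at hx hy
  obtain ⟨a, ⟨ha0, ha1⟩, rfl⟩ := hx
  obtain ⟨b, ⟨hb0, hb1⟩, rfl⟩ := hy
  simp only [gap]
  have hPQ : dist P Q = ‖Q - P‖ := by rw [dist_comm, dist_eq_norm]
  have dP : ∀ t : ℝ, 0 ≤ t → dist (P + t • (Q - P)) P = t * ‖Q - P‖ := by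
    intro t ht
    rw [dist_eq_norm, add_sub_cancel_left, norm_smul, Real.norm_of_nonneg ht]
  have dQ : ∀ t : ℝ, t ≤ 1 → dist (P + t • (Q - P)) Q = (1 - t) * ‖Q - P‖ := by
    intro t ht
    have e : P + t • (Q - P) - Q = (-(1 - t)) • (Q - P) := by
      simp only [real_smul]
      push_cast
      ring
    rw [dist_eq_norm, e, norm_smul, norm_neg, Real.norm_of_nonneg (by linarith)]
  have dd : ∀ s t : ℝ, dist (P + s • (Q - P)) (P + t • (Q - P)) = |s - t| * ‖Q - P‖ := by
    intro s t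
    rw [dist_eq_norm, add_sub_add_left_eq_sub, ← sub_smul, norm_smul, Real.norm_eq_abs]
  have iP : ∀ z, Metric.infDist z J ≤ dist z P := fun z => Metric.infDist_le_dist_of_mem hP
  have iQ : ∀ z, Metric.infDist z J ≤ dist z Q := fun z => Metric.infDist_le_dist_of_mem hQ
  rw [dd, hPQ]
  rcases le_total a b with hab | hab
  · have h1 := iP (P + a • (Q - P))
    have h2 := iQ (P + b • (Q - P))
    rw [dP a ha0] at h1
    rw [dQ b hb1] at h2
    rw [abs_of_nonpos (by linarith)]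
    linarith
  · have h1 := iQ (P + a • (Q - P))
    have h2 := iP (P + b • (Q - P))
    rw [dQ a ha1] at h1
    rw [dP b hb0] at h2
    rw [abs_of_nonneg (by linarith)]
    linarith

theorem exists_sweep (g : Circle → ℂ) (hg : Continuous g) (hi : Function.Injective g) {r : ℝ}
    (hr0 : 0 < r) (hr : Iness g r) :
    ∃ f : unitInterval × (inner (Set.range g) : Set ℂ) → ℝ, Continuous f ∧
      (∀ x, f (0, x) < 0) ∧ (∀ x, 0 < f (1, x)) ∧
      ∀ t x y, f (t, x) = 0 → f (t, y) = 0 → gap (Set.range g) ((x : ℂ), (y : ℂ)) < r := by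
  obtain ⟨c, v, hc, hv, hv0, hv1, -, hd⟩ := exists_wall g hg hi hr0 hr
  obtain ⟨f, hf, f0, f1, fz⟩ := exists_f g hg hi c v hc hv hv0 hv1
  refine ⟨f, hf, f0, f1, fun t x y hx hy => ?_⟩
  exact lt_of_le_of_lt (gap_le_of_segment _ _ _ _ _ ⟨_, rfl⟩ ⟨_, rfl⟩ (fz t x hx) (fz t y hy))
    (hd t)

theorem thmA (g : Circle → ℂ) (hg : Continuous g) (hi : Function.Injective g) {r : ℝ}
    (hr0 : 0 < r) (hr : Iness g r) (Z : Set (ℂ × ℂ)) (hZ : IsPreconnected Z)
    (hX : Z ⊆ inner (Set.range g) ×ˢ inner (Set.range g))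
    (hfar : ∀ p ∈ Z, r ≤ gap (Set.range g) p)
    (x y : ℂ) (hxy : (x, y) ∈ Z) (hyx : (y, x) ∈ Z) : False := by
  obtain ⟨f, hf, f0, f1, fz⟩ := exists_sweep g hg hi hr0 hr
  set ι : (inner (Set.range g) : Set ℂ) × (inner (Set.range g) : Set ℂ) → ℂ × ℂ :=
    Prod.map Subtype.val Subtype.val with hι
  have hind : Topology.IsInducing ι :=
    Topology.IsInducing.subtypeVal.prodMap Topology.IsInducing.subtypeVal
  have himg : ι '' (ι ⁻¹' Z) = Z := by
    rw [Set.image_preimage_eq_iff]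
    intro p hp
    have h := hX hp
    exact ⟨(⟨p.1, h.1⟩, ⟨p.2, h.2⟩), rfl⟩
  have hpre : IsPreconnected (ι ⁻¹' Z) := by
    rw [← hind.isPreconnected_image, himg]
    exact hZ
  have hx := hX hxy
  apply no_swap f hf f0 f1 (ι ⁻¹' Z) hpre ?_ ⟨x, hx.1⟩ ⟨y, hx.2⟩ hxy hyx
  intro p hp t ht
  have h1 := fz t p.1 p.2 ht.1 ht.2
  have h2 := hfar _ hp
  exact absurd h1 (not_lt.mpr h2)

end Pool.Agent.H29.Sp
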