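import Pool.Agent.H29.Sp.Circ

set_option autoImplicit false

/-!
# Span and essential span

Here `g` is a curve in the complex plane.
* `le_span`, `span_nonneg`: for a nonempty bounded `X`: `0 ≤ span X`, and `r ∈ spanSet X` implies
  `r ≤ span X` (the set `spanSet X` is bounded above by the diameter: the set `Z` is nonempty; it
  contains `0`: take `Z = {(x, x)}`).
* `bddAbove_essSet`: in the same way.
* `zero_mem_essSet`: the diagonal `Z = {(g a, g a)}` (image of the circle, compact and connected: the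
  circle is the range of the continuous function `Circle.exp` on `ℝ`). If `θ` were an angle on `Z`,
  then `g a = g (Circle.exp (θ (g a, g a)))`, so `a = Circle.exp (θ (g a, g a))` and
  `z ↦ I * θ (g z, g z)` (`z` on the unit sphere, taken as a point of `Circle`) is a continuous
  logarithm of `z` on the unit sphere, against `not_hasLog_sphere 1`.
* `ess_nonneg`, `iness_of_ess_lt`: immediate (`le_csSup`).
* `mem_spanSet_of_mem_essSet`: let `0 < r` and `Z` as in `essSet g` for `r`. It is enough to show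
  `fst '' Z = range g = snd '' Z`. Let `k` be the inverse of `g` on `range g` (continuous on `range g`,
  because `g` is a closed embedding: continuous, injective, compact to Hausdorff).
  Suppose `g c₀ ∉ fst '' Z`. Then `k p.1 ≠ c₀` on `Z`, so the unit number `k p.1 / (- c₀)` is not `-1`
  and lies in the slit plane; `θ p = arg (k p.1 / (- c₀)) + arg (- c₀)` is continuous on `Z` and
  `Circle.exp (θ p) = k p.1`, so `HasAngle g Z`, a contradiction.
  Suppose `g c₀ ∉ snd '' Z`. In the same way there is a continuous `θ₂` on `Z` with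
  `Circle.exp (θ₂ p) = k p.2`. Since `0 < r ≤ dist p.1 p.2`, `k p.1 ≠ k p.2` on `Z`, so
  `- k p.1 / k p.2 ≠ -1` is in the slit plane and
  `θ p = θ₂ p + arg (- k p.1 / k p.2) + π` is an angle of `k p.1`, a contradiction.
* `ess_le_span`: `csSup_le` (nonempty by `zero_mem_essSet`); `r ≤ 0` is covered by `span_nonneg`.
-/

namespace Pool.Agent.H29.Sp

open Complex

private theorem isCompact_range_curve (g : Circle → ℂ) (hg : Continuous g) :
    IsCompact (Set.range g) := isCompact_range hg

private theorem circle_preconnected : IsPreconnected (Set.univ : Set Circle) := by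
  have h1 : Set.range (fun x : ℝ => Circle.exp x) = Set.univ := by
    ext z
    simp only [Set.mem_range, Set.mem_univ, iff_true]
    exact ⟨arg (z : ℂ), Circle.exp_arg z⟩
  rw [← h1]
  exact isPreconnected_range Circle.exp.continuous

theorem le_span {E : Type*} [PseudoMetricSpace E] {X : Set E} (hb : Bornology.IsBounded X)
    {r : ℝ} (hr : r ∈ spanSet X) : r ≤ span X := by
  refine le_csSup ⟨Metric.diam X, ?_⟩ hr
  rintro s ⟨Z, hZX, hc, _, _, hd⟩
  obtain ⟨p, hp⟩ := hc.nonempty
  exact (hd p hp).trans (Metric.dist_le_diam_of_mem hb (hZX hp).1 (hZX hp).2)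

theorem span_nonneg {E : Type*} [PseudoMetricSpace E] {X : Set E} (hb : Bornology.IsBounded X)
    (hne : X.Nonempty) : 0 ≤ span X := by
  obtain ⟨x, hx⟩ := hne
  refine le_span hb ⟨{(x, x)}, ?_, isConnected_singleton, isCompact_singleton, ?_, ?_⟩
  · rintro _ rfl
    exact ⟨hx, hx⟩
  · rw [Set.image_singleton, Set.image_singleton]
  · rintro _ rfl
    simp

theorem bddAbove_essSet (g : Circle → ℂ) (hg : Continuous g) : BddAbove (essSet g) := by
  refine ⟨Metric.diam (Set.range g), ?_⟩
  rintro s ⟨Z, hZX, hc, _, _, hd⟩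
  obtain ⟨p, hp⟩ := hc.nonempty
  exact (hd p hp).trans (Metric.dist_le_diam_of_mem (isCompact_range hg).isBounded
    (hZX hp).1 (hZX hp).2)

theorem zero_mem_essSet (g : Circle → ℂ) (hg : Continuous g) (hi : Function.Injective g) :
    (0 : ℝ) ∈ essSet g := by
  have hcont : Continuous fun a : Circle => (g a, g a) := by fun_prop
  refine ⟨Set.range fun a => (g a, g a), ?_, ?_, isCompact_range hcont, ?_, ?_⟩
  · rintro _ ⟨a, rfl⟩
    exact ⟨⟨a, rfl⟩, ⟨a, rfl⟩⟩
  · refine ⟨⟨_, 1, rfl⟩, ?_⟩
    rw [← Set.image_univ]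
    exact circle_preconnected.image _ hcont.continuousOn
  · rintro ⟨θ, hθ, he⟩
    classical
    apply not_hasLog_sphere 1 one_pos
    -- the point of the circle
    let c : ℂ → Circle := fun z => if h : z ∈ Metric.sphere (0 : ℂ) 1 then
      ⟨z, by simpa [Submonoid.unitSphere] using h⟩ else 1
    have hcz : ∀ z ∈ Metric.sphere (0 : ℂ) 1, ((c z : Circle) : ℂ) = z := by
      intro z hz
      have h1 : c z = ⟨z, by simpa [Submonoid.unitSphere] using hz⟩ := dif_pos hz
      rw [h1]
    have hcc : ContinuousOn c (Metric.sphere (0 : ℂ) 1) := by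
      rw [continuousOn_iff_continuous_domRestrict]
      refine Topology.IsInducing.subtypeVal.continuous_iff.2 ?_
      refine continuous_subtype_val.congr ?_
      intro z
      exact (hcz z z.2).symm
    refine ⟨fun z => I * (θ (g (c z), g (c z)) : ℂ), ?_, ?_⟩
    · refine continuousOn_const.mul (continuous_ofReal.comp_continuousOn ?_)
      refine hθ.comp ((hcont.comp_continuousOn hcc)) ?_
      intro z _
      exact ⟨c z, rfl⟩
    · intro z hz
      have h1 : g (c z) = g (Circle.exp (θ (g (c z), g (c z)))) := he _ ⟨c z, rfl⟩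
      have h2 : c z = Circle.exp (θ (g (c z), g (c z))) := hi h1
      have h3 := congrArg (fun a : Circle => (a : ℂ)) h2
      simp only [hcz z hz, Circle.coe_exp] at h3
      show exp (I * (θ (g (c z), g (c z)) : ℂ)) = z
      rw [mul_comm]
      exact h3.symm
  · rintro _ ⟨a, rfl⟩
    simp

theorem ess_nonneg (g : Circle → ℂ) (hg : Continuous g) (hi : Function.Injective g) :
    0 ≤ ess g := le_csSup (bddAbove_essSet g hg) (zero_mem_essSet g hg hi)

theorem iness_of_ess_lt (g : Circle → ℂ) (hg : Continuous g) {r : ℝ} (hr : ess g < r) :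
    Iness g r := by
  intro Z hZ hc hk hd
  by_contra hcon
  have : r ≤ ess g := le_csSup (bddAbove_essSet g hg) ⟨Z, hZ, hc, hk, hcon, hd⟩
  linarith

private theorem neg_div_mem_slitPlane' (b c : Circle) (hbc : b ≠ c) :
    -(b : ℂ) / (c : ℂ) ∈ slitPlane := by
  rw [mem_slitPlane_iff_arg]
  have hc : (c : ℂ) ≠ 0 := Circle.coe_ne_zero c
  have hb : (b : ℂ) ≠ 0 := Circle.coe_ne_zero b
  refine ⟨fun h => ?_, div_ne_zero (neg_ne_zero.2 hb) hc⟩
  have hn : ‖-(b : ℂ) / (c : ℂ)‖ = 1 := by
    rw [norm_div, norm_neg, Circle.norm_coe, Circle.norm_coe, div_one]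
  have h1 := norm_mul_exp_arg_mul_I (-(b : ℂ) / (c : ℂ))
  rw [hn, h, exp_pi_mul_I, ofReal_one, one_mul] at h1
  apply hbc
  apply Subtype.ext
  have h2 : -(c : ℂ) = -(b : ℂ) := by
    field_simp at h1
    exact h1
  exact (neg_injective h2).symm

private theorem exp_arg_neg_div (b c : Circle) :
    exp ((arg (-(b : ℂ) / (c : ℂ)) : ℂ) * I) = -(b : ℂ) / (c : ℂ) := by
  have hn : ‖-(b : ℂ) / (c : ℂ)‖ = 1 := by
    rw [norm_div, norm_neg, Circle.norm_coe, Circle.norm_coe, div_one]
  have h1 := norm_mul_exp_arg_mul_I (-(b : ℂ) / (c : ℂ))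
  rwa [hn, ofReal_one, one_mul] at h1

/-- A continuous angle for a circle valued function missing a value. -/
private theorem exists_angle {A : Type*} [TopologicalSpace A] (S : Set A) (k k' : A → Circle)
    (hk : ContinuousOn k S) (hk' : ContinuousOn k' S) (hne : ∀ a ∈ S, k a ≠ k' a) (θ' : A → ℝ)
    (hθ' : ContinuousOn θ' S) (he' : ∀ a ∈ S, Circle.exp (θ' a) = k' a) :
    ∃ θ : A → ℝ, ContinuousOn θ S ∧ ∀ a ∈ S, Circle.exp (θ a) = k a := by
  refine ⟨fun a => θ' a + arg (-(k a : ℂ) / (k' a : ℂ)) + Real.pi, ?_, ?_⟩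
  · refine (hθ'.add ?_).add continuousOn_const
    intro a ha
    have h1 : ContinuousWithinAt (fun a => -(k a : ℂ) / (k' a : ℂ)) S a := by
      have h2 : ContinuousWithinAt (fun a => (k a : ℂ)) S a :=
        (continuous_subtype_val.continuousAt.comp_continuousWithinAt (hk a ha))
      have h3 : ContinuousWithinAt (fun a => (k' a : ℂ)) S a :=
        (continuous_subtype_val.continuousAt.comp_continuousWithinAt (hk' a ha))
      exact h2.neg.div h3 (Circle.coe_ne_zero _)
    exact ContinuousAt.comp_continuousWithinAt (g := arg)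
      (f := fun a => -(k a : ℂ) / (k' a : ℂ)) (x := a)
      (continuousAt_arg (neg_div_mem_slitPlane' _ _ (hne a ha))) h1
  · intro a ha
    rw [Circle.exp_add, Circle.exp_add, he' a ha]
    apply Subtype.ext
    rw [Circle.coe_mul, Circle.coe_mul, Circle.coe_exp, Circle.coe_exp, exp_arg_neg_div,
      exp_pi_mul_I]
    have hc : (k' a : ℂ) ≠ 0 := Circle.coe_ne_zero _
    field_simp

theorem mem_spanSet_of_mem_essSet (g : Circle → ℂ) (hg : Continuous g)
    (hi : Function.Injective g) {r : ℝ} (hr : 0 < r) (h : r ∈ essSet g) :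
    r ∈ spanSet (Set.range g) := by
  obtain ⟨Z, hZX, hc, hk, hess, hd⟩ := h
  have hemb : Topology.IsClosedEmbedding g := hg.isClosedEmbedding hi
  -- the inverse of `g`
  let k : ℂ → Circle := Function.invFun g
  have hkg : ∀ a, k (g a) = a := Function.leftInverse_invFun hi
  have hgk : ∀ z ∈ Set.range g, g (k z) = z := by
    rintro _ ⟨a, rfl⟩
    rw [hkg]
  have hkc : ContinuousOn k (Set.range g) := by
    rw [continuousOn_iff_continuous_domRestrict, hemb.isInducing.continuous_iff]
    have : g ∘ (Set.range g).domRestrict k = Subtype.val := by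
      funext z
      exact hgk z z.2
    rw [this]
    exact continuous_subtype_val
  have hk1 : ContinuousOn (fun p : ℂ × ℂ => k p.1) Z :=
    hkc.comp continuous_fst.continuousOn fun p hp => (hZX hp).1
  have hk2 : ContinuousOn (fun p : ℂ × ℂ => k p.2) Z :=
    hkc.comp continuous_snd.continuousOn fun p hp => (hZX hp).2
  have hfst : Prod.fst '' Z = Set.range g := by
    refine Set.Subset.antisymm ?_ ?_
    · rintro _ ⟨p, hp, rfl⟩
      exact (hZX hp).1
    by_contra hcon
    obtain ⟨_, ⟨c₀, rfl⟩, hc₀⟩ := Set.not_subset.1 hcon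
    have hne : ∀ p ∈ Z, k p.1 ≠ c₀ := by
      rintro p hp rfl
      exact hc₀ ⟨p, hp, (hgk _ (hZX hp).1).symm⟩
    obtain ⟨θ, hθ, he⟩ := exists_angle Z (fun p : ℂ × ℂ => k p.1) (fun _ => c₀) hk1
      continuousOn_const hne (fun _ => arg (c₀ : ℂ)) continuousOn_const
      (fun _ _ => Circle.exp_arg c₀)
    refine hess ⟨θ, hθ, fun p hp => ?_⟩
    rw [he p hp, hgk _ (hZX hp).1]
  have hsnd : Prod.snd '' Z = Set.range g := by
    refine Set.Subset.antisymm ?_ ?_
    · rintro _ ⟨p, hp, rfl⟩
      exact (hZX hp).2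
    by_contra hcon
    obtain ⟨_, ⟨c₀, rfl⟩, hc₀⟩ := Set.not_subset.1 hcon
    have hne : ∀ p ∈ Z, k p.2 ≠ c₀ := by
      rintro p hp rfl
      exact hc₀ ⟨p, hp, (hgk _ (hZX hp).2).symm⟩
    obtain ⟨θ₂, hθ₂, he₂⟩ := exists_angle Z (fun p : ℂ × ℂ => k p.2) (fun _ => c₀) hk2
      continuousOn_const hne (fun _ => arg (c₀ : ℂ)) continuousOn_const
      (fun _ _ => Circle.exp_arg c₀)
    have hne12 : ∀ p ∈ Z, k p.1 ≠ k p.2 := by
      intro p hp heq
      have h1 : p.1 = p.2 := by
        rw [← hgk _ (hZX hp).1, ← hgk _ (hZX hp).2, heq]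
      have h2 := hd p hp
      rw [h1, dist_self] at h2
      linarith
    obtain ⟨θ, hθ, he⟩ := exists_angle Z (fun p : ℂ × ℂ => k p.1) (fun p => k p.2) hk1 hk2
      hne12 θ₂ hθ₂ he₂
    refine hess ⟨θ, hθ, fun p hp => ?_⟩
    rw [he p hp, hgk _ (hZX hp).1]
  exact ⟨Z, hZX, hc, hk, by rw [hfst, hsnd], hd⟩

theorem ess_le_span (g : Circle → ℂ) (hg : Continuous g) (hi : Function.Injective g) :
    ess g ≤ span (Set.range g) := by
  have hb : Bornology.IsBounded (Set.range g) := (isCompact_range hg).isBounded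
  refine csSup_le ⟨0, zero_mem_essSet g hg hi⟩ ?_
  intro r hr
  rcases le_or_gt r 0 with h | h
  · exact h.trans (span_nonneg hb ⟨_, 1, rfl⟩)
  · exact le_span hb (mem_spanSet_of_mem_essSet g hg hi h hr)

end Pool.Agent.H29.Sp
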