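import Pool.Agent.H29.Sp.MainA
import Pool.Agent.H29.Sp.SpanEss
import Pool.Agent.H29.Sp.Arc

set_option autoImplicit false

/-!
# Theorem B in the complex plane, and the statement on involutions

`two_mul_le`: `2 * infDist x J < r` for `x ∈ inner J`: `thmA` for `Z = {(x, x)}`
(`gap J (x, x) = 2 * infDist x J`).

`thmB`. Proof. By `two_mul_le` for `c`, `2 * D ≤ r`. We show `span (range h) ≤ r - 2 * D` by
`csSup_le` (the set is nonempty: it contains `0`, by `Z = {(c, c)}`). Let `s ∈ spanSet (range h)` with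
the set `Z`. If `s ≤ 0`, then `s ≤ r - 2 * D`. Let `0 < s` and suppose `r - 2 * D < s`. On `Z` we have
`r < s + 2 * D ≤ gap (range g) p`. As `0 < s`, `p.1 ≠ p.2` on `Z`, and `fst_eq_range` gives
`fst '' Z = snd '' Z = range h ∋ c`. So there are `y`, `x` with `(c, y) ∈ Z` and `(x, c) ∈ Z`; both
are in `range h`, and `r ≤ dist c y + 2 * D`, `r ≤ dist c x + 2 * D` (because `r - 2 * D < s`).
Take the set `T` of the hypothesis for `y` and `x`. `Z ∪ T` is preconnected (both contain `(c, y)`),
lies in `inner ×ˢ inner`, has `r ≤ gap` on it and contains `(x, c)` and `(c, x)`: contradiction to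
`thmA`.

`involution`. Proof. Suppose `ess g < gap (range g) (h a, h (σ a))` for all `a`. The function
`a ↦ gap (range g) (h a, h (σ a))` attains its minimum `r` on the compact circle, so
`0 ≤ ess g < r ≤ gap (range g) (h a, h (σ a))` for all `a`. The set of the pairs `(h a, h (σ a))` is
connected (image of the circle), contains `(h 1, h (σ 1))` and, for `a = σ 1`,
`(h (σ 1), h (σ (σ 1))) = (h (σ 1), h 1)`: contradiction to `thmA` and `iness_of_ess_lt`.
(The circle is connected: it is the range of the continuous function `Circle.exp` on `ℝ`.)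
-/

namespace Pool.Agent.H29.Sp

open Complex

theorem two_mul_le (g : Circle → ℂ) (hg : Continuous g) (hi : Function.Injective g) {r : ℝ}
    (hr0 : 0 < r) (hr : Iness g r) (x : ℂ) (hx : x ∈ inner (Set.range g)) :
    2 * Metric.infDist x (Set.range g) < r := by
  by_contra hcon
  push Not at hcon
  apply thmA g hg hi hr0 hr {(x, x)} isPreconnected_singleton (by
    rintro p hp
    rw [Set.mem_singleton_iff] at hp
    rw [hp]
    exact ⟨hx, hx⟩) (by
    rintro p hp
    rw [Set.mem_singleton_iff] at hp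
    rw [hp]
    simp only [gap, dist_self]
    linarith) x x rfl rfl

theorem thmB (g : Circle → ℂ) (hg : Continuous g) (hi : Function.Injective g) {r : ℝ}
    (hr0 : 0 < r) (hr : Iness g r) (h : Circle → ℂ) (hh : Continuous h)
    (hhi : Function.Injective h) (hin : Set.range h ⊆ inner (Set.range g)) (D : ℝ)
    (hD : ∀ x ∈ Set.range h, D ≤ Metric.infDist x (Set.range g)) (c : ℂ)
    (hc : c ∈ Set.range h)
    (hT : ∀ y ∈ Set.range h, ∀ y' ∈ Set.range h, r ≤ dist c y + 2 * D →
      r ≤ dist c y' + 2 * D →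
      ∃ T : Set (ℂ × ℂ), IsPreconnected T ∧
        T ⊆ inner (Set.range g) ×ˢ inner (Set.range g) ∧
        (∀ p ∈ T, r ≤ gap (Set.range g) p) ∧ (c, y) ∈ T ∧ (c, y') ∈ T) :
    span (Set.range h) + 2 * D ≤ r := by
  have h2D : 2 * D ≤ r := by
    have h1 := two_mul_le g hg hi hr0 hr c (hin hc)
    have h2 := hD c hc
    linarith
  suffices hsuff : span (Set.range h) ≤ r - 2 * D by linarith
  apply csSup_le
  · refine ⟨0, {(c, c)}, ?_, isConnected_singleton, isCompact_singleton, ?_, ?_⟩
    · intro p hp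
      rw [Set.mem_singleton_iff] at hp
      rw [hp]
      exact ⟨hc, hc⟩
    · simp
    · intro p _
      exact dist_nonneg
  · rintro s ⟨Z, hZC, hZc, hZk, hfs, hZd⟩
    by_contra hcon
    push Not at hcon
    have hs0 : 0 < s := by linarith
    have hgap : ∀ p ∈ Z, r ≤ gap (Set.range g) p := by
      intro p hp
      have h1 := hD p.1 (hZC hp).1
      have h2 := hD p.2 (hZC hp).2
      have h3 := hZd p hp
      simp only [gap]
      linarith
    have hne : ∀ p ∈ Z, p.1 ≠ p.2 := by
      intro p hp heq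
      have h3 := hZd p hp
      rw [heq, dist_self] at h3
      linarith
    have hfr := fst_eq_range h hh hhi Z hZC hZc hZk hfs hne
    have hc1 : c ∈ Prod.fst '' Z := by rw [hfr]; exact hc
    have hc2 : c ∈ Prod.snd '' Z := by rw [← hfs]; exact hc1
    obtain ⟨⟨c', y⟩, hp, hpc⟩ := hc1
    obtain ⟨⟨x, c''⟩, hq, hqc⟩ := hc2
    simp only at hpc hqc
    subst hpc
    subst hqc
    have hgy : r ≤ dist c'' y + 2 * D := by
      have h1 : s ≤ dist c'' y := hZd _ hp
      linarith
    have hgx : r ≤ dist c'' x + 2 * D := by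
      have h1 : s ≤ dist x c'' := hZd _ hq
      rw [dist_comm]
      linarith
    obtain ⟨T, hTp, hTs, hTg, hT1, hT2⟩ := hT y (hZC hp).2 x (hZC hq).1 hgy hgx
    exact thmA g hg hi hr0 hr (Z ∪ T) (hZc.isPreconnected.union _ hp hT1 hTp) (by
      rintro p (hp' | hp')
      · exact ⟨hin (hZC hp').1, hin (hZC hp').2⟩
      · exact hTs hp') (by
      rintro p (hp' | hp')
      · exact hgap p hp'
      · exact hTg p hp') x c'' (Or.inl hq) (Or.inr hT2)

theorem involution (g : Circle → ℂ) (hg : Continuous g) (hi : Function.Injective g)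
    (h : Circle → ℂ) (hh : Continuous h) (hin : Set.range h ⊆ inner (Set.range g))
    (σ : Circle → Circle) (hσ : Continuous σ) (hσσ : ∀ a, σ (σ a) = a) :
    ∃ a, gap (Set.range g) (h a, h (σ a)) ≤ ess g := by
  by_contra hcon
  push Not at hcon
  have hcont : Continuous fun a => gap (Set.range g) (h a, h (σ a)) := by
    unfold gap
    apply Continuous.add
    · apply Continuous.add
      · exact hh.dist (hh.comp hσ)
      · exact (Metric.continuous_infDist_pt _).comp hh
    · exact (Metric.continuous_infDist_pt _).comp (hh.comp hσ)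
  obtain ⟨a₀, -, ha₀⟩ := isCompact_univ.exists_isMinOn (Set.univ_nonempty (α := Circle))
    hcont.continuousOn
  set r := gap (Set.range g) (h a₀, h (σ a₀)) with hr
  have hr1 : ess g < r := hcon a₀
  have hr0 : 0 < r := lt_of_le_of_lt (ess_nonneg g hg hi) hr1
  have hmin : ∀ a, r ≤ gap (Set.range g) (h a, h (σ a)) := fun a => ha₀ (Set.mem_univ a)
  have hmem : ∀ a, (h a, h (σ a)) ∈ Set.range fun t : ℝ =>
      (h (Circle.exp t), h (σ (Circle.exp t))) := by
    intro a
    refine ⟨arg (a : ℂ), ?_⟩
    show (h (Circle.exp (arg (a : ℂ))), h (σ (Circle.exp (arg (a : ℂ))))) = _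
    rw [Circle.exp_arg]
  apply thmA g hg hi hr0 (iness_of_ess_lt g hg hr1)
    (Set.range fun t : ℝ => (h (Circle.exp t), h (σ (Circle.exp t)))) ?_ ?_ ?_ (h 1) (h (σ 1))
    (hmem 1) ?_
  · apply isPreconnected_range
    apply Continuous.prodMk
    · exact hh.comp (map_continuous Circle.exp)
    · exact hh.comp (hσ.comp (map_continuous Circle.exp))
  · rintro _ ⟨t, rfl⟩
    exact ⟨hin ⟨_, rfl⟩, hin ⟨_, rfl⟩⟩
  · rintro _ ⟨t, rfl⟩
    exact hmin _
  · have := hmem (σ 1)
    rwa [hσσ] at this

end Pool.Agent.H29.Sp
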