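import Pool.Agent.H29.Sp.MainA
import Pool.Agent.H29.Sp.Ess

set_option autoImplicit false

/-!
# Theorem E in the complex plane: far continua on the inner curve are inessential

Proof. `exists_sweep` gives `f`. Put `φ (t, a) = f (t, h a)` and `K = {(a, b) | (h a, h b) ∈ Z}`:
closed in the compact space `Circle × Circle`, so compact. For `(a, b) ∈ K` there is no common zero
`t` because `r ≤ gap (range g) (h a, h b)`. `cyl_ess` gives `m` on `K` with `exp (m (a, b)) = a`; as
`‖a‖ = 1`, `a = Circle.exp (im (m (a, b)))`. The inverse `k` of `h` on `range h` is continuous on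
`range h` (`h` is a closed embedding: continuous, injective, compact to Hausdorff). Put
`θ p = im (m (k p.1, k p.2))`.
-/

namespace Pool.Agent.H29.Sp

open Complex

theorem thmE (g : Circle → ℂ) (hg : Continuous g) (hi : Function.Injective g) {r : ℝ}
    (hr0 : 0 < r) (hr : Iness g r) (h : Circle → ℂ) (hh : Continuous h)
    (hhi : Function.Injective h) (hin : Set.range h ⊆ inner (Set.range g)) (Z : Set (ℂ × ℂ))
    (hZ : IsCompact Z) (hZC : Z ⊆ Set.range h ×ˢ Set.range h)
    (hfar : ∀ p ∈ Z, r ≤ gap (Set.range g) p) : HasAngle h Z := by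
  classical
  obtain ⟨f, hf, f0, f1, fz⟩ := exists_sweep g hg hi hr0 hr
  set j : Circle → (inner (Set.range g) : Set ℂ) := fun a => ⟨h a, hin ⟨a, rfl⟩⟩ with hj
  have hjc : Continuous j := hh.subtype_mk _
  have hKc : IsCompact ((Prod.map h h) ⁻¹' Z) := by
    apply IsClosed.isCompact
    exact hZ.isClosed.preimage (hh.prodMap hh)
  obtain ⟨m, hm, hme⟩ := cyl_ess (fun p => f (p.1, j p.2)) (hf.comp (by fun_prop))
    (fun a => f0 _) (fun a => f1 _) _ hKc (by
      intro p hp t ht
      have h1 := fz t (j p.1) (j p.2) ht.1 ht.2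
      have h2 := hfar _ hp
      exact absurd h1 (not_lt.mpr h2))
  set e := (hh.isClosedEmbedding hhi).isEmbedding.toHomeomorph with he
  have hes : ∀ z : Set.range h, h (e.symm z) = z := by
    intro z
    have h1 := e.apply_symm_apply z
    exact congrArg Subtype.val h1
  set ψ : Z → ((Prod.map h h) ⁻¹' Z : Set (Circle × Circle)) := fun p =>
    ⟨(e.symm ⟨p.1.1, (hZC p.2).1⟩, e.symm ⟨p.1.2, (hZC p.2).2⟩), by
      show (h (e.symm ⟨p.1.1, (hZC p.2).1⟩), h (e.symm ⟨p.1.2, (hZC p.2).2⟩)) ∈ Z
      rw [hes, hes]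
      exact p.2⟩ with hψ
  have hψc : Continuous ψ := by
    apply Continuous.subtype_mk
    apply Continuous.prodMk
    · exact e.symm.continuous.comp (Continuous.subtype_mk (by fun_prop) _)
    · exact e.symm.continuous.comp (Continuous.subtype_mk (by fun_prop) _)
  refine ⟨fun p => if hp : p ∈ Z then (m (ψ ⟨p, hp⟩).1).im else 0, ?_, ?_⟩
  · rw [continuousOn_iff_continuous_domRestrict]
    have : Z.domRestrict (fun p => if hp : p ∈ Z then (m (ψ ⟨p, hp⟩).1).im else 0)
        = fun p : Z => (m (ψ p).1).im := by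
      funext p
      have hp : (p : ℂ × ℂ) ∈ Z := p.2
      show (if hp : (p : ℂ × ℂ) ∈ Z then (m (ψ ⟨p, hp⟩).1).im else 0) = _
      rw [dif_pos hp]
    rw [this]
    rw [continuousOn_iff_continuous_domRestrict] at hm
    exact continuous_im.comp (hm.comp hψc)
  · intro p hp
    show p.1 = h (Circle.exp (if hp : p ∈ Z then (m (ψ ⟨p, hp⟩).1).im else 0))
    rw [dif_pos hp]
    have h1 := hme _ (ψ ⟨p, hp⟩).2
    have h2 : Circle.exp ((m (ψ ⟨p, hp⟩).1).im) = (ψ ⟨p, hp⟩).1.1 := by
      apply Circle.ext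
      rw [Circle.coe_exp]
      have h3 : ‖exp (m (ψ ⟨p, hp⟩).1)‖ = 1 := by rw [h1, Circle.norm_coe]
      rw [norm_exp, Real.exp_eq_one_iff] at h3
      rw [← h1]
      congr 1
      apply Complex.ext
      · simp [h3]
      · simp
    rw [h2]
    exact (hes ⟨p.1, (hZC hp).1⟩).symm

end Pool.Agent.H29.Sp
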