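import Pool.Agent.H29.Sp.SpanEss
import Pool.Agent.H29.Sp.Arc

set_option autoImplicit false

/-!
# One curve: a connected far set with a pair and its reversal is essential

`not_hasAngle_of_swap`: let `K ⊆ range h ×ˢ range h` be nonempty, preconnected and invariant under the
exchange of the coordinates, `p.1 ≠ p.2` on `K`. Then there is no angle on `K`.
Proof. Let `k` be the inverse of `h` and `θ` an angle. Let
`φ p = arg (- k p.2 / k p.1) + π`, continuous on `K`, `exp (i φ p) = k p.2 / k p.1`, and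
`φ p + φ (swap p) = 2 π` (the two arguments are opposite to each other, as the two numbers are
inverse to each other and different from `-1`). Put `G p = θ (swap p) - θ p - φ p`; it is continuous
and `exp (i G p) = 1`. `G p + G (swap p) = - 2 π`, so `- π` is between `G p` and `G (swap p)` and is a
value of `G` on `K`, but `exp (- i π) = -1`.

`ess_of_swap_mem`: a preconnected `W ⊆ range h ×ˢ range h` at level `r > 0` which contains `(x, y)` and
`(y, x)` gives `r ≤ ess h`: take the closure of `W ∪ swap W`.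

`single`: proof as for `thmB`.
-/

namespace Pool.Agent.H29.Sp

open Complex

private theorem neg_div_mem (b c : Circle) (hbc : b ≠ c) :
    -(b : ℂ) / (c : ℂ) ∈ slitPlane := by
  rw [mem_slitPlane_iff_arg]
  have hc : (c : ℂ) ≠ 0 := Circle.coe_ne_zero c
  have hb : (b : ℂ) ≠ 0 := Circle.coe_ne_zero b
  refine ⟨fun h => ?_, div_ne_zero (neg_ne_zero.2 hb) hc⟩
  have hn : ‖-(b : ℂ) / (c : ℂ)‖ = 1 := by
    rw [norm_div, norm_neg, Circle.norm_coe, Circle.norm_coe, div_one]
  have h1 := norm_mul_exp_arg_mul_I (-(b : ℂ) / (c : ℂ))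
  rw [hn, h, exp_pi_mul_I, ofReal_one, one_mul] at h1
  apply hbc
  apply Subtype.ext
  have h2 : -(c : ℂ) = -(b : ℂ) := by
    field_simp at h1
    exact h1
  exact (neg_injective h2).symm

private theorem exp_arg_nd (b c : Circle) :
    exp ((arg (-(b : ℂ) / (c : ℂ)) : ℂ) * I) = -(b : ℂ) / (c : ℂ) := by
  have hn : ‖-(b : ℂ) / (c : ℂ)‖ = 1 := by
    rw [norm_div, norm_neg, Circle.norm_coe, Circle.norm_coe, div_one]
  have h1 := norm_mul_exp_arg_mul_I (-(b : ℂ) / (c : ℂ))
  rwa [hn, ofReal_one, one_mul] at h1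

theorem not_hasAngle_of_swap (h : Circle → ℂ) (hh : Continuous h) (hi : Function.Injective h)
    (K : Set (ℂ × ℂ)) (hKC : K ⊆ Set.range h ×ˢ Set.range h) (hKp : IsPreconnected K)
    (hne : K.Nonempty) (hsw : ∀ p ∈ K, p.swap ∈ K) (hd : ∀ p ∈ K, p.1 ≠ p.2) :
    ¬ HasAngle h K := by
  rintro ⟨θ, hθ, he⟩
  have hemb : Topology.IsClosedEmbedding h := hh.isClosedEmbedding hi
  let k : ℂ → Circle := Function.invFun h
  have hkg : ∀ a, k (h a) = a := Function.leftInverse_invFun hi
  have hgk : ∀ z ∈ Set.range h, h (k z) = z := by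
    rintro _ ⟨a, rfl⟩
    rw [hkg]
  have hkc : ContinuousOn k (Set.range h) := by
    rw [continuousOn_iff_continuous_domRestrict, hemb.isInducing.continuous_iff]
    have : h ∘ (Set.range h).domRestrict k = Subtype.val := by
      funext z
      exact hgk z z.2
    rw [this]
    exact continuous_subtype_val
  have hk1 : ContinuousOn (fun p : ℂ × ℂ => (k p.1 : ℂ)) K :=
    continuous_subtype_val.comp_continuousOn
      (hkc.comp continuous_fst.continuousOn fun p hp => (hKC hp).1)
  have hk2 : ContinuousOn (fun p : ℂ × ℂ => (k p.2 : ℂ)) K :=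
    continuous_subtype_val.comp_continuousOn
      (hkc.comp continuous_snd.continuousOn fun p hp => (hKC hp).2)
  have hkne : ∀ p ∈ K, k p.1 ≠ k p.2 := by
    intro p hp heq
    apply hd p hp
    rw [← hgk _ (hKC hp).1, ← hgk _ (hKC hp).2, heq]
  -- the difference of the angles
  let φ : ℂ × ℂ → ℝ := fun p => arg (-(k p.2 : ℂ) / (k p.1 : ℂ)) + Real.pi
  have hφ : ContinuousOn φ K := by
    refine ContinuousOn.add ?_ continuousOn_const
    intro p hp
    have h1 : ContinuousWithinAt (fun p : ℂ × ℂ => -(k p.2 : ℂ) / (k p.1 : ℂ)) K p :=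
      (hk2 p hp).neg.div (hk1 p hp) (Circle.coe_ne_zero _)
    exact ContinuousAt.comp_continuousWithinAt (g := arg)
      (f := fun p : ℂ × ℂ => -(k p.2 : ℂ) / (k p.1 : ℂ)) (x := p)
      (continuousAt_arg (neg_div_mem _ _ (hkne p hp).symm)) h1
  have hφe : ∀ p ∈ K, Circle.exp (φ p) = k p.2 * (k p.1)⁻¹ := by
    intro p hp
    apply Subtype.ext
    simp only [φ]
    rw [Circle.exp_add, Circle.coe_mul, Circle.coe_exp, Circle.coe_exp, exp_arg_nd,
      exp_pi_mul_I, Circle.coe_mul, Circle.coe_inv]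
    have hc : (k p.1 : ℂ) ≠ 0 := Circle.coe_ne_zero _
    field_simp
  have hφs : ∀ p ∈ K, φ p + φ p.swap = 2 * Real.pi := by
    intro p hp
    have hs : -(k p.swap.2 : ℂ) / (k p.swap.1 : ℂ) = (-(k p.2 : ℂ) / (k p.1 : ℂ))⁻¹ := by
      simp only [Prod.fst_swap, Prod.snd_swap]
      rw [inv_div, div_neg, neg_div]
    have hm := neg_div_mem _ _ (hkne p hp).symm
    rw [mem_slitPlane_iff_arg] at hm
    simp only [φ]
    rw [hs, arg_inv, if_neg hm.1]
    ring
  have hθe : ∀ p ∈ K, Circle.exp (θ p) = k p.1 := by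
    intro p hp
    have h1 := he p hp
    have h2 : k p.1 = k (h (Circle.exp (θ p))) := by rw [← h1]
    rw [h2, hkg]
  have hswc : ContinuousOn (fun p : ℂ × ℂ => θ p.swap) K :=
    hθ.comp continuous_swap.continuousOn hsw
  have hG : ContinuousOn (fun p => θ p.swap - θ p - φ p) K := (hswc.sub hθ).sub hφ
  have hGe : ∀ p ∈ K, Circle.exp (θ p.swap - θ p - φ p) = 1 := by
    intro p hp
    rw [Circle.exp_sub, Circle.exp_sub, hθe p hp, hθe _ (hsw p hp), hφe p hp]
    simp only [Prod.fst_swap]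
    rw [div_div, mul_comm (k p.1), inv_mul_cancel_right, div_self']
  obtain ⟨p, hp⟩ := hne
  have hq := hsw p hp
  have hsum : (θ p.swap - θ p - φ p) + (θ p.swap.swap - θ p.swap - φ p.swap) =
      -(2 * Real.pi) := by
    have := hφs p hp
    rw [Prod.swap_swap]
    linarith
  have hmem : -Real.pi ∈ (fun p => θ p.swap - θ p - φ p) '' K := by
    have hoc := (hKp.image _ hG).ordConnected
    rcases le_total (θ p.swap - θ p - φ p) (θ p.swap.swap - θ p.swap - φ p.swap) with hle | hle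
    · exact hoc.out ⟨p, hp, rfl⟩ ⟨p.swap, hq, rfl⟩ ⟨by simp only; linarith, by simp only; linarith⟩
    · exact hoc.out ⟨p.swap, hq, rfl⟩ ⟨p, hp, rfl⟩ ⟨by simp only; linarith, by simp only; linarith⟩
  obtain ⟨z, hz, hz0⟩ := hmem
  have h1 := hGe z hz
  simp only at hz0
  rw [hz0] at h1
  have h2 := congrArg (fun a : Circle => (a : ℂ)) h1
  simp only [Circle.coe_exp, Circle.coe_one] at h2
  rw [ofReal_neg, neg_mul, exp_neg, exp_pi_mul_I] at h2
  norm_num at h2

theorem ess_of_swap_mem (h : Circle → ℂ) (hh : Continuous h) (hi : Function.Injective h)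
    (W : Set (ℂ × ℂ)) (hWC : W ⊆ Set.range h ×ˢ Set.range h) (hWp : IsPreconnected W) {r : ℝ}
    (hr : 0 < r) (hd : ∀ p ∈ W, r ≤ dist p.1 p.2) (x y : ℂ) (hxy : (x, y) ∈ W)
    (hyx : (y, x) ∈ W) : r ≤ ess h := by
  have hcl : IsClosed {p : ℂ × ℂ | p ∈ Set.range h ×ˢ Set.range h ∧ r ≤ dist p.1 p.2} := by
    exact IsClosed.inter ((isCompact_range hh).isClosed.prod (isCompact_range hh).isClosed)
      (isClosed_le continuous_const (continuous_fst.dist continuous_snd))
  set V : Set (ℂ × ℂ) := W ∪ Prod.swap '' W with hV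
  have hVp : IsPreconnected V :=
    hWp.union (x, y) hxy ⟨(y, x), hyx, rfl⟩ (hWp.image _ continuous_swap.continuousOn)
  have hVs : V ⊆ {p : ℂ × ℂ | p ∈ Set.range h ×ˢ Set.range h ∧ r ≤ dist p.1 p.2} := by
    rintro p (hp | ⟨q, hq, rfl⟩)
    · exact ⟨hWC hp, hd p hp⟩
    · refine ⟨⟨(hWC hq).2, (hWC hq).1⟩, ?_⟩
      rw [Prod.fst_swap, Prod.snd_swap, dist_comm]
      exact hd q hq
  have hKs : closure V ⊆ {p : ℂ × ℂ | p ∈ Set.range h ×ˢ Set.range h ∧ r ≤ dist p.1 p.2} :=
    hcl.closure_subset_iff.2 hVs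
  have hswV : ∀ p ∈ V, p.swap ∈ V := by
    rintro p (hp | ⟨q, hq, rfl⟩)
    · exact Or.inr ⟨p, hp, rfl⟩
    · rw [Prod.swap_swap]
      exact Or.inl hq
  have hsw : ∀ p ∈ closure V, p.swap ∈ closure V := by
    intro p hp
    exact map_mem_closure continuous_swap hp hswV
  have hKc : IsCompact (closure V) :=
    ((isCompact_range hh).prod (isCompact_range hh)).of_isClosed_subset isClosed_closure
      (fun p hp => (hKs hp).1)
  have hne : (closure V).Nonempty := ⟨(x, y), subset_closure (Or.inl hxy)⟩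
  refine le_csSup (bddAbove_essSet h hh) ⟨closure V, fun p hp => (hKs hp).1,
    ⟨hne, hVp.closure⟩, hKc, ?_, fun p hp => (hKs hp).2⟩
  refine not_hasAngle_of_swap h hh hi _ (fun p hp => (hKs hp).1) hVp.closure hne hsw ?_
  intro p hp heq
  have h1 := (hKs hp).2
  rw [heq, dist_self] at h1
  linarith

theorem single (h : Circle → ℂ) (hh : Continuous h) (hi : Function.Injective h)
    (hT : ∀ r : ℝ, ess h < r → ∃ c ∈ Set.range h, ∀ y ∈ Set.range h, ∀ y' ∈ Set.range h,
      r ≤ dist c y → r ≤ dist c y' →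
      ∃ T : Set (ℂ × ℂ), IsPreconnected T ∧ T ⊆ Set.range h ×ˢ Set.range h ∧
        (∀ p ∈ T, r ≤ dist p.1 p.2) ∧ (c, y) ∈ T ∧ (c, y') ∈ T) :
    span (Set.range h) = ess h := by
  refine le_antisymm ?_ (ess_le_span h hh hi)
  apply le_of_forall_gt_imp_ge_of_dense
  intro r hr
  have hr0 : 0 < r := lt_of_le_of_lt (ess_nonneg h hh hi) hr
  obtain ⟨c, hc, hcT⟩ := hT r hr
  apply csSup_le
  · refine ⟨0, {(c, c)}, ?_, isConnected_singleton, isCompact_singleton, ?_, ?_⟩
    · intro p hp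
      rw [Set.mem_singleton_iff] at hp
      rw [hp]
      exact ⟨hc, hc⟩
    · simp
    · intro p _
      exact dist_nonneg
  · rintro s ⟨Z, hZC, hZc, hZk, hfs, hZd⟩
    by_contra hcon
    push Not at hcon
    have hne : ∀ p ∈ Z, p.1 ≠ p.2 := by
      intro p hp heq
      have h3 := hZd p hp
      rw [heq, dist_self] at h3
      linarith
    have hfr := fst_eq_range h hh hi Z hZC hZc hZk hfs hne
    have hc1 : c ∈ Prod.fst '' Z := by rw [hfr]; exact hc
    have hc2 : c ∈ Prod.snd '' Z := by rw [← hfs]; exact hc1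
    obtain ⟨⟨c', y⟩, hp, hpc⟩ := hc1
    obtain ⟨⟨x, c''⟩, hq, hqc⟩ := hc2
    simp only at hpc hqc
    subst hpc
    subst hqc
    have hgy : r ≤ dist c'' y := hcon.le.trans (hZd _ hp)
    have hgx : r ≤ dist c'' x := by
      have h1 : s ≤ dist x c'' := hZd _ hq
      rw [dist_comm]
      exact hcon.le.trans h1
    obtain ⟨T, hTp, hTs, hTg, hT1, hT2⟩ := hcT y (hZC hp).2 x (hZC hq).1 hgy hgx
    have hle := ess_of_swap_mem h hh hi (Z ∪ T) (Set.union_subset hZC hTs)
      (hZc.isPreconnected.union _ hp hT1 hTp) hr0 (by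
        rintro p (hp' | hp')
        · exact hcon.le.trans (hZd p hp')
        · exact hTg p hp') x c'' (Or.inl hq) (Or.inr hT2)
    linarith

end Pool.Agent.H29.Sp
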