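import Pool.Agent.H29.Sp.MainB
import Pool.Agent.H29.Sp.MainE

set_option autoImplicit false

/-!
# The statements with the essential span, in the complex plane

`sup_A`: suppose `ess g < r`. Then `0 < r` (`ess_nonneg`) and `Iness g r` (`iness_of_ess_lt`), against
`thmA`.

`sup_E`: `csSup_le` (the set is nonempty: `zero_mem_essSet`): let `r ∈ essSet h` with the set `Z`, and
suppose `ess g - 2 * D < r`. With `r' = r + 2 * D` we have `ess g < r'`, so `0 < r'` and `Iness g r'`;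
on `Z` we have `r' ≤ gap (range g) p`. So `thmE` gives `HasAngle h Z`, a contradiction.

`sup_B`: for every `r > ess g` (so `0 < r`, `Iness g r`) `thmB` gives
`span (range h) + 2 * D ≤ r`; let `r` tend to `ess g` (`le_of_forall_gt_imp_ge_of_dense`).

`sup_B'`: `sup_B` with `T = {c} ×ˢ S`.
-/

namespace Pool.Agent.H29.Sp

open Complex

theorem sup_A (g : Circle → ℂ) (hg : Continuous g) (hi : Function.Injective g)
    (Z : Set (ℂ × ℂ)) (hZ : IsPreconnected Z)
    (hX : Z ⊆ inner (Set.range g) ×ˢ inner (Set.range g)) (r : ℝ)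
    (hfar : ∀ p ∈ Z, r ≤ gap (Set.range g) p) (x y : ℂ) (hxy : (x, y) ∈ Z) (hyx : (y, x) ∈ Z) :
    r ≤ ess g := by
  by_contra hcon
  push Not at hcon
  exact thmA g hg hi (lt_of_le_of_lt (ess_nonneg g hg hi) hcon) (iness_of_ess_lt g hg hcon)
    Z hZ hX hfar x y hxy hyx

theorem sup_E (g : Circle → ℂ) (hg : Continuous g) (hi : Function.Injective g)
    (h : Circle → ℂ) (hh : Continuous h) (hhi : Function.Injective h)
    (hin : Set.range h ⊆ inner (Set.range g)) (D : ℝ)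
    (hD : ∀ x ∈ Set.range h, D ≤ Metric.infDist x (Set.range g)) :
    ess h + 2 * D ≤ ess g := by
  suffices hsuff : ess h ≤ ess g - 2 * D by linarith
  apply csSup_le ⟨0, zero_mem_essSet h hh hhi⟩
  rintro r ⟨Z, hZC, -, hZk, hZa, hZd⟩
  by_contra hcon
  push Not at hcon
  have hr1 : ess g < r + 2 * D := by linarith
  apply hZa
  apply thmE g hg hi (lt_of_le_of_lt (ess_nonneg g hg hi) hr1) (iness_of_ess_lt g hg hr1) h hh hhi
    hin Z hZk hZC
  intro p hp
  have h1 := hD p.1 (hZC hp).1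
  have h2 := hD p.2 (hZC hp).2
  have h3 := hZd p hp
  simp only [gap]
  linarith

theorem sup_B (g : Circle → ℂ) (hg : Continuous g) (hi : Function.Injective g)
    (h : Circle → ℂ) (hh : Continuous h) (hhi : Function.Injective h)
    (hin : Set.range h ⊆ inner (Set.range g)) (D : ℝ)
    (hD : ∀ x ∈ Set.range h, D ≤ Metric.infDist x (Set.range g))
    (hT : ∀ r : ℝ, ess g < r → ∃ c ∈ Set.range h, ∀ y ∈ Set.range h, ∀ y' ∈ Set.range h,
      r ≤ dist c y + 2 * D → r ≤ dist c y' + 2 * D →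
      ∃ T : Set (ℂ × ℂ), IsPreconnected T ∧
        T ⊆ inner (Set.range g) ×ˢ inner (Set.range g) ∧
        (∀ p ∈ T, r ≤ gap (Set.range g) p) ∧ (c, y) ∈ T ∧ (c, y') ∈ T) :
    span (Set.range h) + 2 * D ≤ ess g := by
  apply le_of_forall_gt_imp_ge_of_dense
  intro r hr
  obtain ⟨c, hc, hcT⟩ := hT r hr
  exact thmB g hg hi (lt_of_le_of_lt (ess_nonneg g hg hi) hr) (iness_of_ess_lt g hg hr) h hh hhi
    hin D hD c hc hcT

theorem sup_B' (g : Circle → ℂ) (hg : Continuous g) (hi : Function.Injective g)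
    (h : Circle → ℂ) (hh : Continuous h) (hhi : Function.Injective h)
    (hin : Set.range h ⊆ inner (Set.range g)) (D : ℝ)
    (hD : ∀ x ∈ Set.range h, D ≤ Metric.infDist x (Set.range g))
    (hS : ∀ r : ℝ, ess g < r → ∃ c ∈ Set.range h, ∃ S : Set ℂ, IsPreconnected S ∧
      S ⊆ inner (Set.range g) ∧ (∀ z ∈ S, r ≤ gap (Set.range g) (c, z)) ∧
      ∀ z ∈ Set.range h, r ≤ dist c z + 2 * D → z ∈ S) :
    span (Set.range h) + 2 * D ≤ ess g := by
  apply sup_B g hg hi h hh hhi hin D hD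
  intro r hr
  obtain ⟨c, hc, S, hSp, hSi, hSg, hSh⟩ := hS r hr
  refine ⟨c, hc, fun y hy y' hy' h1 h2 => ⟨{c} ×ˢ S, isPreconnected_singleton.prod hSp, ?_, ?_,
    ?_, ?_⟩⟩
  · rintro ⟨a, b⟩ ⟨ha, hb⟩
    simp only [Set.mem_singleton_iff] at ha
    subst ha
    exact ⟨hin hc, hSi hb⟩
  · rintro ⟨a, b⟩ ⟨ha, hb⟩
    simp only [Set.mem_singleton_iff] at ha
    subst ha
    exact hSg b hb
  · exact ⟨rfl, hSh y hy h1⟩
  · exact ⟨rfl, hSh y' hy' h2⟩

end Pool.Agent.H29.Sp
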