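import Pool.Agent.H29.Sp.Circ

set_option autoImplicit false

/-!
# A compact set with a logarithm does not separate `0` from infinity

Proof of `unbounded_of_hasLog`. Let `V` be the component of `0` in the complement of `K`, suppose
`V` is bounded. `V` is open (`IsOpen.connectedComponentIn`), and `frontier V ⊆ K`: a point `z` of
the closure of `V` outside `K` has a component in `Kᶜ` which is open and meets `V`, so it is `V`.
Let `l` be the logarithm on `K`. Extend `l` to a continuous `G : ℂ → ℂ` (Tietze:
`ContinuousMap.exists_restrict_eq`, `Complex.instTietzeExtension`, `K` closed). Put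
`F z = exp (G z)` for `z ∈ V` and `F z = z` otherwise. `F` is continuous (`Continuous.piecewise` /
`ContinuousOn.if`, both values are `z` on the frontier, which is in `K`), and vanishes nowhere
(`0 ∈ V`). Take `R > 0` with `V ⊆ ball 0 R`. `exists_log_complex` gives a continuous `L` with
`exp (L z) = F z`; on the sphere of radius `R` it is a logarithm of `z`, against
`not_hasLog_sphere`.

`unbounded_of_hasLog'` is the translated form: if `z - x` has a continuous logarithm on `K` and
`x ∉ K`, then the component of `x` in `Kᶜ` is unbounded. Proof: apply the first form to the image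
of `K` under `z ↦ z - x` (a homeomorphism carries components of the complement to components).
-/

namespace Pool.Agent.H29.Sp

open Complex

private theorem frontier_component_subset (K : Set ℂ) (hK : IsClosed K) (x : ℂ) :
    frontier (connectedComponentIn Kᶜ x) ⊆ K := by
  intro z hz
  by_contra hzK
  have hVo : IsOpen (connectedComponentIn Kᶜ x) := hK.isOpen_compl.connectedComponentIn
  have hWo : IsOpen (connectedComponentIn Kᶜ z) := hK.isOpen_compl.connectedComponentIn
  rw [frontier, hVo.interior_eq] at hz
  obtain ⟨w, hwW, hwV⟩ := mem_closure_iff.1 hz.1 _ hWo (mem_connectedComponentIn hzK)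
  apply hz.2
  rw [connectedComponentIn_eq hwV, ← connectedComponentIn_eq hwW]
  exact mem_connectedComponentIn hzK

theorem unbounded_of_hasLog (K : Set ℂ) (hK : IsCompact K) (h0 : (0 : ℂ) ∉ K) (hl : HasLog K) :
    ¬ Bornology.IsBounded (connectedComponentIn Kᶜ 0) := by
  classical
  intro hb
  obtain ⟨l, hl, he⟩ := hl
  have hfr := frontier_component_subset K hK.isClosed 0
  have h0V : (0 : ℂ) ∈ connectedComponentIn Kᶜ 0 := mem_connectedComponentIn h0
  set V := connectedComponentIn Kᶜ (0 : ℂ) with hV
  obtain ⟨G, hG⟩ := ContinuousMap.exists_restrict_eq hK.isClosed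
    (⟨K.domRestrict l, continuousOn_iff_continuous_domRestrict.1 hl⟩ : C(K, ℂ))
  have hGK : ∀ z ∈ K, G z = l z := by
    intro z hz
    exact DFunLike.congr_fun hG ⟨z, hz⟩
  have hFc : Continuous (V.piecewise (fun z => exp (G z)) (fun z => z)) := by
    refine Continuous.piecewise ?_ (by fun_prop) continuous_id
    intro a ha
    have haK := hfr ha
    show exp (G a) = a
    rw [hGK a haK, he a haK]
  have hF0 : ∀ z, V.piecewise (fun z => exp (G z)) (fun z => z) z ≠ 0 := by
    intro z
    by_cases hz : z ∈ V
    · rw [Set.piecewise_eq_of_mem _ _ _ hz]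
      exact exp_ne_zero _
    · rw [Set.piecewise_eq_of_notMem _ _ _ hz]
      rintro rfl
      exact hz h0V
  obtain ⟨L, hLc, hL⟩ := exists_log_complex _ hFc hF0
  obtain ⟨R, hR, hVR⟩ := hb.subset_ball_lt 0 0
  refine not_hasLog_sphere R hR ⟨L, hLc.continuousOn, fun z hz => ?_⟩
  have hzV : z ∉ V := by
    intro h
    have h1 := hVR h
    rw [mem_ball_zero_iff] at h1
    rw [mem_sphere_zero_iff_norm] at hz
    linarith
  rw [hL z, Set.piecewise_eq_of_notMem _ _ _ hzV]

theorem unbounded_of_hasLog' (K : Set ℂ) (hK : IsCompact K) (x : ℂ) (h0 : x ∉ K) (l : ℂ → ℂ)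
    (hl : ContinuousOn l K) (he : ∀ z ∈ K, exp (l z) = z - x) :
    ¬ Bornology.IsBounded (connectedComponentIn Kᶜ x) := by
  intro hb
  set e : ℂ ≃ᵢ ℂ := IsometryEquiv.subRight x with hedef
  have hex : ∀ z, e z = z - x := fun z => rfl
  have hK' : IsCompact (e '' K) := hK.image e.continuous
  have h0' : (0 : ℂ) ∉ e '' K := by
    rintro ⟨z, hz, hz0⟩
    rw [hex, sub_eq_zero] at hz0
    exact h0 (hz0 ▸ hz)
  refine unbounded_of_hasLog (e '' K) hK' h0' ⟨fun w => l (w + x), ?_, ?_⟩ ?_
  · refine hl.comp (by fun_prop) ?_
    rintro _ ⟨z, hz, rfl⟩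
    simpa [hex] using hz
  · rintro _ ⟨z, hz, rfl⟩
    simp only [hex, sub_add_cancel]
    exact he z hz
  · have h1 := e.toHomeomorph.image_connectedComponentIn (s := Kᶜ) (x := x) h0
    have h2 : e.toHomeomorph '' Kᶜ = (e '' K)ᶜ := by
      rw [Set.image_compl_eq e.toHomeomorph.bijective]
      rfl
    have h3 : e.toHomeomorph x = 0 := by
      show e x = 0
      rw [hex, sub_self]
    rw [h2, h3] at h1
    rw [← h1]
    exact e.isometry.lipschitz.isBounded_image hb

end Pool.Agent.H29.Sp
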