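import Pool.Agent.H29.Sp.Ann
import Pool.Agent.H29.Sp.Far

set_option autoImplicit false

/-!
# The wall: a path of near pairs from the diagonal once around to the diagonal

Proof of `exists_wall`. The far set `F = farSet g r` is compact and lies in the open annulus; each
component of `F` is compact (closed in `F`) and preconnected, so it has a logarithm by
`hasLog_of_iness`; `hasLog_of_components` gives a logarithm on `F`, and `exists_path_annulus` a path
`γ` across the annulus which misses `F`. Put `c t = Circle.exp (arg (γ t))` (continuous, it is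
`γ t / ‖γ t‖`) and `v t = log ‖γ t‖`. Since `γ t` is in the closed annulus but not in `F`, the distance
of `pA g (γ t) = g (c t)` and `pB g (γ t) = g (c t * Circle.exp (2 π v t))` is less than `r`.
-/

namespace Pool.Agent.H29.Sp

open Complex

theorem exists_wall (g : Circle → ℂ) (hg : Continuous g) (hi : Function.Injective g) {r : ℝ}
    (hr0 : 0 < r) (hr : Iness g r) :
    ∃ (c : unitInterval → Circle) (v : unitInterval → ℝ), Continuous c ∧ Continuous v ∧
      v 0 = 0 ∧ v 1 = 1 ∧ (∀ t, 0 ≤ v t ∧ v t ≤ 1) ∧
      ∀ t, dist (g (c t)) (g (c t * Circle.exp (2 * Real.pi * v t))) < r := by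
  have hF := isCompact_farSet g hg r
  have hF1 := farSet_open_annulus g hr0
  have hF0 : (0 : ℂ) ∉ farSet g r := by
    intro h
    have := (hF1 0 h).1
    rw [norm_zero] at this
    linarith
  have hlog : HasLog (farSet g r) := by
    apply hasLog_of_components _ hF hF0
    intro z hz
    apply hasLog_of_iness g hg hi hr _ (connectedComponentIn_subset _ _) _
      isPreconnected_connectedComponentIn
    rw [connectedComponentIn_eq_image hz]
    have : CompactSpace (farSet g r) := isCompact_iff_compactSpace.mp hF
    exact (isClosed_connectedComponent.isCompact).image continuous_subtype_val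
  obtain ⟨γ, hγ, hγ0, hγ1, hγa⟩ := exists_path_annulus _ hF hF1 hlog
  have hγne : ∀ t, γ t ≠ 0 := by
    intro t h
    have := (hγa t).1
    rw [h, norm_zero] at this
    linarith
  have hc : Continuous fun t => Circle.exp (arg (γ t)) := by
    refine continuous_induced_rng.mpr ?_
    show Continuous fun t => ((Circle.exp (arg (γ t)) : Circle) : ℂ)
    have : (fun t => ((Circle.exp (arg (γ t)) : Circle) : ℂ)) = fun t => γ t / (‖γ t‖ : ℂ) := by
      funext t
      have h1 : (‖γ t‖ : ℂ) ≠ 0 := by
        exact_mod_cast norm_ne_zero_iff.mpr (hγne t)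
      rw [Circle.coe_exp, eq_div_iff h1, mul_comm]
      exact norm_mul_exp_arg_mul_I (γ t)
    rw [this]
    apply hγ.div
    · exact continuous_ofReal.comp hγ.norm
    · intro t
      exact_mod_cast norm_ne_zero_iff.mpr (hγne t)
  refine ⟨fun t => Circle.exp (arg (γ t)), fun t => Real.log ‖γ t‖, hc, ?_, ?_, ?_, ?_, ?_⟩
  · exact hγ.norm.log fun t => norm_ne_zero_iff.mpr (hγne t)
  · show Real.log ‖γ 0‖ = 0
    rw [hγ0, Real.log_one]
  · show Real.log ‖γ 1‖ = 1
    rw [hγ1, Real.log_exp]
  · intro t
    have h1 := (hγa t).1
    have h2 := (hγa t).2.1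
    refine ⟨Real.log_nonneg h1, ?_⟩
    have h3 := Real.log_le_log (by linarith) h2
    rwa [Real.log_exp] at h3
  · intro t
    obtain ⟨h1, h2, h3⟩ := hγa t
    by_contra hcon
    push Not at hcon
    apply h3
    refine ⟨h1, h2, ?_⟩
    have e : pB g (γ t) = g (Circle.exp (arg (γ t)) *
        Circle.exp (2 * Real.pi * Real.log ‖γ t‖)) := by
      unfold pB
      rw [Circle.exp_add]
    rw [e]
    exact hcon

end Pool.Agent.H29.Sp
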